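import Mathlib

set_option autoImplicit false

open MeasureTheory Filter Topology

namespace Pool.Agent.Helper42.Fr

/-- partial derivative in the first variable (log radius). -/
noncomputable def dX (v : ℝ × ℝ → ℝ) (z : ℝ × ℝ) : ℝ := fderiv ℝ v z (1, 0)

/-- partial derivative in the second variable (angle). -/
noncomputable def dT (v : ℝ × ℝ → ℝ) (z : ℝ × ℝ) : ℝ := fderiv ℝ v z (0, 1)

/-- the operator v_xx + v_tt + 2 rho v_x + rho^2 v. -/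
noncomputable def Lop (ρ : ℝ) (v : ℝ × ℝ → ℝ) (z : ℝ × ℝ) : ℝ :=
  dX (dX v) z + dT (dT v) z + 2 * ρ * dX v z + ρ ^ 2 * v z

/-- its formal adjoint. -/
noncomputable def Lst (ρ : ℝ) (φ : ℝ × ℝ → ℝ) (z : ℝ × ℝ) : ℝ :=
  dX (dX φ) z + dT (dT φ) z - 2 * ρ * dX φ z + ρ ^ 2 * φ z

/-- test functions. -/
structure IsTest (φ : ℝ × ℝ → ℝ) : Prop where
  smooth : ContDiff ℝ (⊤ : ℕ∞) φ
  cpt : HasCompactSupport φ

/-- assumptions on the indicator h. -/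
structure IndH (ρ C : ℝ) (h : ℝ → ℝ) : Prop where
  rho_pos : 0 < ρ
  C_pos : 1 ≤ C
  bdd : ∀ t, |h t| ≤ C
  lip : ∀ s t, |h s - h t| ≤ C * |s - t|
  per : ∀ t, h (t + 2 * Real.pi) = h t
  conv : ConvexOn ℝ Set.univ (fun t => h t + ρ ^ 2 * C / 2 * t ^ 2)

/-- the class of (possible) limit functions in logarithmic coordinates. -/
structure InC (ρ C : ℝ) (h : ℝ → ℝ) (v : ℝ × ℝ → ℝ) : Prop where
  bdd : ∀ z, |v z| ≤ C
  lip : ∀ z w : ℝ × ℝ, |v z - v w| ≤ C * (|z.1 - w.1| + |z.2 - w.2|)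
  per : ∀ x t, v (x, t + 2 * Real.pi) = v (x, t)
  le : ∀ x t, v (x, t) ≤ h t
  sub : ∀ φ : ℝ × ℝ → ℝ, IsTest φ → (∀ z, 0 ≤ φ z) → 0 ≤ ∫ z, v z * Lst ρ φ z
  harm : ∀ φ : ℝ × ℝ → ℝ, IsTest φ → (∀ z, 0 ≤ φ z) →
    (tsupport φ ⊆ {z : ℝ × ℝ | v z < h z.2}) → ∫ z, v z * Lst ρ φ z = 0

/-- translation in the first variable. -/
def shift (X : ℝ) (v : ℝ × ℝ → ℝ) (z : ℝ × ℝ) : ℝ := v (z.1 + X, z.2)

/-- distributional (vague) convergence in the plane. -/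
def ConvD (vs : ℕ → ℝ × ℝ → ℝ) (v : ℝ × ℝ → ℝ) : Prop :=
  ∀ ψ : ℝ × ℝ → ℝ, Continuous ψ → HasCompactSupport ψ →
    Tendsto (fun j => ∫ z, vs j z * ψ z) atTop (𝓝 (∫ z, v z * ψ z))

/-- what the function vh = exp(-rho x) log |f(exp(x+it))| has to satisfy. -/
structure Traj (ρ C : ℝ) (h : ℝ → ℝ) (vh : ℝ × ℝ → ℝ) : Prop where
  locInt : LocallyIntegrable vh
  per : ∀ x t, vh (x, t + 2 * Real.pi) = vh (x, t)
  l1 : ∀ R : ℝ, ∃ M X₀ : ℝ, ∀ X : ℝ, X₀ ≤ X →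
    ∫ z in (Set.Icc (-R) R) ×ˢ (Set.Icc (-R) R), |shift X vh z| ≤ M
  cpt : ∀ X : ℕ → ℝ, Tendsto X atTop atTop → ∃ φ : ℕ → ℕ, StrictMono φ ∧
    ∃ v : ℝ × ℝ → ℝ, InC ρ C h v ∧ ConvD (fun j => shift (X (φ j)) vh) v

/-! ### mollifiers and the Lyapunov functionals -/

/-- a fixed bump. -/
noncomputable def bmp : ContDiffBump (0 : ℝ) := ⟨1 / 2, 1, by norm_num, by norm_num⟩

/-- smooth, even, nonnegative, supported in [-1,1], integral 1. -/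
noncomputable def eta (x : ℝ) : ℝ := bmp.normed volume x

noncomputable def etaS (ε x : ℝ) : ℝ := ε⁻¹ * eta (x / ε)

/-- product kernel at scale ε. -/
noncomputable def ker (ε : ℝ) (z : ℝ × ℝ) : ℝ := etaS ε z.1 * etaS ε z.2

/-- mollification. -/
noncomputable def moll (ε : ℝ) (v : ℝ × ℝ → ℝ) (z : ℝ × ℝ) : ℝ := ∫ w, v w * ker ε (z - w)

/-- primitive of k. -/
noncomputable def KK (k : ℝ → ℝ) (t : ℝ) : ℝ := ∫ s in (0 : ℝ)..t, k s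

noncomputable def Theta (ρ : ℝ) (k : ℝ → ℝ) (p q : ℝ) : ℝ :=
  (ρ ^ 2)⁻¹ * ∫ τ in (0 : ℝ)..q, k ((p ^ 2 + τ ^ 2) / ρ ^ 2)

noncomputable def Fden (ρ : ℝ) (k : ℝ → ℝ) (p q r : ℝ) : ℝ :=
  -(ρ / 2) * KK k ((p ^ 2 + q ^ 2) / ρ ^ 2) + Theta ρ k p q * r

/-- density of the functional for a smooth function v, p = rho v + v_x, q = v_t,
r = p_t = rho v_t + v_xt. -/
noncomputable def FF (ρ : ℝ) (k : ℝ → ℝ) (v : ℝ × ℝ → ℝ) (z : ℝ × ℝ) : ℝ :=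
  Fden ρ k (ρ * v z + dX v z) (dT v z) (ρ * dT v z + dT (dX v) z)

/-- the functional, averaged in x against χ. -/
noncomputable def Lam (ρ : ℝ) (k χ : ℝ → ℝ) (v : ℝ × ℝ → ℝ) : ℝ :=
  ∫ x, ∫ t in (0 : ℝ)..(2 * Real.pi), χ x * FF ρ k v (x, t)

/-- value on homogeneous states. -/
noncomputable def lamH (ρ : ℝ) (k : ℝ → ℝ) (g : ℝ → ℝ) : ℝ :=
  ∫ t in (0 : ℝ)..(2 * Real.pi), Fden ρ k (ρ * g t) (deriv g t) (ρ * deriv g t)

/-- thin bump around t0, of total mass 2. -/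
noncomputable def kth (δ t₀ t : ℝ) : ℝ := 2 * etaS δ (t - t₀)

end Pool.Agent.Helper42.Fr
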