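import Pool.Agent.Helper42.Fr.Bad

set_option autoImplicit false

open MeasureTheory Filter Topology

namespace Pool.Agent.Helper42.Fr

/-- the primitive window. -/
noncomputable def win (χ : ℝ → ℝ) (X₁ X₂ x : ℝ) : ℝ := ∫ y in (x - X₂)..(x - X₁), χ y

lemma win_eq {χ : ℝ → ℝ} (hχ : Continuous χ) (X₁ X₂ : ℝ) :
    win χ X₁ X₂ = fun x => (∫ y in (0 : ℝ)..(x - X₁), χ y) - ∫ y in (0 : ℝ)..(x - X₂), χ y := by
  funext x
  unfold win
  rw [intervalIntegral.integral_interval_sub_left (hχ.intervalIntegrable _ _)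
    (hχ.intervalIntegrable _ _)]

lemma win_hasDerivAt {χ : ℝ → ℝ} (hχ : Continuous χ) (X₁ X₂ x : ℝ) :
    HasDerivAt (win χ X₁ X₂) (χ (x - X₁) - χ (x - X₂)) x := by
  rw [win_eq hχ]
  have key : ∀ X : ℝ, HasDerivAt (fun x => ∫ y in (0 : ℝ)..(x - X), χ y) (χ (x - X)) x := by
    intro X
    have h1 : HasDerivAt (fun t => ∫ y in (0 : ℝ)..t, χ y) (χ (x - X)) (x - X) :=
      intervalIntegral.integral_hasDerivAt_right (hχ.intervalIntegrable _ _)
        (hχ.stronglyMeasurableAtFilter _ _) hχ.continuousAt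
    have h2 := h1.comp x ((hasDerivAt_id x).sub_const X)
    exact h2.congr_deriv (mul_one _)
  exact (key X₁).sub (key X₂)

lemma win_smooth {χ : ℝ → ℝ} (hχ : ContDiff ℝ (⊤ : ℕ∞) χ) (X₁ X₂ : ℝ) :
    ContDiff ℝ (⊤ : ℕ∞) (win χ X₁ X₂) := by
  have hc := hχ.continuous
  have hd : deriv (win χ X₁ X₂) = fun x => χ (x - X₁) - χ (x - X₂) := by
    funext x
    exact (win_hasDerivAt hc X₁ X₂ x).deriv
  have h1 : ContDiff ℝ ((⊤ : ℕ∞) + 1 : WithTop ℕ∞) (win χ X₁ X₂) := by
    rw [contDiff_succ_iff_deriv]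
    refine ⟨fun x => (win_hasDerivAt hc X₁ X₂ x).differentiableAt, by simp, ?_⟩
    rw [hd]
    exact (hχ.comp (contDiff_id.sub contDiff_const)).sub (hχ.comp (contDiff_id.sub contDiff_const))
  simpa using h1

lemma exists_supp {χ : ℝ → ℝ} (hc : HasCompactSupport χ) :
    ∃ R : ℝ, 0 < R ∧ ∀ x, R < |x| → χ x = 0 := by
  obtain ⟨R, hR⟩ := XS.of_fst hc
  refine ⟨max R 1, lt_max_of_lt_right one_pos, fun x hx => ?_⟩
  exact hR x 0 (lt_of_le_of_lt (le_max_left _ _) hx)

lemma win_cpt {χ : ℝ → ℝ} (hc : HasCompactSupport χ) (X₁ X₂ : ℝ) :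
    HasCompactSupport (win χ X₁ X₂) := by
  obtain ⟨R, hR0, hR⟩ := exists_supp hc
  set S : ℝ := |X₁| + |X₂| + R with hS
  refine HasCompactSupport.of_support_subset_isCompact (isCompact_Icc (a := -S) (b := S)) ?_
  intro x hx
  by_contra hcon
  apply hx
  unfold win
  have h1 : S < |x| := by
    by_contra h2
    push Not at h2
    exact hcon (abs_le.1 h2)
  have : ∀ y ∈ Set.uIcc (x - X₂) (x - X₁), χ y = 0 := by
    intro y hy
    apply hR
    have a1 := abs_le.1 (le_refl |X₁|)
    have a2 := abs_le.1 (le_refl |X₂|)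
    have b1 := abs_nonneg X₁
    have b2 := abs_nonneg X₂
    rw [Set.mem_uIcc] at hy
    rcases lt_or_ge x 0 with h0 | h0
    · rw [abs_of_neg h0] at h1
      have : y < -R := by
        rcases hy with ⟨_, h⟩ | ⟨_, h⟩ <;> linarith
      rw [lt_abs]; right; linarith
    · rw [abs_of_nonneg h0] at h1
      have : R < y := by
        rcases hy with ⟨h, _⟩ | ⟨h, _⟩ <;> linarith
      rw [lt_abs]; left; exact this
  rw [intervalIntegral.integral_congr (g := fun _ => (0 : ℝ)) this]
  simp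

lemma win_nonneg {χ : ℝ → ℝ} (h0 : ∀ x, 0 ≤ χ x) {X₁ X₂ : ℝ} (hX : X₁ ≤ X₂) (x : ℝ) :
    0 ≤ win χ X₁ X₂ x :=
  intervalIntegral.integral_nonneg (by linarith) fun y _ => h0 y

lemma win_cut {χ : ℝ → ℝ} (hχ : IsCut χ) {X₁ X₂ : ℝ} (hX : X₁ ≤ X₂) : IsCut (win χ X₁ X₂) :=
  ⟨win_smooth hχ.smooth X₁ X₂, win_cpt hχ.cpt X₁ X₂, win_nonneg hχ.nonneg hX⟩

lemma win_deriv {χ : ℝ → ℝ} (hχ : Continuous χ) (X₁ X₂ x : ℝ) :
    deriv (win χ X₁ X₂) x = χ (x - X₁) - χ (x - X₂) := (win_hasDerivAt hχ X₁ X₂ x).deriv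

lemma FF_shift (ρ : ℝ) (k : ℝ → ℝ) {V : ℝ × ℝ → ℝ} (h : Sm V) (X : ℝ) :
    FF ρ k (shift X V) = shift X (FF ρ k V) := by
  funext z
  unfold FF
  rw [dX_shift h, dT_shift h, dT_shift h.dX]
  rfl

section cls

variable {ρ C : ℝ} {h : ℝ → ℝ}

/-- increment of the functional. -/
lemma lam_increment (hρ : ρ ≠ 0) {k χ : ℝ → ℝ} {κ : ℝ} (hk : KB κ k) (hχ : IsCut χ)
    {V : ℝ × ℝ → ℝ} (sV : Sm V) (pV : Per V) {X₁ X₂ : ℝ} :
    Lam ρ k χ (shift X₂ V) - Lam ρ k χ (shift X₁ V)
      = (ρ ^ 2)⁻¹ * J (fun z => win χ X₁ X₂ z.1 * (k (RR ρ V z) * (dX (dT V) z ^ 2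
        + DX ρ V z ^ 2 - DX ρ V z * Lop ρ V z))) := by
  have cF := FF_cont ρ hk sV
  have e : ∀ X, Lam ρ k χ (shift X V) = J (fun z => χ (z.1 - X) * FF ρ k V z) := by
    intro X
    rw [Lam_eq ρ hk (sV.shift X) hχ.smooth.continuous hχ.cpt, FF_shift ρ k sV]
    exact J_shift_weight hχ cF X
  rw [e, e, ← J_sub (cx_shift_weight hχ cF X₂) (cx_shift_weight hχ cF X₁),
    ← diss hρ hk sV pV (win_smooth hχ.smooth X₁ X₂) (win_cpt hχ.cpt X₁ X₂), ← J_neg]
  congr 1; funext z
  rw [win_deriv hχ.smooth.continuous]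
  ring

/-- quantitative monotonicity in the limit. -/
lemma lamC_increment (hh : IndH ρ C h) {k χ : ℝ → ℝ} {κ : ℝ} (hk : KB κ k)
    (hk0 : ∀ s, 0 ≤ k s) (hχ : IsCut χ) {v : ℝ × ℝ → ℝ} (hv : InC ρ C h v)
    {X₁ X₂ : ℝ} (hX : X₁ ≤ X₂) {δ : ℝ} (hδ : 0 < δ) :
    ∃ ε₀ : ℝ, 0 < ε₀ ∧ ε₀ ≤ 1 ∧ ∀ ε, 0 < ε → ε ≤ ε₀ →
      (ρ ^ 2)⁻¹ * J (fun z => win χ X₁ X₂ z.1 * (k (RR ρ (moll ε v) z) *
        (dX (dT (moll ε v)) z ^ 2 + DX ρ (moll ε v) z ^ 2)))
        ≤ LamC ρ k χ (shift X₂ v) - LamC ρ k χ (shift X₁ v) + δ := by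
  have hρ := hh.rho_pos
  obtain ⟨ε₁, h10, h11, h1⟩ := bad_term hh hk hk0 (win_cut hχ hX) hv
    (show 0 < δ / 2 * ρ ^ 2 by positivity)
  have t1 := lamC_tendsto hh hχ hk (hv.shift X₁)
  have t2 := lamC_tendsto hh hχ hk (hv.shift X₂)
  have t3 := (t2.sub t1).eventually (gt_mem_nhds (show LamC ρ k χ (shift X₂ v)
    - LamC ρ k χ (shift X₁ v) < LamC ρ k χ (shift X₂ v) - LamC ρ k χ (shift X₁ v) + δ / 2
    by linarith))
  obtain ⟨ε₂, h20, h2⟩ := mem_nhdsGT_iff_exists_Ioc_subset.1 t3
  have h20 : 0 < ε₂ := h20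
  refine ⟨min ε₁ ε₂, lt_min h10 h20, (min_le_left _ _).trans h11, fun ε hε hε' => ?_⟩
  have hε1 : ε ≤ ε₁ := hε'.trans (min_le_left _ _)
  have hε2 : ε ∈ Set.Ioc 0 ε₂ := ⟨hε, hε'.trans (min_le_right _ _)⟩
  have sV : Sm (moll ε v) := moll_smooth hε hv.locInt
  have pV : Per (moll ε v) := moll_per ε hv.perV
  have e1 := h2 hε2
  simp only [Set.mem_ofPred_eq, moll_shift] at e1
  rw [lam_increment hρ.ne' hk hχ sV pV] at e1
  have e2 := h1 ε hε hε1
  have cL := (Lop_smooth ρ sV).cont
  have cR := RR_cont ρ sV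
  have ck := hk.smooth.continuous
  have cDX := (DX_smooth ρ sV).cont
  have cQ := sV.dT.dX.cont
  have hw := win_cut hχ hX
  have e3 : J (fun z => win χ X₁ X₂ z.1 * (k (RR ρ (moll ε v) z) * (dX (dT (moll ε v)) z ^ 2
        + DX ρ (moll ε v) z ^ 2 - DX ρ (moll ε v) z * Lop ρ (moll ε v) z)))
      = J (fun z => win χ X₁ X₂ z.1 * (k (RR ρ (moll ε v) z) *
        (dX (dT (moll ε v)) z ^ 2 + DX ρ (moll ε v) z ^ 2)))
      - J (fun z => win χ X₁ X₂ z.1 * (k (RR ρ (moll ε v) z) *
        (DX ρ (moll ε v) z * Lop ρ (moll ε v) z))) := by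
    rw [← J_sub (hw.mul_cx (by fun_prop)) (hw.mul_cx (by fun_prop))]
    congr 1; funext z; ring
  rw [e3, mul_sub] at e1
  have e4 : (ρ ^ 2)⁻¹ * J (fun z => win χ X₁ X₂ z.1 * (k (RR ρ (moll ε v) z) *
        (DX ρ (moll ε v) z * Lop ρ (moll ε v) z))) ≤ (ρ ^ 2)⁻¹ * (δ / 2 * ρ ^ 2) :=
    mul_le_mul_of_nonneg_left e2 (by positivity)
  have e5 : (ρ ^ 2)⁻¹ * (δ / 2 * ρ ^ 2) = δ / 2 := by field_simp
  linarith

/-- (A10 iv) monotone. -/
theorem blockA_mono (hh : IndH ρ C h) {k χ : ℝ → ℝ} {κ : ℝ} (hk : KB κ k)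
    (hk0 : ∀ s, 0 ≤ k s) (hχ : IsCut χ) {v : ℝ × ℝ → ℝ}
    (hv : InC ρ C h v) : Monotone (fun X => LamC ρ k χ (shift X v)) := by
  intro X₁ X₂ hX
  have hρ := hh.rho_pos
  simp only
  refine le_of_forall_pos_le_add fun δ hδ => ?_
  obtain ⟨ε₀, h0, _, h1⟩ := lamC_increment hh hk hk0 hχ hv hX hδ
  have h2 := h1 ε₀ h0 le_rfl
  have h3 : 0 ≤ J (fun z => win χ X₁ X₂ z.1 * (k (RR ρ (moll ε₀ v) z) *
        (dX (dT (moll ε₀ v)) z ^ 2 + DX ρ (moll ε₀ v) z ^ 2))) :=
    J_nonneg fun z => mul_nonneg (win_nonneg hχ.nonneg hX _)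
      (mul_nonneg (hk0 _) (by positivity))
  have h4 : 0 ≤ (ρ ^ 2)⁻¹ * J (fun z => win χ X₁ X₂ z.1 * (k (RR ρ (moll ε₀ v) z) *
        (dX (dT (moll ε₀ v)) z ^ 2 + DX ρ (moll ε₀ v) z ^ 2))) := by positivity
  linarith

lemma KB_one : KB 1 (fun _ => (1 : ℝ)) :=
  ⟨contDiff_const, fun _ => by simp, fun _ => by simp⟩

/-- (A10 v) rigidity for k = 1. -/
theorem blockA_rigid (hh : IndH ρ C h) {χ : ℝ → ℝ}
    (hχ : IsCut χ) (hχ1 : ∃ x, χ x ≠ 0) {v : ℝ × ℝ → ℝ}
    (hv : InC ρ C h v)
    (hc : ∀ X, LamC ρ (fun _ => 1) χ (shift X v) = LamC ρ (fun _ => 1) χ v) :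
    ∀ x t, v (x, t) = v (0, t) := by
  have hC := hh.C_nonneg
  have hρ := hh.rho_pos
  have cχ := hχ.smooth.continuous
  obtain ⟨R, hR0, hR⟩ := exists_supp hχ.cpt
  have iχ : Integrable χ := cχ.integrable_of_hasCompactSupport hχ.cpt
  set c : ℝ := ∫ x, χ x with hcdef
  have hc0 : 0 < c := by
    rw [hcdef, integral_pos_iff_support_of_nonneg hχ.nonneg iχ]
    obtain ⟨x, hx⟩ := hχ1
    have ho : IsOpen (Function.support χ) := cχ.isOpen_support
    exact ho.measure_pos _ ⟨x, hx⟩
  -- window constant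
  have hwin : ∀ a b x : ℝ, a ≤ x → x ≤ b → win χ (a - R) (b + R) x = c := by
    intro a b x h1 h2
    unfold win
    rw [intervalIntegral.integral_of_le (by linarith), hcdef]
    apply setIntegral_eq_integral_of_forall_compl_eq_zero
    intro y hy
    by_contra hne
    have h3 : |y| ≤ R := by
      by_contra h4
      push Not at h4
      exact hne (hR y h4)
    -- the endpoint x - X2 may be equal to -R
    have h5 := abs_le.1 h3
    rcases eq_or_lt_of_le h5.1 with h6 | h6
    · -- y = -R; continuity forces vanishing there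
      have h7 : χ (-R) = 0 := by
        have hcl : IsClosed {z : ℝ | χ z = 0} := isClosed_eq cχ continuous_const
        have h8 : Set.Iio (-R) ⊆ {z : ℝ | χ z = 0} := by
          intro z hz
          apply hR
          have : z < -R := hz
          rw [lt_abs]; right; linarith
        have h9 := closure_minimal h8 hcl
        rw [closure_Iio] at h9
        exact h9 (Set.mem_Iic.2 le_rfl)
      rw [← h6] at hne
      exact hne h7
    · apply hy
      constructor
      · linarith
      · linarith [h5.2]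
  -- key smallness
  have small : ∀ a b : ℝ, a ≤ b → ∀ δ : ℝ, 0 < δ → ∃ ε₀ : ℝ, 0 < ε₀ ∧ ε₀ ≤ 1 ∧
      ∀ ε, 0 < ε → ε ≤ ε₀ →
        J (fun z => win χ (a - R) (b + R) z.1 * |DX ρ (moll ε v) z|) ≤ δ := by
    intro a b hab δ hδ
    have hX : a - R ≤ b + R := by linarith
    have hw := win_cut hχ hX
    set Q : ℝ := J (fun z => win χ (a - R) (b + R) z.1) with hQ
    have hQ0 : 0 ≤ Q := J_nonneg fun z => hw.nonneg _
    set δ' : ℝ := (ρ ^ 2)⁻¹ * (δ ^ 2 / (Q + 1)) with hδ'
    have hδ'0 : 0 < δ' := by positivity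
    obtain ⟨ε₀, h0, h01, h1⟩ := lamC_increment hh KB_one (fun _ => zero_le_one) hχ hv hX hδ'0
    refine ⟨ε₀, h0, h01, fun ε hε hε' => ?_⟩
    have h2 := h1 ε hε hε'
    rw [hc, hc, sub_self, zero_add] at h2
    have sV : Sm (moll ε v) := moll_smooth hε hv.locInt
    have cDX := (DX_smooth ρ sV).cont
    have cQ := sV.dT.dX.cont
    have h3 : J (fun z => win χ (a - R) (b + R) z.1 * (1 *
        (dX (dT (moll ε v)) z ^ 2 + DX ρ (moll ε v) z ^ 2))) ≤ δ ^ 2 / (Q + 1) := by
      rw [hδ'] at h2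
      exact le_of_mul_le_mul_left h2 (by positivity)
    have h4 : J (fun z => win χ (a - R) (b + R) z.1 * |DX ρ (moll ε v) z| ^ 2)
        ≤ δ ^ 2 / (Q + 1) := by
      refine le_trans (J_mono (hw.mul_cx (by fun_prop)) (hw.mul_cx (by fun_prop)) fun z => ?_) h3
      refine mul_le_mul_of_nonneg_left ?_ (hw.nonneg _)
      rw [sq_abs]
      linarith [sq_nonneg (dX (dT (moll ε v)) z)]
    have h5 := J_cs hw (A := fun _ => 1) (B := fun z => |DX ρ (moll ε v) z|)
      continuous_const cDX.abs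
    simp only [one_mul, one_pow, mul_one] at h5
    refine (le_abs_self _).trans (h5.trans ?_)
    rw [← Real.sqrt_mul (J_nonneg fun z => hw.nonneg _)]
    apply Real.sqrt_le_iff.2
    refine ⟨hδ.le, ?_⟩
    rw [← hQ]
    calc Q * J (fun z => win χ (a - R) (b + R) z.1 * |DX ρ (moll ε v) z| ^ 2)
        ≤ Q * (δ ^ 2 / (Q + 1)) := mul_le_mul_of_nonneg_left h4 hQ0
      _ = δ ^ 2 * (Q / (Q + 1)) := by ring
      _ ≤ δ ^ 2 * 1 := by
        apply mul_le_mul_of_nonneg_left _ (sq_nonneg _)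
        rw [div_le_one (by positivity)]
        linarith
      _ = δ ^ 2 := mul_one _
  -- pointwise in t estimate
  have main : ∀ x y : ℝ, x ≤ y → ∀ a : ℝ, a ≤ x →
      ∫ t in (0 : ℝ)..(2 * Real.pi), |v (y, t) - v (x, t)|
        ≤ (y - x) * (Real.exp (ρ * (a - x)) * C) * (2 * Real.pi) := by
    intro x y hxy a hax
    refine le_of_forall_pos_le_add fun δ hδ => ?_
    have hay : a ≤ y := hax.trans hxy
    -- parameters
    have hpi := Real.pi_pos
    set δ₁ : ℝ := c * (δ / 2) / (y - x + 1) with hδ₁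
    have hyx : 0 ≤ y - x := by linarith
    have hδ₁0 : 0 < δ₁ := by positivity
    obtain ⟨ε₀, h0, h01, h1⟩ := small a y hay δ₁ hδ₁0
    set ε : ℝ := min ε₀ (δ / 2 / (8 * Real.pi * C + 1)) with hε
    have hε0 : 0 < ε := by positivity
    have hεε : ε ≤ ε₀ := min_le_left _ _
    have hε2 : 8 * Real.pi * C * ε ≤ δ / 2 := by
      have e1 : ε ≤ δ / 2 / (8 * Real.pi * C + 1) := min_le_right _ _
      rw [le_div_iff₀ (by positivity)] at e1
      nlinarith
    have h2 := h1 ε hε0 hεε
    set V := moll ε v with hV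
    have sV : Sm V := moll_smooth hε0 hv.locInt
    have cDX := (DX_smooth ρ sV).cont
    have hX : a - R ≤ y + R := by linarith
    have hw := win_cut hχ hX
    have cw := hw.smooth.continuous
    set n : ℝ → ℝ := fun t => ∫ s, win χ (a - R) (y + R) s * |DX ρ V (s, t)| with hn
    have cxn : CX (fun z => win χ (a - R) (y + R) z.1 * |DX ρ V z|) := hw.mul_cx cDX.abs
    have en : ∫ t in (0 : ℝ)..(2 * Real.pi), n t
        = J (fun z => win χ (a - R) (y + R) z.1 * |DX ρ V z|) := (J_eq' cxn).symm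
    -- for each t
    have ft : ∀ t, |V (y, t) - V (x, t)| ≤ (y - x) * (Real.exp (ρ * (a - x)) * C + c⁻¹ * n t) := by
      intro t
      have cD1 : Continuous fun s => DX ρ V (s, t) :=
        cDX.comp (continuous_id.prodMk continuous_const)
      -- integrability
      have hint : Integrable fun s => win χ (a - R) (y + R) s * |DX ρ V (s, t)| := by
        have hcc : Continuous fun s => win χ (a - R) (y + R) s * |DX ρ V (s, t)| :=
          cw.mul cD1.abs
        exact hcc.integrable_of_hasCompactSupport (hw.cpt.mul_right)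
      have hb : ∀ b ∈ Set.Icc x y, |dX V (b, t)| ≤ Real.exp (ρ * (a - x)) * C + c⁻¹ * n t := by
        intro b hb
        have hab : a ≤ b := hax.trans hb.1
        have hder : ∀ s, HasDerivAt (fun s => Real.exp (ρ * (s - b)) * dX V (s, t))
            (Real.exp (ρ * (s - b)) * DX ρ V (s, t)) s := by
          intro s
          have e1 : HasDerivAt (fun s => Real.exp (ρ * (s - b))) (Real.exp (ρ * (s - b)) * ρ) s := by
            have := (((hasDerivAt_id s).sub_const b).const_mul ρ).exp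
            simpa using this
          refine (e1.mul (sV.dX.hX s t)).congr_deriv ?_
          unfold DX; ring
        have hcont : Continuous fun s => Real.exp (ρ * (s - b)) * DX ρ V (s, t) := by fun_prop
        have e2 := intervalIntegral.integral_eq_sub_of_hasDerivAt (a := a) (b := b)
          (fun s _ => hder s) (hcont.intervalIntegrable _ _)
        simp only [sub_self, mul_zero, Real.exp_zero, one_mul] at e2
        have e3 : |∫ s in a..b, Real.exp (ρ * (s - b)) * DX ρ V (s, t)| ≤ c⁻¹ * n t := by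
          have e4 : |∫ s in a..b, Real.exp (ρ * (s - b)) * DX ρ V (s, t)|
              ≤ ∫ s in a..b, c⁻¹ * (win χ (a - R) (y + R) s * |DX ρ V (s, t)|) := by
            rw [← Real.norm_eq_abs]
            refine intervalIntegral.norm_integral_le_of_norm_le hab ?_ ?_
            · refine Eventually.of_forall fun s hs => ?_
              rw [Real.norm_eq_abs, abs_mul, abs_of_pos (Real.exp_pos _),
                hwin a y s hs.1.le (hs.2.trans hb.2)]
              have e5 : Real.exp (ρ * (s - b)) ≤ 1 := by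
                rw [Real.exp_le_one_iff]
                have := hs.2
                nlinarith
              have e6 : c⁻¹ * (c * |DX ρ V (s, t)|) = |DX ρ V (s, t)| := by field_simp
              rw [e6]
              nlinarith [abs_nonneg (DX ρ V (s, t))]
            · exact (hint.const_mul _).intervalIntegrable
          refine e4.trans ?_
          rw [intervalIntegral.integral_const_mul]
          refine mul_le_mul_of_nonneg_left ?_ (inv_nonneg.2 hc0.le)
          rw [intervalIntegral.integral_of_le hab]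
          exact setIntegral_le_integral hint (Eventually.of_forall fun s =>
            mul_nonneg (hw.nonneg s) (abs_nonneg _))
        have e7 : |dX V (a, t)| ≤ C := moll_dX_le hC hv hε0 (a, t)
        have e8 : dX V (b, t) = Real.exp (ρ * (a - b)) * dX V (a, t)
            + ∫ s in a..b, Real.exp (ρ * (s - b)) * DX ρ V (s, t) := by linarith
        rw [e8]
        refine (abs_add_le _ _).trans (add_le_add ?_ e3)
        rw [abs_mul, abs_of_pos (Real.exp_pos _)]
        have e9 : Real.exp (ρ * (a - b)) ≤ Real.exp (ρ * (a - x)) := by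
          apply Real.exp_le_exp.2
          have := hb.1
          nlinarith
        exact mul_le_mul e9 e7 (abs_nonneg _) (Real.exp_pos _).le
      have := (convex_Icc x y).norm_image_sub_le_of_norm_hasDerivWithin_le
        (f := fun b => V (b, t)) (fun b _ => (sV.hX b t).hasDerivWithinAt) hb
        (x := x) (y := y) (Set.left_mem_Icc.2 hxy) (Set.right_mem_Icc.2 hxy)
      rw [Real.norm_eq_abs, Real.norm_eq_abs, abs_of_nonneg hyx] at this
      linarith
    -- integrate
    have cv1 : Continuous fun t => |v (y, t) - v (x, t)| := by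
      have c1 : Continuous fun t => v (y, t) := hv.cont.comp (continuous_const.prodMk continuous_id)
      have c2 : Continuous fun t => v (x, t) := hv.cont.comp (continuous_const.prodMk continuous_id)
      exact (c1.sub c2).abs
    have in_n : IntervalIntegrable n volume 0 (2 * Real.pi) := by
      rw [intervalIntegrable_iff_integrableOn_Ioc_of_le (by positivity)]
      have := cxn.integrable
      unfold mu2 at this
      exact this.integral_prod_right
    have hle : ∫ t in (0 : ℝ)..(2 * Real.pi), |v (y, t) - v (x, t)|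
        ≤ ∫ t in (0 : ℝ)..(2 * Real.pi), (((y - x) * (Real.exp (ρ * (a - x)) * C) + 4 * C * ε)
          + (y - x) * c⁻¹ * n t) := by
      refine intervalIntegral.integral_mono_on (by positivity) (cv1.intervalIntegrable _ _)
        (intervalIntegrable_const.add (in_n.const_mul _)) fun t _ => ?_
      have h3 := moll_close hC hv hε0 (y, t)
      have h4 := moll_close hC hv hε0 (x, t)
      have h5 := ft t
      have h6 : v (y, t) - v (x, t) = (V (y, t) - V (x, t)) + ((v (y, t) - V (y, t))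
          - (v (x, t) - V (x, t))) := by ring
      rw [h6]
      refine (abs_add_le _ _).trans ?_
      have h7 := abs_sub (v (y, t) - V (y, t)) (v (x, t) - V (x, t))
      rw [abs_sub_comm] at h3 h4
      have h8 : (y - x) * (Real.exp (ρ * (a - x)) * C + c⁻¹ * n t)
          = (y - x) * (Real.exp (ρ * (a - x)) * C) + (y - x) * c⁻¹ * n t := by ring
      rw [h8] at h5
      linarith
    rw [intervalIntegral.integral_add intervalIntegrable_const (in_n.const_mul _),
      intervalIntegral.integral_const, intervalIntegral.integral_const_mul, en, smul_eq_mul,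
      sub_zero] at hle
    refine hle.trans ?_
    have e1 : (y - x) * c⁻¹ * J (fun z => win χ (a - R) (y + R) z.1 * |DX ρ V z|) ≤ δ / 2 := by
      have e2 : (y - x) * c⁻¹ * J (fun z => win χ (a - R) (y + R) z.1 * |DX ρ V z|)
          ≤ (y - x) * c⁻¹ * δ₁ := mul_le_mul_of_nonneg_left h2 (by positivity)
      refine e2.trans ?_
      have e3 : (y - x) * c⁻¹ * δ₁ = (δ / 2) * ((y - x) / (y - x + 1)) := by
        rw [hδ₁]; field_simp
      rw [e3]
      have e4 : (y - x) / (y - x + 1) ≤ 1 := by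
        rw [div_le_one (by positivity)]; linarith
      nlinarith
    have e5 : 2 * Real.pi * ((y - x) * (Real.exp (ρ * (a - x)) * C) + 4 * C * ε)
        = (y - x) * (Real.exp (ρ * (a - x)) * C) * (2 * Real.pi) + 8 * Real.pi * C * ε := by ring
    rw [e5]
    linarith
  -- the integral vanishes
  have zero : ∀ x y : ℝ, x ≤ y → ∫ t in (0 : ℝ)..(2 * Real.pi), |v (y, t) - v (x, t)| = 0 := by
    intro x y hxy
    have hpi := Real.pi_pos
    apply le_antisymm
    · have ht : Tendsto (fun a : ℝ => (y - x) * (Real.exp (ρ * (a - x)) * C) * (2 * Real.pi)) atBot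
          (𝓝 ((y - x) * (0 * C) * (2 * Real.pi))) := by
        refine Tendsto.mul_const _ (Tendsto.const_mul _ (Tendsto.mul_const _ ?_))
        apply Real.tendsto_exp_atBot.comp
        have e1 : Tendsto (fun a : ℝ => a - x) atBot atBot :=
          tendsto_atBot_add_const_right _ (-x) tendsto_id
        exact e1.const_mul_atBot hρ
      have e2 : (y - x) * (0 * C) * (2 * Real.pi) = 0 := by ring
      rw [e2] at ht
      refine ge_of_tendsto ht ?_
      filter_upwards [eventually_le_atBot x] with a ha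
      exact main x y hxy a ha
    · exact intervalIntegral.integral_nonneg (by positivity) fun t _ => abs_nonneg _
  have eqv : ∀ x y : ℝ, x ≤ y → ∀ t, v (y, t) = v (x, t) := by
    intro x y hxy
    have hpi := Real.pi_pos
    have cv1 : Continuous fun t => |v (y, t) - v (x, t)| := by
      have c1 : Continuous fun t => v (y, t) := hv.cont.comp (continuous_const.prodMk continuous_id)
      have c2 : Continuous fun t => v (x, t) := hv.cont.comp (continuous_const.prodMk continuous_id)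
      exact (c1.sub c2).abs
    have h1 : ∀ t ∈ Set.Ioo (0 : ℝ) (2 * Real.pi), |v (y, t) - v (x, t)| = 0 := by
      intro t ht
      by_contra hne
      have hpos : 0 < |v (y, t) - v (x, t)| := lt_of_le_of_ne (abs_nonneg _) (Ne.symm hne)
      have h2 := intervalIntegral.integral_pos (a := 0) (b := 2 * Real.pi) (by positivity)
        cv1.continuousOn (fun s _ => abs_nonneg _) ⟨t, ⟨ht.1.le, ht.2.le⟩, hpos⟩
      rw [zero x y hxy] at h2
      exact lt_irrefl _ h2
    have h2 : ∀ t ∈ Set.Icc (0 : ℝ) (2 * Real.pi), |v (y, t) - v (x, t)| = 0 := by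
      have hcl : IsClosed {t : ℝ | |v (y, t) - v (x, t)| = 0} := isClosed_eq cv1 continuous_const
      have h3 := closure_minimal (s := Set.Ioo (0 : ℝ) (2 * Real.pi)) h1 hcl
      rw [closure_Ioo (by positivity)] at h3
      exact h3
    intro t
    -- reduce to one period
    have hp : Function.Periodic (fun t => |v (y, t) - v (x, t)|) (2 * Real.pi) := by
      intro t; simp only; rw [hv.per, hv.per]
    obtain ⟨s, hs, hs'⟩ := hp.exists_mem_Ico₀ (by positivity) t
    have h4 := h2 s ⟨hs.1, hs.2.le⟩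
    rw [← hs'] at h4
    have := abs_eq_zero.1 h4
    linarith
  intro x t
  rcases le_total x 0 with hx | hx
  · exact (eqv x 0 hx t).symm
  · exact eqv 0 x hx t

end cls

end Pool.Agent.Helper42.Fr
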