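import Pool.Agent.Helper42.Fr.Moll

set_option autoImplicit false

open MeasureTheory Filter Topology

namespace Pool.Agent.Helper42.Fr

/-! ### reflected test functions -/

lemma Sm.refl {g : ℝ × ℝ → ℝ} (h : Sm g) (z : ℝ × ℝ) : Sm (fun w => g (z - w)) := by
  have : ContDiff ℝ (⊤ : ℕ∞) (fun w : ℝ × ℝ => z - w) := contDiff_const.sub contDiff_id
  exact ContDiff.comp (g := g) h this

lemma dX_refl {g : ℝ × ℝ → ℝ} (h : Sm g) (z : ℝ × ℝ) :
    dX (fun w => g (z - w)) = fun w => - dX g (z - w) := by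
  funext ⟨x, t⟩
  refine dX_eq_of_hasDerivAt ((h.refl z).diff _) ?_
  have h1 : HasDerivAt (fun y => g (y, z.2 - t)) (dX g (z.1 - x, z.2 - t)) (z.1 - x) :=
    h.hX _ _
  have h2 : HasDerivAt (fun y => z.1 - y) (-1) x := (hasDerivAt_id x).const_sub z.1
  have h3 := h1.comp x h2
  simp only [mul_neg, mul_one] at h3
  exact h3

lemma dT_refl {g : ℝ × ℝ → ℝ} (h : Sm g) (z : ℝ × ℝ) :
    dT (fun w => g (z - w)) = fun w => - dT g (z - w) := by
  funext ⟨x, t⟩
  refine dT_eq_of_hasDerivAt ((h.refl z).diff _) ?_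
  have h1 : HasDerivAt (fun y => g (z.1 - x, y)) (dT g (z.1 - x, z.2 - t)) (z.2 - t) :=
    h.hT _ _
  have h2 : HasDerivAt (fun y => z.2 - y) (-1) t := (hasDerivAt_id t).const_sub z.2
  have h3 := h1.comp t h2
  simp only [mul_neg, mul_one] at h3
  exact h3

lemma dX_neg {v : ℝ × ℝ → ℝ} (h : Sm v) : dX (fun z => - v z) = fun z => - dX v z := by
  funext ⟨x, t⟩
  exact dX_eq_of_hasDerivAt (h.neg.diff _) ((h.hX x t).neg)

lemma dT_neg {v : ℝ × ℝ → ℝ} (h : Sm v) : dT (fun z => - v z) = fun z => - dT v z := by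
  funext ⟨x, t⟩
  exact dT_eq_of_hasDerivAt (h.neg.diff _) ((h.hT x t).neg)

lemma Lst_refl (ρ : ℝ) {g : ℝ × ℝ → ℝ} (h : Sm g) (z w : ℝ × ℝ) :
    Lst ρ (fun w => g (z - w)) w = Lop ρ g (z - w) := by
  unfold Lst Lop
  have e1 : dX (dX fun w => g (z - w)) w = dX (dX g) (z - w) := by
    rw [dX_refl h z, dX_neg (h.dX.refl z), dX_refl h.dX z]
    simp
  have e2 : dT (dT fun w => g (z - w)) w = dT (dT g) (z - w) := by
    rw [dT_refl h z, dT_neg (h.dT.refl z), dT_refl h.dT z]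
    simp
  rw [e1, e2, dX_refl h z]
  ring

lemma Lop_smooth (ρ : ℝ) {v : ℝ × ℝ → ℝ} (h : Sm v) : Sm (Lop ρ v) := by
  have : Sm (fun z => dX (dX v) z + dT (dT v) z + 2 * ρ * dX v z + ρ ^ 2 * v z) :=
    ((h.dX.dX.add h.dT.dT).add (h.dX.const_mul (2 * ρ))).add (h.const_mul (ρ ^ 2))
  exact this

lemma cpt_Lop (ρ : ℝ) {g : ℝ × ℝ → ℝ} (h : HasCompactSupport g) : HasCompactSupport (Lop ρ g) := by
  have h1 : HasCompactSupport (fun z => dX (dX g) z + dT (dT g) z + 2 * ρ * dX g z + ρ ^ 2 * g z) :=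
    (((cpt_dX (cpt_dX h)).add (cpt_dT (cpt_dT h))).add ((cpt_dX h).mul_left (f := fun _ => 2 * ρ))).add
      (h.mul_left (f := fun _ => ρ ^ 2))
  exact h1

lemma Per.Lop {ρ : ℝ} {v : ℝ × ℝ → ℝ} (h : Per v) : Per (Lop ρ v) := by
  intro x t
  unfold Fr.Lop
  rw [h.dX.dX x t, h.dT.dT x t, h.dX x t, h x t]

lemma Lop_cv (ρ : ℝ) {f g : ℝ × ℝ → ℝ} (hf : LocallyIntegrable f) (hg : Sm g)
    (hc : HasCompactSupport g) : Lop ρ (cv f g) = cv f (Lop ρ g) := by
  funext z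
  have e : cv f (Lop ρ g) z = cv f (dX (dX g)) z + cv f (dT (dT g)) z
      + 2 * ρ * cv f (dX g) z + ρ ^ 2 * cv f g z := by
    have h1 := cv_add_right hf hg.dX.dX.cont (cpt_dX (cpt_dX hc)) hg.dT.dT.cont
      (cpt_dT (cpt_dT hc)) z
    have h2 := cv_add_right hf (g₁ := fun w => dX (dX g) w + dT (dT g) w)
      (g₂ := fun w => 2 * ρ * dX g w)
      (hg.dX.dX.add hg.dT.dT).cont ((cpt_dX (cpt_dX hc)).add (cpt_dT (cpt_dT hc)))
      (hg.dX.const_mul (2 * ρ)).cont ((cpt_dX hc).mul_left (f := fun _ => 2 * ρ)) z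
    have h3 := cv_add_right hf (g₁ := fun w => dX (dX g) w + dT (dT g) w + 2 * ρ * dX g w)
      (g₂ := fun w => ρ ^ 2 * g w)
      ((hg.dX.dX.add hg.dT.dT).add (hg.dX.const_mul (2 * ρ))).cont
      (((cpt_dX (cpt_dX hc)).add (cpt_dT (cpt_dT hc))).add
        ((cpt_dX hc).mul_left (f := fun _ => 2 * ρ)))
      (hg.const_mul (ρ ^ 2)).cont (hc.mul_left (f := fun _ => ρ ^ 2)) z
    have h4 : cv f (Lop ρ g) z
        = cv f (fun w => dX (dX g) w + dT (dT g) w + 2 * ρ * dX g w + ρ ^ 2 * g w) z := rfl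
    rw [h4, h3, h2, h1, cv_const_right, cv_const_right]
  rw [e]
  unfold Lop
  rw [dX_cv hf hg hc, dX_cv hf hg.dX (cpt_dX hc), dT_cv hf hg hc, dT_cv hf hg.dT (cpt_dT hc)]

/-! ### first facts about the class -/

section cls

variable {ρ C : ℝ} {h : ℝ → ℝ} {v : ℝ × ℝ → ℝ}

lemma IndH.C_nonneg (hh : IndH ρ C h) : 0 ≤ C := by linarith [hh.C_pos]

lemma InC.cont (hv : InC ρ C h v) : Continuous v := by
  rw [continuous_iff_continuousAt]
  intro z
  rw [ContinuousAt, tendsto_iff_dist_tendsto_zero]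
  have h1 : Tendsto (fun w : ℝ × ℝ => C * (|w.1 - z.1| + |w.2 - z.2|)) (𝓝 z) (𝓝 0) := by
    have : Continuous fun w : ℝ × ℝ => C * (|w.1 - z.1| + |w.2 - z.2|) := by fun_prop
    have h2 := this.tendsto z
    simpa using h2
  refine squeeze_zero (fun _ => dist_nonneg) (fun w => ?_) h1
  rw [Real.dist_eq]
  exact hv.lip w z

lemma InC.locInt (hv : InC ρ C h v) : LocallyIntegrable v := hv.cont.locallyIntegrable

lemma InC.perV (hv : InC ρ C h v) : Per v := hv.per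

lemma Lst_shift (ρ : ℝ) {φ : ℝ × ℝ → ℝ} (hφ : Sm φ) (X : ℝ) :
    Lst ρ (shift X φ) = shift X (Lst ρ φ) := by
  funext z
  unfold Lst
  rw [dX_shift hφ, dX_shift hφ.dX, dT_shift hφ, dT_shift hφ.dT]
  rfl

lemma cpt_shift {φ : ℝ × ℝ → ℝ} (h : HasCompactSupport φ) (X : ℝ) :
    HasCompactSupport (shift X φ) := by
  have e : shift X φ = φ ∘ (Homeomorph.addRight ((X, 0) : ℝ × ℝ)) := by
    funext z
    simp [shift, Prod.add_def]
  rw [e]
  exact h.comp_homeomorph _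

lemma IsTest.shift {φ : ℝ × ℝ → ℝ} (h : IsTest φ) (X : ℝ) : IsTest (shift X φ) :=
  ⟨Sm.shift h.smooth X, cpt_shift h.cpt X⟩

lemma integral_shift (F G : ℝ × ℝ → ℝ) (X : ℝ) :
    ∫ z, shift X F z * G z = ∫ z, F z * shift (-X) G z := by
  rw [← integral_add_right_eq_self (fun z => F z * shift (-X) G z) ((X, 0) : ℝ × ℝ)]
  congr 1; funext z
  simp [shift, Prod.add_def]

lemma InC.shift (hv : InC ρ C h v) (X : ℝ) : InC ρ C h (shift X v) := by
  refine ⟨fun z => hv.bdd _, ?_, ?_, fun x t => hv.le _ _, ?_, ?_⟩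
  · intro z w
    have := hv.lip (z.1 + X, z.2) (w.1 + X, w.2)
    simpa [Fr.shift] using this
  · intro x t; exact hv.per _ _
  · intro φ hφ h0
    rw [integral_shift, ← Lst_shift ρ hφ.smooth]
    exact hv.sub _ (hφ.shift (-X)) (fun z => h0 _)
  · intro φ hφ h0 hs
    rw [integral_shift, ← Lst_shift ρ hφ.smooth]
    refine hv.harm _ (hφ.shift (-X)) (fun z => h0 _) ?_
    intro z hz
    have : (z.1 + -X, z.2) ∈ tsupport φ := by
      have e : Fr.shift (-X) φ = φ ∘ (Homeomorph.addRight ((-X, 0) : ℝ × ℝ)) := by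
        funext z
        simp [Fr.shift, Prod.add_def]
      rw [e, tsupport_comp_eq_preimage] at hz
      have h3 : (Homeomorph.addRight ((-X, 0) : ℝ × ℝ)) z = (z.1 + -X, z.2) := by
        simp [Prod.add_def]
      rw [Set.mem_preimage, h3] at hz
      exact hz
    have h2 := hs this
    simpa [Fr.shift] using h2

lemma moll_shift (ε X : ℝ) (v : ℝ × ℝ → ℝ) : moll ε (shift X v) = shift X (moll ε v) :=
  cv_shift v (ker ε) X

lemma moll_smooth {ε : ℝ} (hε : 0 < ε) {f : ℝ × ℝ → ℝ} (hf : LocallyIntegrable f) :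
    Sm (moll ε f) := cv_smooth hf (ker_smooth ε) (ker_cpt hε)

lemma moll_per (ε : ℝ) {f : ℝ × ℝ → ℝ} (hf : Per f) : Per (moll ε f) := cv_per hf _

lemma moll_lip (hv : InC ρ C h v) {ε : ℝ} (hε : 0 < ε) (z w : ℝ × ℝ) :
    |moll ε v z - moll ε v w| ≤ C * (|z.1 - w.1| + |z.2 - w.2|) := by
  have hs : moll ε v w = moll ε (fun y => v (y + (w - z))) z := by
    rw [moll_eq, moll_eq, cv_swap, cv_swap]
    congr 1; funext y
    congr 2
    abel
  have hc : Continuous fun y => v (y + (w - z)) := hv.cont.comp (continuous_id.add continuous_const)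
  have e : moll ε v z - moll ε v w = moll ε (fun y => v y - v (y + (w - z))) z := by
    rw [hs, moll_eq, moll_eq, moll_eq,
      cv_sub_left hv.locInt hc.locallyIntegrable (ker_smooth ε).cont (ker_cpt hε)]
  rw [e]
  apply moll_bound hε
  intro y
  have := hv.lip y (y + (w - z))
  refine this.trans (le_of_eq ?_)
  congr 1
  simp only [Prod.fst_add, Prod.fst_sub, Prod.snd_add, Prod.snd_sub]
  congr 1
  · congr 1; ring
  · congr 1; ring

lemma abs_deriv_le_of_lip {f : ℝ → ℝ} {d x C : ℝ} (hC : 0 ≤ C) (hd : HasDerivAt f d x)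
    (hl : ∀ y z, |f y - f z| ≤ C * |y - z|) : |d| ≤ C := by
  have h1 : LipschitzWith (Real.toNNReal C) f := by
    apply LipschitzWith.of_dist_le_mul
    intro y z
    rw [Real.dist_eq, Real.dist_eq, Real.coe_toNNReal C hC]
    exact hl y z
  have h2 := norm_deriv_le_of_lipschitz (x₀ := x) h1
  rw [hd.deriv, Real.norm_eq_abs, Real.coe_toNNReal C hC] at h2
  exact h2

lemma moll_dX_le (hC : 0 ≤ C) (hv : InC ρ C h v) {ε : ℝ} (hε : 0 < ε) (z : ℝ × ℝ) :
    |dX (moll ε v) z| ≤ C := by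
  have h1 := (moll_smooth hε hv.locInt).hX z.1 z.2
  refine abs_deriv_le_of_lip hC h1 (fun y y' => ?_)
  have := moll_lip hv hε (y, z.2) (y', z.2)
  simpa using this

lemma moll_dT_le (hC : 0 ≤ C) (hv : InC ρ C h v) {ε : ℝ} (hε : 0 < ε) (z : ℝ × ℝ) :
    |dT (moll ε v) z| ≤ C := by
  have h1 := (moll_smooth hε hv.locInt).hT z.1 z.2
  refine abs_deriv_le_of_lip hC h1 (fun y y' => ?_)
  have := moll_lip hv hε (z.1, y) (z.1, y')
  simpa using this

lemma moll_close (hC : 0 ≤ C) (hv : InC ρ C h v) {ε : ℝ} (hε : 0 < ε) (z : ℝ × ℝ) :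
    |moll ε v z - v z| ≤ 2 * C * ε := by
  apply moll_sub_const_le hε hv.locInt
  intro w h1 h2
  have := hv.lip (z - w) z
  refine this.trans ?_
  have e1 : |(z - w).1 - z.1| = |w.1| := by
    simp [abs_neg]
  have e2 : |(z - w).2 - z.2| = |w.2| := by
    simp [abs_neg]
  rw [e1, e2]
  nlinarith

/-- the mollified source term is nonnegative. -/
lemma Lop_moll_nonneg (hv : InC ρ C h v) {ε : ℝ} (hε : 0 < ε) (z : ℝ × ℝ) :
    0 ≤ Lop ρ (moll ε v) z := by
  rw [moll_eq, Lop_cv ρ hv.locInt (ker_smooth ε) (ker_cpt hε)]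
  have : cv v (Lop ρ (ker ε)) z = ∫ w, v w * Lst ρ (fun w => ker ε (z - w)) w := by
    unfold cv
    congr 1; funext w
    rw [Lst_refl ρ (ker_smooth ε) z w]
  rw [this]
  refine hv.sub _ ⟨(ker_smooth ε).refl z, ?_⟩ (fun w => ker_nonneg hε _)
  exact (ker_cpt hε).comp_homeomorph (Homeomorph.subLeft z)

/-- where the mollified source term does not vanish there is a contact point nearby. -/
lemma exists_contact (hv : InC ρ C h v) {ε : ℝ} (hε : 0 < ε) {z : ℝ × ℝ}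
    (hz : Lop ρ (moll ε v) z ≠ 0) :
    ∃ z' : ℝ × ℝ, |z.1 - z'.1| ≤ ε ∧ |z.2 - z'.2| ≤ ε ∧ h z'.2 ≤ v z' := by
  by_contra hcon
  push Not at hcon
  apply hz
  rw [moll_eq, Lop_cv ρ hv.locInt (ker_smooth ε) (ker_cpt hε)]
  have : cv v (Lop ρ (ker ε)) z = ∫ w, v w * Lst ρ (fun w => ker ε (z - w)) w := by
    unfold cv
    congr 1; funext w
    rw [Lst_refl ρ (ker_smooth ε) z w]
  rw [this]
  refine hv.harm _ ⟨(ker_smooth ε).refl z, ?_⟩ (fun w => ker_nonneg hε _) ?_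
  · exact (ker_cpt hε).comp_homeomorph (Homeomorph.subLeft z)
  · intro w hw
    have h1 : z - w ∈ tsupport (ker ε) := by
      have e : (fun w => ker ε (z - w)) = ker ε ∘ (Homeomorph.subLeft z) := rfl
      rw [e, tsupport_comp_eq_preimage] at hw
      exact hw
    have h2 := ker_tsupport hε h1
    have h3 : |z.1 - w.1| ≤ ε := abs_le.2 h2.1
    have h4 : |z.2 - w.2| ≤ ε := abs_le.2 h2.2
    exact hcon w h3 h4

/-- upper bound by the obstacle. -/
lemma moll_le_h (hh : IndH ρ C h) (hv : InC ρ C h v) {ε : ℝ} (hε : 0 < ε) (z : ℝ × ℝ) :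
    moll ε v z ≤ h z.2 + C * ε := by
  apply moll_le hε hv.locInt
  intro w _ h2
  have h3 := hv.le (z - w).1 (z - w).2
  have h4 := hh.lip (z - w).2 z.2
  have e : |(z - w).2 - z.2| = |w.2| := by simp [abs_neg]
  rw [e] at h4
  have h5 := le_of_abs_le h4
  have h6 : C * |w.2| ≤ C * ε := mul_le_mul_of_nonneg_left h2 hh.C_nonneg
  have h7 : v (z - w) = v ((z - w).1, (z - w).2) := rfl
  rw [h7]
  linarith

/-- lower bound on the mollified contact set. -/
lemma le_moll_of_Lop_ne (hh : IndH ρ C h) (hv : InC ρ C h v) {ε : ℝ} (hε : 0 < ε) {z : ℝ × ℝ}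
    (hz : Lop ρ (moll ε v) z ≠ 0) : h z.2 - 5 * C * ε ≤ moll ε v z := by
  obtain ⟨z', h1, h2, h3⟩ := exists_contact hv hε hz
  have h4 := moll_close hh.C_nonneg hv hε z
  have h5 := hv.lip z z'
  have h6 := hh.lip z.2 z'.2
  have h7 : C * |z.1 - z'.1| ≤ C * ε := mul_le_mul_of_nonneg_left h1 hh.C_nonneg
  have h8 : C * |z.2 - z'.2| ≤ C * ε := mul_le_mul_of_nonneg_left h2 hh.C_nonneg
  have h9 := abs_le.1 h4
  have h10 := abs_le.1 h5
  have h11 := abs_le.1 h6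
  nlinarith [h9.1, h10.1, h11.2]

/-- the key sign: on the mollified contact set no other value at the same angle is larger. -/
lemma moll_sub_le_of_Lop_ne (hh : IndH ρ C h) (hv : InC ρ C h v) {ε : ℝ} (hε : 0 < ε)
    {x t : ℝ} (hz : Lop ρ (moll ε v) (x, t) ≠ 0) (y : ℝ) :
    moll ε v (y, t) - moll ε v (x, t) ≤ 6 * C * ε := by
  have h1 := le_moll_of_Lop_ne hh hv hε hz
  have h2 := moll_le_h hh hv hε (y, t)
  simp only at h1 h2
  linarith

end cls

end Pool.Agent.Helper42.Fr
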