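import Pool.Agent.Helper42.Fr.Func

set_option autoImplicit false

open MeasureTheory Filter Topology

namespace Pool.Agent.Helper42.Fr

/-- a one-dimensional comparison. -/
lemma ode_bound {ρ σ m A : ℝ} (hρ : 0 < ρ) (hσ : 0 < σ) (hm : 0 ≤ m) {Φ Φ' Φ'' : ℝ → ℝ}
    (h1 : ∀ y, HasDerivAt Φ (Φ' y) y) (h2 : ∀ y, HasDerivAt Φ' (Φ'' y) y)
    (hle : ∀ y, |y| ≤ σ → m ≤ ρ * Φ' y + Φ'' y)
    (hA1 : Φ σ - Φ 0 ≤ A) (hA2 : Φ (-σ) - Φ 0 ≤ A) :
    m * Real.exp (-(ρ * σ)) * σ ^ 2 / 2 ≤ A := by
  set c : ℝ := m * Real.exp (-(ρ * σ)) with hc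
  have hc0 : 0 ≤ c := by positivity
  have hexp : ∀ y, HasDerivAt (fun y => Φ' y * Real.exp (ρ * y))
      (Real.exp (ρ * y) * (ρ * Φ' y + Φ'' y)) y := by
    intro y
    have h3 : HasDerivAt (fun y => Real.exp (ρ * y)) (Real.exp (ρ * y) * ρ) y := by
      have := ((hasDerivAt_id y).const_mul ρ).exp
      simpa using this
    refine ((h2 y).mul h3).congr_deriv ?_
    ring
  rcases le_total 0 (Φ' 0) with h0 | h0
  · -- right side
    have k1 : MonotoneOn (fun y => Φ' y * Real.exp (ρ * y) - m * y) (Set.Icc 0 σ) := by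
      apply monotoneOn_of_hasDerivWithinAt_nonneg (convex_Icc 0 σ)
        (f' := fun y => Real.exp (ρ * y) * (ρ * Φ' y + Φ'' y) - m)
      · intro y _
        exact ((hexp y).sub ((hasDerivAt_id y).const_mul m)).continuousAt.continuousWithinAt
      · intro y _
        have := (hexp y).sub ((hasDerivAt_id y).const_mul m)
        simp only [mul_one] at this
        exact this.hasDerivWithinAt
      · intro y hy
        rw [interior_Icc] at hy
        have hy1 : |y| ≤ σ := by rw [abs_of_pos hy.1]; exact hy.2.le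
        have e1 := hle y hy1
        have e2 : 1 ≤ Real.exp (ρ * y) := by
          apply Real.one_le_exp
          have := hy.1
          positivity
        nlinarith
    have k2 : ∀ y ∈ Set.Icc (0 : ℝ) σ, c * y ≤ Φ' y := by
      intro y hy
      have := k1 (Set.left_mem_Icc.2 hσ.le) hy hy.1
      simp only [mul_zero, Real.exp_zero, mul_one, sub_zero] at this
      have e1 : m * y ≤ Φ' y * Real.exp (ρ * y) := by linarith
      have e2 : Real.exp (-(ρ * y)) * (m * y) ≤ Φ' y := by
        have e3 := mul_le_mul_of_nonneg_left e1 (Real.exp_pos (-(ρ * y))).le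
        have e4 : Real.exp (-(ρ * y)) * (Φ' y * Real.exp (ρ * y)) = Φ' y := by
          rw [mul_comm (Φ' y), ← mul_assoc, ← Real.exp_add, neg_add_cancel, Real.exp_zero, one_mul]
        rw [e4] at e3
        exact e3
      have e5 : Real.exp (-(ρ * σ)) ≤ Real.exp (-(ρ * y)) := by
        apply Real.exp_le_exp.2
        have := mul_le_mul_of_nonneg_left hy.2 hρ.le
        linarith
      have e6 : 0 ≤ m * y := mul_nonneg hm hy.1
      have e7 := mul_le_mul_of_nonneg_right e5 e6
      rw [hc]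
      linarith
    have k3 : MonotoneOn (fun y => Φ y - c * y ^ 2 / 2) (Set.Icc 0 σ) := by
      have hd : ∀ y, HasDerivAt (fun y => Φ y - c * y ^ 2 / 2) (Φ' y - c * y) y := by
        intro y
        have := (h1 y).sub (((hasDerivAt_pow 2 y).const_mul c).div_const 2)
        refine this.congr_deriv ?_
        simp; ring
      apply monotoneOn_of_hasDerivWithinAt_nonneg (convex_Icc 0 σ) (f' := fun y => Φ' y - c * y)
      · intro y _
        exact (hd y).continuousAt.continuousWithinAt
      · intro y _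
        exact (hd y).hasDerivWithinAt
      · intro y hy
        rw [interior_Icc] at hy
        have := k2 y ⟨hy.1.le, hy.2.le⟩
        linarith
    have k4 := k3 (Set.left_mem_Icc.2 hσ.le) (Set.right_mem_Icc.2 hσ.le) hσ.le
    simp only at k4
    have k5 : c * σ ^ 2 / 2 ≤ Φ σ - Φ 0 := by
      have : c * (0 : ℝ) ^ 2 / 2 = 0 := by ring
      linarith
    linarith
  · -- left side
    have k1 : MonotoneOn (fun y => Φ' y * Real.exp (ρ * y) - c * y) (Set.Icc (-σ) 0) := by
      apply monotoneOn_of_hasDerivWithinAt_nonneg (convex_Icc (-σ) 0)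
        (f' := fun y => Real.exp (ρ * y) * (ρ * Φ' y + Φ'' y) - c)
      · intro y _
        exact ((hexp y).sub ((hasDerivAt_id y).const_mul c)).continuousAt.continuousWithinAt
      · intro y _
        have := (hexp y).sub ((hasDerivAt_id y).const_mul c)
        simp only [mul_one] at this
        exact this.hasDerivWithinAt
      · intro y hy
        rw [interior_Icc] at hy
        have hy1 : |y| ≤ σ := by rw [abs_of_neg hy.2]; linarith [hy.1]
        have e1 := hle y hy1
        have e2 : Real.exp (-(ρ * σ)) ≤ Real.exp (ρ * y) := by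
          apply Real.exp_le_exp.2
          have := mul_le_mul_of_nonneg_left hy.1.le hρ.le
          linarith
        have e3 : Real.exp (ρ * y) * m ≤ Real.exp (ρ * y) * (ρ * Φ' y + Φ'' y) :=
          mul_le_mul_of_nonneg_left e1 (Real.exp_pos _).le
        have e4 := mul_le_mul_of_nonneg_left e2 hm
        rw [hc]
        linarith
    have k2 : ∀ y ∈ Set.Icc (-σ) (0 : ℝ), Φ' y ≤ c * y := by
      intro y hy
      have := k1 hy (Set.right_mem_Icc.2 (by linarith)) hy.2
      simp only [mul_zero, Real.exp_zero, mul_one, sub_zero] at this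
      have e1 : Φ' y * Real.exp (ρ * y) ≤ c * y := by linarith
      have e3 := mul_le_mul_of_nonneg_left e1 (Real.exp_pos (-(ρ * y))).le
      have e4 : Real.exp (-(ρ * y)) * (Φ' y * Real.exp (ρ * y)) = Φ' y := by
        rw [mul_comm (Φ' y), ← mul_assoc, ← Real.exp_add, neg_add_cancel, Real.exp_zero, one_mul]
      rw [e4] at e3
      have e5 : 1 ≤ Real.exp (-(ρ * y)) := by
        apply Real.one_le_exp
        have := mul_le_mul_of_nonneg_left hy.2 hρ.le
        linarith
      have e6 : c * y ≤ 0 := mul_nonpos_of_nonneg_of_nonpos hc0 hy.2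
      nlinarith
    have k3 : AntitoneOn (fun y => Φ y - c * y ^ 2 / 2) (Set.Icc (-σ) 0) := by
      have hd : ∀ y, HasDerivAt (fun y => Φ y - c * y ^ 2 / 2) (Φ' y - c * y) y := by
        intro y
        have := (h1 y).sub (((hasDerivAt_pow 2 y).const_mul c).div_const 2)
        refine this.congr_deriv ?_
        simp; ring
      apply antitoneOn_of_hasDerivWithinAt_nonpos (convex_Icc (-σ) 0) (f' := fun y => Φ' y - c * y)
      · intro y _
        exact (hd y).continuousAt.continuousWithinAt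
      · intro y _
        exact (hd y).hasDerivWithinAt
      · intro y hy
        rw [interior_Icc] at hy
        have := k2 y ⟨hy.1.le, hy.2.le⟩
        linarith
    have k4 := k3 (Set.left_mem_Icc.2 (by linarith)) (Set.right_mem_Icc.2 (by linarith))
      (show -σ ≤ 0 by linarith)
    simp only at k4
    have k5 : c * σ ^ 2 / 2 ≤ Φ (-σ) - Φ 0 := by
      have e1 : c * (0 : ℝ) ^ 2 / 2 = 0 := by ring
      have e2 : c * (-σ) ^ 2 / 2 = c * σ ^ 2 / 2 := by ring
      linarith
    linarith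

/-- differentiation of a translated pairing. -/
lemma J_hasDerivAt_shift {G W : ℝ × ℝ → ℝ} (hG : CX G) (hW : Sm W) {K : ℝ}
    (hK : ∀ z, |dX W z| ≤ K) (y : ℝ) :
    HasDerivAt (fun y => J (fun z => G z * shift y W z)) (J (fun z => G z * shift y (dX W) z)) y := by
  unfold J
  have cS : ∀ (W : ℝ × ℝ → ℝ), Continuous W → ∀ y, CX (fun z => G z * shift y W z) := by
    intro W cW y
    exact hG.mul (cW.comp ((continuous_fst.add continuous_const).prodMk continuous_snd))
  refine (hasDerivAt_integral_of_dominated_loc_of_deriv_le (μ := mu2)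
    (F := fun y z => G z * shift y W z) (F' := fun y z => G z * shift y (dX W) z)
    (s := Set.univ) (bound := fun z => |G z| * K) univ_mem ?_ ?_ ?_ ?_ ?_ ?_).2
  · exact Eventually.of_forall fun y => (cS W hW.cont y).cont.aestronglyMeasurable
  · exact (cS W hW.cont y).integrable
  · exact (cS _ hW.dX.cont y).cont.aestronglyMeasurable
  · refine Eventually.of_forall fun z y _ => ?_
    rw [Real.norm_eq_abs, abs_mul]
    exact mul_le_mul_of_nonneg_left (hK _) (abs_nonneg _)
  · exact (hG.abs.mul continuous_const).integrable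
  · refine Eventually.of_forall fun z y _ => ?_
    have h1 : HasDerivAt (fun x => W (x, z.2)) (dX W (z.1 + y, z.2)) (z.1 + y) := hW.hX _ _
    have h2 := (h1.comp_const_add z.1 y).const_mul (G z)
    exact h2

section cls

variable {ρ C : ℝ} {h : ℝ → ℝ}

/-- the bad term has asymptotically the good sign. -/
theorem bad_term (hh : IndH ρ C h) {k : ℝ → ℝ} {κ : ℝ} (hk : KB κ k)
    (hk0 : ∀ s, 0 ≤ k s) {ψ : ℝ → ℝ} (hψ : IsCut ψ) {v : ℝ × ℝ → ℝ} (hv : InC ρ C h v)
    {δ : ℝ} (hδ : 0 < δ) :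
    ∃ ε₀ : ℝ, 0 < ε₀ ∧ ε₀ ≤ 1 ∧ ∀ ε, 0 < ε → ε ≤ ε₀ →
      J (fun z => ψ z.1 * (k (RR ρ (moll ε v) z) * (DX ρ (moll ε v) z * Lop ρ (moll ε v) z)))
        ≤ δ := by
  have hC := hh.C_nonneg
  have hρ := hh.rho_pos
  have hκ := hk.nonneg
  obtain ⟨χ₁, hχ₁, hdom⟩ := exists_Dom hψ.smooth hψ.cpt
  obtain ⟨M₂, hM₂0, hM₂⟩ := moll_L2B hh hχ₁
  obtain ⟨D, hD0, hD⟩ := test_bound (M := M₂) hρ hκ (show 0 ≤ (ρ + 1) * C by positivity)
    hψ.smooth hψ.cpt hχ₁ hdom
  obtain ⟨M0, hM00, hM0⟩ := mass_bound ρ C h hψ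
  set δ₁ : ℝ := δ / (2 * (D + 1)) with hδ₁
  have hδ₁0 : 0 < δ₁ := by positivity
  have hDδ : D * δ₁ ≤ δ / 2 := by
    have : (D + 1) * δ₁ = δ / 2 := by rw [hδ₁]; field_simp
    nlinarith
  obtain ⟨σ, hσ0, hσ1, hσ⟩ := D_trans hh hv hχ₁ (show 0 < δ₁ ^ 2 by positivity)
  -- choose ε
  set N : ℝ := 6 * C * (κ * M0) with hN
  have hN0 : 0 ≤ N := by positivity
  set E : ℝ := Real.exp (-(ρ * σ)) * σ ^ 2 / 2 with hE
  have hE0 : 0 < E := by positivity
  refine ⟨min σ (E * (δ / 2) / (N + 1)), by positivity, (min_le_left _ _).trans hσ1,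
    fun ε hε hε' => ?_⟩
  have hεσ : ε ≤ σ := hε'.trans (min_le_left _ _)
  have hε1 : ε ≤ 1 := hεσ.trans hσ1
  have hεN : N * ε ≤ E * (δ / 2) := by
    have h1 : ε ≤ E * (δ / 2) / (N + 1) := hε'.trans (min_le_right _ _)
    rw [le_div_iff₀ (by positivity)] at h1
    nlinarith
  set V := moll ε v with hV
  have s := ker_smooth ε
  have c := ker_cpt hε
  have sV : Sm V := moll_smooth hε hv.locInt
  have pV : Per V := moll_per ε hv.perV
  have sP := P_smooth ρ sV
  have pP := P_per ρ pV
  set P : ℝ × ℝ → ℝ := fun z => ρ * V z + dX V z with hP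
  have eDX : dX P = DX ρ V := dX_P ρ sV
  have eDT : dT P = DT ρ V := dT_P ρ sV
  have cL := (Lop_smooth ρ sV).cont
  have cR := RR_cont ρ sV
  have ck := hk.smooth.continuous
  have cDX := (DX_smooth ρ sV).cont
  set G : ℝ × ℝ → ℝ := fun z => ψ z.1 * (k (RR ρ V z) * Lop ρ V z) with hG
  have cG : CX G := hψ.mul_cx (by fun_prop)
  have G0 : ∀ z, 0 ≤ G z := fun z =>
    mul_nonneg (hψ.nonneg _) (mul_nonneg (hk0 _) (Lop_moll_nonneg hv hε z))
  have JG : J G ≤ κ * M0 := by
    have h1 : J G ≤ J (fun z => κ * (ψ z.1 * Lop ρ V z)) := by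
      refine J_mono cG ((hψ.mul_cx cL).const_mul _) fun z => ?_
      have h2 : k (RR ρ V z) ≤ κ := (le_abs_self _).trans (hk.b0 _)
      have h3 : 0 ≤ ψ z.1 * Lop ρ V z := mul_nonneg (hψ.nonneg _) (Lop_moll_nonneg hv hε z)
      have h4 := mul_le_mul_of_nonneg_right h2 h3
      simp only [hG]
      linarith
    rw [J_const_mul] at h1
    exact h1.trans (mul_le_mul_of_nonneg_left (hM0 v hv ε hε) hκ)
  have eG : J (fun z => ψ z.1 * (k (RR ρ V z) * (DX ρ V z * Lop ρ V z)))
      = J (fun z => G z * DX ρ V z) := by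
    congr 1; funext z; simp only [hG]; ring
  rw [eG]
  -- derivative bounds
  obtain ⟨K1, hK1⟩ : ∃ K, ∀ z, |dX V z| ≤ K := ⟨C, moll_dX_le hC hv hε⟩
  obtain ⟨K2, hK2⟩ : ∃ K, ∀ z, |dX (dX V) z| ≤ K := by
    rw [hV, moll_eq, dX_cv hv.locInt s c, dX_cv hv.locInt s.dX (cpt_dX c)]
    exact cv_bdd_of hv.bdd s.dX.dX.cont (cpt_dX (cpt_dX c))
  set Φ : ℝ → ℝ := fun y => J (fun z => G z * shift y V z) with hΦ
  set Φ' : ℝ → ℝ := fun y => J (fun z => G z * shift y (dX V) z) with hΦ'
  set Φ'' : ℝ → ℝ := fun y => J (fun z => G z * shift y (dX (dX V)) z) with hΦ''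
  have d1 : ∀ y, HasDerivAt Φ (Φ' y) y := fun y => J_hasDerivAt_shift cG sV hK1 y
  have d2 : ∀ y, HasDerivAt Φ' (Φ'' y) y := fun y => J_hasDerivAt_shift cG sV.dX hK2 y
  set m : ℝ := J (fun z => G z * DX ρ V z) - δ / 2 with hm
  by_contra hcon
  push Not at hcon
  have hm0 : δ / 2 < m := by rw [hm]; linarith
  have cS : ∀ (W : ℝ × ℝ → ℝ), Continuous W → ∀ y, Continuous (shift y W) := by
    intro W cW y
    exact cW.comp ((continuous_fst.add continuous_const).prodMk continuous_snd)
  have key : ∀ y, |y| ≤ σ → m ≤ ρ * Φ' y + Φ'' y := by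
    intro y hy
    have e1 : ρ * Φ' y + Φ'' y = J (fun z => G z * shift y (DX ρ V) z) := by
      simp only [hΦ', hΦ'']
      rw [← J_const_mul, ← J_add ((cG.mul (cS _ sV.dX.cont y)).const_mul _)
        (cG.mul (cS _ sV.dX.dX.cont y))]
      congr 1; funext z
      simp only [shift, DX]
      ring
    have sZ : Sm (fun z => P z - shift y P z) := sP.sub (sP.shift y)
    have pZ : Per (fun z => P z - shift y P z) := pP.sub (pP.shift y)
    have eZx : dX (fun z => P z - shift y P z) = fun z => DX ρ V z - shift y (DX ρ V) z := by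
      rw [dX_sub sP (sP.shift y), dX_shift sP, eDX]
    have eZt : dT (fun z => P z - shift y P z) = fun z => DT ρ V z - shift y (DT ρ V) z := by
      rw [dT_sub sP (sP.shift y), dT_shift sP, eDT]
    have h1 := hσ ε hε hεσ y hy
    have h2 := hD k hk V sV pV (moll_Bd hh hv hε) (hM₂ v hv ε hε hε1) _ sZ pZ δ₁ hδ₁0.le
      (by
        rw [eZx]
        refine le_trans (le_of_eq ?_) h1.1
        congr 1; funext z; ring)
      (by
        rw [eZt]
        refine le_trans (le_of_eq ?_) h1.2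
        congr 1; funext z; ring)
    rw [eZx] at h2
    have h3 : J (fun z => ψ z.1 * (k (RR ρ V z) * (DX ρ V z - shift y (DX ρ V) z) * Lop ρ V z))
        = J (fun z => G z * DX ρ V z) - J (fun z => G z * shift y (DX ρ V) z) := by
      rw [← J_sub (cG.mul cDX) (cG.mul (cS _ cDX y))]
      congr 1; funext z; simp only [hG]; ring
    rw [h3] at h2
    have h4 := (abs_le.1 h2).2
    rw [e1, hm]
    linarith
  have hA : ∀ y, Φ y - Φ 0 ≤ 6 * C * ε * (κ * M0) := by
    intro y
    have e1 : Φ y - Φ 0 = J (fun z => G z * (shift y V z - shift 0 V z)) := by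
      simp only [hΦ]
      rw [← J_sub (cG.mul (cS _ sV.cont y)) (cG.mul (cS _ sV.cont 0))]
      congr 1; funext z; ring
    rw [e1]
    have h1 : J (fun z => G z * (shift y V z - shift 0 V z)) ≤ J (fun z => 6 * C * ε * G z) := by
      refine J_mono (cG.mul ((cS _ sV.cont y).sub (cS _ sV.cont 0))) (cG.const_mul _) fun z => ?_
      obtain ⟨x, t⟩ := z
      by_cases h0 : Lop ρ V (x, t) = 0
      · have : G (x, t) = 0 := by simp only [hG, h0, mul_zero]
        rw [this]; simp
      · have h2 := moll_sub_le_of_Lop_ne hh hv hε h0 (x + y)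
        have h3 : shift y V (x, t) - shift 0 V (x, t) ≤ 6 * C * ε := by
          simp only [shift, add_zero]
          exact h2
        have := mul_le_mul_of_nonneg_left h3 (G0 (x, t))
        linarith
    rw [J_const_mul] at h1
    exact h1.trans (mul_le_mul_of_nonneg_left JG (by positivity))
  have fin := ode_bound hρ hσ0 (show 0 ≤ m by linarith) d1 d2 key (hA σ) (hA (-σ))
  have e2 : m * Real.exp (-(ρ * σ)) * σ ^ 2 / 2 = m * E := by rw [hE]; ring
  rw [e2] at fin
  have e3 : 6 * C * ε * (κ * M0) = N * ε := by rw [hN]; ring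
  rw [e3] at fin
  have e4 : (δ / 2) * E < m * E := mul_lt_mul_of_pos_right hm0 hE0
  linarith

end cls

end Pool.Agent.Helper42.Fr
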