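import Pool.Agent.Helper42.Fr.Defs

set_option autoImplicit false

open MeasureTheory Filter Topology

namespace Pool.Agent.Helper42.Fr

/-- smooth functions on the plane. -/
abbrev Sm (v : ℝ × ℝ → ℝ) : Prop := ContDiff ℝ (⊤ : ℕ∞) v

lemma Sm.diff {v : ℝ × ℝ → ℝ} (h : Sm v) : Differentiable ℝ v :=
  h.differentiable (by simp)

lemma Sm.cont {v : ℝ × ℝ → ℝ} (h : Sm v) : Continuous v := h.continuous

lemma Sm.fderiv_apply {v : ℝ × ℝ → ℝ} (h : Sm v) (e : ℝ × ℝ) :
    Sm (fun z => fderiv ℝ v z e) := by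
  have h1 : ContDiff ℝ (⊤ : ℕ∞) (fderiv ℝ v) := h.fderiv_right (by simp)
  exact h1.clm_apply contDiff_const

lemma Sm.dX {v : ℝ × ℝ → ℝ} (h : Sm v) : Sm (dX v) := h.fderiv_apply (1, 0)

lemma Sm.dT {v : ℝ × ℝ → ℝ} (h : Sm v) : Sm (dT v) := h.fderiv_apply (0, 1)

lemma Sm.add {v w : ℝ × ℝ → ℝ} (h : Sm v) (h' : Sm w) : Sm (fun z => v z + w z) :=
  ContDiff.add h h'

lemma Sm.sub {v w : ℝ × ℝ → ℝ} (h : Sm v) (h' : Sm w) : Sm (fun z => v z - w z) :=
  ContDiff.sub h h'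

lemma Sm.mul {v w : ℝ × ℝ → ℝ} (h : Sm v) (h' : Sm w) : Sm (fun z => v z * w z) :=
  ContDiff.mul h h'

lemma Sm.const_mul {v : ℝ × ℝ → ℝ} (c : ℝ) (h : Sm v) : Sm (fun z => c * v z) :=
  contDiff_const.mul h

lemma Sm.neg {v : ℝ × ℝ → ℝ} (h : Sm v) : Sm (fun z => - v z) := ContDiff.neg h

lemma Sm.pow {v : ℝ × ℝ → ℝ} (h : Sm v) (n : ℕ) : Sm (fun z => v z ^ n) := ContDiff.pow h n

lemma Sm.of_fst {f : ℝ → ℝ} (h : ContDiff ℝ (⊤ : ℕ∞) f) : Sm (fun z => f z.1) :=
  h.comp contDiff_fst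

lemma Sm.shift {v : ℝ × ℝ → ℝ} (h : Sm v) (X : ℝ) : Sm (shift X v) := by
  have : ContDiff ℝ (⊤ : ℕ∞) (fun z : ℝ × ℝ => ((z.1 + X, z.2) : ℝ × ℝ)) :=
    (contDiff_fst.add contDiff_const).prodMk contDiff_snd
  exact ContDiff.comp (g := v) h this

/-! ### partial derivatives as one-dimensional derivatives -/

lemma hasDerivAt_dX {v : ℝ × ℝ → ℝ} {x t : ℝ} (h : DifferentiableAt ℝ v (x, t)) :
    HasDerivAt (fun y => v (y, t)) (dX v (x, t)) x := by
  have h1 : HasFDerivAt v (fderiv ℝ v (x, t)) (x, t) := h.hasFDerivAt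
  have h2 : HasDerivAt (fun y : ℝ => ((y, t) : ℝ × ℝ)) ((1, 0) : ℝ × ℝ) x :=
    (hasDerivAt_id x).prodMk (hasDerivAt_const x t)
  exact h1.comp_hasDerivAt x h2

lemma hasDerivAt_dT {v : ℝ × ℝ → ℝ} {x t : ℝ} (h : DifferentiableAt ℝ v (x, t)) :
    HasDerivAt (fun s => v (x, s)) (dT v (x, t)) t := by
  have h1 : HasFDerivAt v (fderiv ℝ v (x, t)) (x, t) := h.hasFDerivAt
  have h2 : HasDerivAt (fun s : ℝ => ((x, s) : ℝ × ℝ)) ((0, 1) : ℝ × ℝ) t :=
    (hasDerivAt_const t x).prodMk (hasDerivAt_id t)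
  exact h1.comp_hasDerivAt t h2

lemma Sm.hX {v : ℝ × ℝ → ℝ} (h : Sm v) (x t : ℝ) :
    HasDerivAt (fun y => v (y, t)) (Fr.dX v (x, t)) x := hasDerivAt_dX (h.diff _)

lemma Sm.hT {v : ℝ × ℝ → ℝ} (h : Sm v) (x t : ℝ) :
    HasDerivAt (fun s => v (x, s)) (Fr.dT v (x, t)) t := hasDerivAt_dT (h.diff _)

lemma dX_eq_of_hasDerivAt {v : ℝ × ℝ → ℝ} {x t d : ℝ} (hv : DifferentiableAt ℝ v (x, t))
    (h : HasDerivAt (fun y => v (y, t)) d x) : dX v (x, t) = d :=
  (hasDerivAt_dX hv).unique h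

lemma dT_eq_of_hasDerivAt {v : ℝ × ℝ → ℝ} {x t d : ℝ} (hv : DifferentiableAt ℝ v (x, t))
    (h : HasDerivAt (fun s => v (x, s)) d t) : dT v (x, t) = d :=
  (hasDerivAt_dT hv).unique h

lemma dX_add {v w : ℝ × ℝ → ℝ} (h : Sm v) (h' : Sm w) :
    dX (fun z => v z + w z) = fun z => dX v z + dX w z := by
  funext ⟨x, t⟩
  exact dX_eq_of_hasDerivAt ((h.add h').diff _) ((h.hX x t).add (h'.hX x t))

lemma dX_sub {v w : ℝ × ℝ → ℝ} (h : Sm v) (h' : Sm w) :
    dX (fun z => v z - w z) = fun z => dX v z - dX w z := by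
  funext ⟨x, t⟩
  exact dX_eq_of_hasDerivAt ((h.sub h').diff _) ((h.hX x t).sub (h'.hX x t))

lemma dX_mul {v w : ℝ × ℝ → ℝ} (h : Sm v) (h' : Sm w) :
    dX (fun z => v z * w z) = fun z => dX v z * w z + v z * dX w z := by
  funext ⟨x, t⟩
  exact dX_eq_of_hasDerivAt ((h.mul h').diff _) ((h.hX x t).mul (h'.hX x t))

lemma dX_const_mul {v : ℝ × ℝ → ℝ} (c : ℝ) (h : Sm v) :
    dX (fun z => c * v z) = fun z => c * dX v z := by
  funext ⟨x, t⟩
  exact dX_eq_of_hasDerivAt ((h.const_mul c).diff _) ((h.hX x t).const_mul c)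

lemma dT_add {v w : ℝ × ℝ → ℝ} (h : Sm v) (h' : Sm w) :
    dT (fun z => v z + w z) = fun z => dT v z + dT w z := by
  funext ⟨x, t⟩
  exact dT_eq_of_hasDerivAt ((h.add h').diff _) ((h.hT x t).add (h'.hT x t))

lemma dT_sub {v w : ℝ × ℝ → ℝ} (h : Sm v) (h' : Sm w) :
    dT (fun z => v z - w z) = fun z => dT v z - dT w z := by
  funext ⟨x, t⟩
  exact dT_eq_of_hasDerivAt ((h.sub h').diff _) ((h.hT x t).sub (h'.hT x t))

lemma dT_mul {v w : ℝ × ℝ → ℝ} (h : Sm v) (h' : Sm w) :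
    dT (fun z => v z * w z) = fun z => dT v z * w z + v z * dT w z := by
  funext ⟨x, t⟩
  exact dT_eq_of_hasDerivAt ((h.mul h').diff _) ((h.hT x t).mul (h'.hT x t))

lemma dT_const_mul {v : ℝ × ℝ → ℝ} (c : ℝ) (h : Sm v) :
    dT (fun z => c * v z) = fun z => c * dT v z := by
  funext ⟨x, t⟩
  exact dT_eq_of_hasDerivAt ((h.const_mul c).diff _) ((h.hT x t).const_mul c)

lemma dX_of_fst {f : ℝ → ℝ} (h : ContDiff ℝ (⊤ : ℕ∞) f) :
    dX (fun z => f z.1) = fun z => deriv f z.1 := by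
  funext ⟨x, t⟩
  exact dX_eq_of_hasDerivAt ((Sm.of_fst h).diff _)
    (h.differentiable (by simp) x).hasDerivAt

lemma dT_of_fst {f : ℝ → ℝ} (h : ContDiff ℝ (⊤ : ℕ∞) f) :
    dT (fun z => f z.1) = fun _ => 0 := by
  funext ⟨x, t⟩
  exact dT_eq_of_hasDerivAt ((Sm.of_fst h).diff _) (hasDerivAt_const t (f x))

lemma dX_shift {v : ℝ × ℝ → ℝ} (h : Sm v) (X : ℝ) : dX (shift X v) = shift X (dX v) := by
  funext ⟨x, t⟩
  refine dX_eq_of_hasDerivAt ((h.shift X).diff _) ?_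
  have := (h.hX (x + X) t).comp_add_const x X
  exact this

lemma dT_shift {v : ℝ × ℝ → ℝ} (h : Sm v) (X : ℝ) : dT (shift X v) = shift X (dT v) := by
  funext ⟨x, t⟩
  exact dT_eq_of_hasDerivAt ((h.shift X).diff _) (h.hT (x + X) t)

lemma dT_dX_comm {v : ℝ × ℝ → ℝ} (h : Sm v) : dT (dX v) = dX (dT v) := by
  funext z
  have h1 : ContDiff ℝ (⊤ : ℕ∞) (fderiv ℝ v) := h.fderiv_right (by simp)
  have h2 : DifferentiableAt ℝ (fderiv ℝ v) z := h1.differentiable (by simp) z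
  have hs : IsSymmSndFDerivAt ℝ v z := by
    apply (h.contDiffAt).isSymmSndFDerivAt
    simp only [minSmoothness_of_isRCLikeNormedField]
    exact WithTop.coe_le_coe.2 le_top
  have e1 : dT (dX v) z = fderiv ℝ (fderiv ℝ v) z (0, 1) (1, 0) := by
    unfold dT dX
    rw [fderiv_clm_apply h2 (differentiableAt_const _)]
    simp
  have e2 : dX (dT v) z = fderiv ℝ (fderiv ℝ v) z (1, 0) (0, 1) := by
    unfold dT dX
    rw [fderiv_clm_apply h2 (differentiableAt_const _)]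
    simp
  rw [e1, e2]
  exact hs _ _

/-- periodicity in the second variable. -/
def Per (v : ℝ × ℝ → ℝ) : Prop := ∀ x t, v (x, t + 2 * Real.pi) = v (x, t)

lemma Per.fderiv {v : ℝ × ℝ → ℝ} (h : Per v) (x t : ℝ) :
    fderiv ℝ v (x, t + 2 * Real.pi) = fderiv ℝ v (x, t) := by
  have : v = fun z => v (z + (0, 2 * Real.pi)) := by
    funext ⟨a, b⟩
    simp [h a b]
  conv_rhs => rw [this]
  rw [fderiv_comp_add_right]
  simp

lemma Per.dX {v : ℝ × ℝ → ℝ} (h : Per v) : Per (dX v) := fun x t => by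
  unfold Fr.dX; rw [h.fderiv]

lemma Per.dT {v : ℝ × ℝ → ℝ} (h : Per v) : Per (dT v) := fun x t => by
  unfold Fr.dT; rw [h.fderiv]

lemma Per.shift {v : ℝ × ℝ → ℝ} (h : Per v) (X : ℝ) : Per (shift X v) := fun _ _ => h _ _

lemma Per.add {v w : ℝ × ℝ → ℝ} (h : Per v) (h' : Per w) : Per (fun z => v z + w z) :=
  fun x t => by simp only [h x t, h' x t]

lemma Per.sub {v w : ℝ × ℝ → ℝ} (h : Per v) (h' : Per w) : Per (fun z => v z - w z) :=
  fun x t => by simp only [h x t, h' x t]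

lemma Per.mul {v w : ℝ × ℝ → ℝ} (h : Per v) (h' : Per w) : Per (fun z => v z * w z) :=
  fun x t => by simp only [h x t, h' x t]

lemma Per.const_mul {v : ℝ × ℝ → ℝ} (c : ℝ) (h : Per v) : Per (fun z => c * v z) :=
  fun x t => by simp only [h x t]

lemma Per.of_fst (f : ℝ → ℝ) : Per (fun z => f z.1) := fun _ _ => rfl

/-! ### integration over the strip of one period -/

/-- the measure of the strip. -/
noncomputable def mu2 : Measure (ℝ × ℝ) :=
  (volume : Measure ℝ).prod ((volume : Measure ℝ).restrict (Set.Ioc 0 (2 * Real.pi)))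

/-- compact support in the first variable. -/
def XS (F : ℝ × ℝ → ℝ) : Prop := ∃ R : ℝ, ∀ x t, R < |x| → F (x, t) = 0

/-- continuous and compactly supported in the first variable. -/
structure CX (F : ℝ × ℝ → ℝ) : Prop where
  cont : Continuous F
  xs : XS F

lemma XS.add {F G : ℝ × ℝ → ℝ} (h : XS F) (h' : XS G) : XS (fun z => F z + G z) := by
  obtain ⟨R, hR⟩ := h
  obtain ⟨S, hS⟩ := h'
  refine ⟨max R S, fun x t hx => ?_⟩
  simp [hR x t (lt_of_le_of_lt (le_max_left _ _) hx), hS x t (lt_of_le_of_lt (le_max_right _ _) hx)]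

lemma XS.mul_left {F : ℝ × ℝ → ℝ} (h : XS F) (G : ℝ × ℝ → ℝ) : XS (fun z => F z * G z) := by
  obtain ⟨R, hR⟩ := h
  exact ⟨R, fun x t hx => by simp [hR x t hx]⟩

lemma XS.mul_right {F : ℝ × ℝ → ℝ} (h : XS F) (G : ℝ × ℝ → ℝ) : XS (fun z => G z * F z) := by
  obtain ⟨R, hR⟩ := h
  exact ⟨R, fun x t hx => by simp [hR x t hx]⟩

lemma XS.of_fst {f : ℝ → ℝ} (h : HasCompactSupport f) : XS (fun z => f z.1) := by
  obtain ⟨R, hR⟩ := h.isBounded.subset_closedBall (0 : ℝ)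
  refine ⟨R, fun x t hx => ?_⟩
  by_contra hne
  have : x ∈ tsupport f := subset_tsupport _ hne
  have := hR this
  simp at this
  linarith

lemma CX.add {F G : ℝ × ℝ → ℝ} (h : CX F) (h' : CX G) : CX (fun z => F z + G z) :=
  ⟨h.cont.add h'.cont, h.xs.add h'.xs⟩

lemma CX.neg {F : ℝ × ℝ → ℝ} (h : CX F) : CX (fun z => - F z) := by
  refine ⟨h.cont.neg, ?_⟩
  obtain ⟨R, hR⟩ := h.xs
  exact ⟨R, fun x t hx => by simp [hR x t hx]⟩

lemma CX.sub {F G : ℝ × ℝ → ℝ} (h : CX F) (h' : CX G) : CX (fun z => F z - G z) := by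
  simpa [sub_eq_add_neg] using h.add h'.neg

lemma CX.mul {F G : ℝ × ℝ → ℝ} (h : CX F) (h' : Continuous G) : CX (fun z => F z * G z) :=
  ⟨h.cont.mul h', h.xs.mul_left G⟩

lemma CX.const_mul {F : ℝ × ℝ → ℝ} (c : ℝ) (h : CX F) : CX (fun z => c * F z) :=
  ⟨continuous_const.mul h.cont, h.xs.mul_right _⟩

lemma CX.of_fst {f : ℝ → ℝ} (h : HasCompactSupport f) (hc : Continuous f) :
    CX (fun z => f z.1) := ⟨hc.comp continuous_fst, XS.of_fst h⟩

lemma mu2_eq : mu2 = (volume : Measure (ℝ × ℝ)).restrict (Set.univ ×ˢ Set.Ioc 0 (2 * Real.pi)) := by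
  unfold mu2
  rw [Measure.volume_eq_prod, ← Measure.prod_restrict, Measure.restrict_univ]

lemma mu2_ae : ∀ᵐ z ∂mu2, z.2 ∈ Set.Ioc (0 : ℝ) (2 * Real.pi) := by
  rw [mu2_eq]
  filter_upwards [ae_restrict_mem (MeasurableSet.univ.prod measurableSet_Ioc)] with z hz
  exact hz.2

instance : SFinite mu2 := by unfold mu2; infer_instance

instance : IsLocallyFiniteMeasure mu2 := by
  rw [mu2_eq]; infer_instance

lemma CX.integrable {F : ℝ × ℝ → ℝ} (h : CX F) : Integrable F mu2 := by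
  obtain ⟨R, hR⟩ := h.xs
  have hK : IsCompact (Set.Icc (-R) R ×ˢ Set.Icc (0 : ℝ) (2 * Real.pi)) :=
    isCompact_Icc.prod isCompact_Icc
  have h1 : IntegrableOn F (Set.Icc (-R) R ×ˢ Set.Icc (0 : ℝ) (2 * Real.pi)) mu2 :=
    h.cont.continuousOn.integrableOn_compact hK
  refine h1.integrable_of_ae_notMem_eq_zero ?_
  filter_upwards [mu2_ae] with z hz hzn
  have : R < |z.1| := by
    by_contra hcon
    push Not at hcon
    exact hzn ⟨abs_le.1 hcon, Set.Ioc_subset_Icc_self hz⟩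
  exact hR z.1 z.2 this

/-- integral over the strip. -/
noncomputable def J (F : ℝ × ℝ → ℝ) : ℝ := ∫ z, F z ∂mu2

lemma J_add {F G : ℝ × ℝ → ℝ} (h : CX F) (h' : CX G) : J (fun z => F z + G z) = J F + J G :=
  integral_add h.integrable h'.integrable

lemma J_sub {F G : ℝ × ℝ → ℝ} (h : CX F) (h' : CX G) : J (fun z => F z - G z) = J F - J G :=
  integral_sub h.integrable h'.integrable

lemma J_const_mul (c : ℝ) (F : ℝ × ℝ → ℝ) : J (fun z => c * F z) = c * J F :=
  integral_const_mul c F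

lemma J_neg (F : ℝ × ℝ → ℝ) : J (fun z => - F z) = - J F := integral_neg F

lemma J_mono {F G : ℝ × ℝ → ℝ} (h : CX F) (h' : CX G) (hle : ∀ z, F z ≤ G z) : J F ≤ J G :=
  integral_mono h.integrable h'.integrable hle

lemma J_nonneg {F : ℝ × ℝ → ℝ} (hle : ∀ z, 0 ≤ F z) : 0 ≤ J F :=
  integral_nonneg hle

lemma J_abs {F G : ℝ × ℝ → ℝ} (h' : CX G) (hle : ∀ z, |F z| ≤ G z) : |J F| ≤ J G := by
  unfold J
  have h := norm_integral_le_of_norm_le (μ := mu2) h'.integrable (f := F)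
    (Eventually.of_forall fun z => by rw [Real.norm_eq_abs]; exact hle z)
  rwa [Real.norm_eq_abs] at h

lemma J_eq {F : ℝ × ℝ → ℝ} (h : CX F) : J F = ∫ x, ∫ t in (0 : ℝ)..(2 * Real.pi), F (x, t) := by
  unfold J mu2
  have := h.integrable
  unfold mu2 at this
  rw [integral_prod _ this]
  congr 1
  funext x
  rw [intervalIntegral.integral_of_le (by positivity)]

lemma J_eq' {F : ℝ × ℝ → ℝ} (h : CX F) : J F = ∫ t in (0 : ℝ)..(2 * Real.pi), ∫ x, F (x, t) := by
  unfold J mu2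
  have := h.integrable
  unfold mu2 at this
  rw [integral_prod_symm _ this, intervalIntegral.integral_of_le (by positivity)]

/-- integration by parts, first variable. -/
lemma J_dX {F F' : ℝ × ℝ → ℝ} (hF : XS F) (hd : ∀ x t, HasDerivAt (fun y => F (y, t)) (F' (x, t)) x)
    (hc : Continuous F') : CX F' ∧ J F' = 0 := by
  obtain ⟨R, hR⟩ := hF
  have hz : ∀ x t, R < |x| → F' (x, t) = 0 := by
    intro x t hx
    have h1 : HasDerivAt (fun y => F (y, t)) 0 x := by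
      have : (fun y => F (y, t)) =ᶠ[𝓝 x] fun _ => 0 := by
        have ho : IsOpen {y : ℝ | R < |y|} := isOpen_lt continuous_const continuous_abs
        filter_upwards [ho.mem_nhds hx] with y hy
        exact hR y t hy
      exact (hasDerivAt_const x (0 : ℝ)).congr_of_eventuallyEq this
    exact (hd x t).unique h1
  have hCX : CX F' := ⟨hc, ⟨R, hz⟩⟩
  refine ⟨hCX, ?_⟩
  rw [J_eq' hCX]
  have : ∀ t, ∫ x, F' (x, t) = 0 := by
    intro t
    have hcs : ∀ G : ℝ → ℝ, (∀ x, R < |x| → G x = 0) → HasCompactSupport G := by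
      intro G hG
      refine HasCompactSupport.of_support_subset_isCompact (isCompact_Icc (a := -R) (b := R)) ?_
      intro x hx
      by_contra hcon
      apply hx
      apply hG
      by_contra h2
      push Not at h2
      exact hcon (abs_le.1 h2)
    have hI : Integrable (fun x => F' (x, t)) :=
      (hc.comp (continuous_id.prodMk continuous_const)).integrable_of_hasCompactSupport
        (hcs _ fun x hx => hz x t hx)
    have hFc : Continuous (fun x => F (x, t)) := by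
      rw [continuous_iff_continuousAt]
      intro x
      exact (hd x t).continuousAt
    have hI2 : Integrable (fun x => F (x, t)) :=
      hFc.integrable_of_hasCompactSupport (hcs _ fun x hx => hR x t hx)
    exact integral_eq_zero_of_hasDerivAt_of_integrable (fun x => hd x t) hI hI2
  simp [this]

/-- integration by parts, second variable. -/
lemma J_dT {F F' : ℝ × ℝ → ℝ} (hF : XS F) (hP : Per F)
    (hd : ∀ x t, HasDerivAt (fun s => F (x, s)) (F' (x, t)) t)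
    (hc : Continuous F') : CX F' ∧ J F' = 0 := by
  obtain ⟨R, hR⟩ := hF
  have hz : ∀ x t, R < |x| → F' (x, t) = 0 := by
    intro x t hx
    have h1 : HasDerivAt (fun s => F (x, s)) 0 t := by
      have : (fun s => F (x, s)) = fun _ => 0 := by
        funext s
        exact hR x s hx
      rw [this]
      exact hasDerivAt_const t (0 : ℝ)
    exact (hd x t).unique h1
  have hCX : CX F' := ⟨hc, ⟨R, hz⟩⟩
  refine ⟨hCX, ?_⟩
  rw [J_eq hCX]
  have : ∀ x, ∫ t in (0 : ℝ)..(2 * Real.pi), F' (x, t) = 0 := by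
    intro x
    rw [intervalIntegral.integral_eq_sub_of_hasDerivAt (fun t _ => hd x t)
      ((hc.comp (continuous_const.prodMk continuous_id)).intervalIntegrable _ _)]
    have := hP x 0
    simp only [zero_add] at this
    rw [this]; ring
  simp [this]

lemma J_shift {F : ℝ × ℝ → ℝ} (h : CX F) (X : ℝ) : J (fun z => F (z.1 + X, z.2)) = J F := by
  have h' : CX (fun z => F (z.1 + X, z.2)) := by
    refine ⟨h.cont.comp ((continuous_fst.add continuous_const).prodMk continuous_snd), ?_⟩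
    obtain ⟨R, hR⟩ := h.xs
    refine ⟨R + |X|, fun x t hx => hR _ _ ?_⟩
    have := abs_sub_abs_le_abs_sub x (-X)
    simp only [abs_neg, sub_neg_eq_add] at this
    linarith
  rw [J_eq' h', J_eq' h]
  congr 1
  funext t
  exact integral_add_right_eq_self (fun x => F (x, t)) X

lemma J_shiftT {F : ℝ × ℝ → ℝ} (h : CX F) (hP : Per F) (s : ℝ) :
    J (fun z => F (z.1, z.2 + s)) = J F := by
  have h' : CX (fun z => F (z.1, z.2 + s)) := by
    refine ⟨h.cont.comp (continuous_fst.prodMk (continuous_snd.add continuous_const)), ?_⟩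
    obtain ⟨R, hR⟩ := h.xs
    exact ⟨R, fun x t hx => hR _ _ hx⟩
  rw [J_eq h', J_eq h]
  congr 1
  funext x
  have hp : Function.Periodic (fun t => F (x, t)) (2 * Real.pi) := fun t => hP x t
  rw [intervalIntegral.integral_comp_add_right (fun t => F (x, t)) s]
  have := hp.intervalIntegral_add_eq (0 + s) 0
  simpa [add_comm] using this

end Pool.Agent.Helper42.Fr
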