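import Pool.Agent.Helper42.Fr.Energy2

set_option autoImplicit false

open MeasureTheory Filter Topology

namespace Pool.Agent.Helper42.Fr

lemma fubini_int {F : (ℝ × ℝ) → (ℝ × ℝ) → ℝ} (hF : Continuous (Function.uncurry F)) {R : ℝ}
    {K : Set (ℝ × ℝ)} (hK : IsCompact K) (h1 : ∀ z w, R < |z.1| → F z w = 0)
    (h2 : ∀ z w, w ∉ K → F z w = 0) :
    Integrable (Function.uncurry F) (mu2.prod (volume : Measure (ℝ × ℝ))) := by
  have hS : IsCompact ((Set.Icc (-R) R ×ˢ Set.Icc (0 : ℝ) (2 * Real.pi)) ×ˢ K) :=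
    (isCompact_Icc.prod isCompact_Icc).prod hK
  have h3 : IntegrableOn (Function.uncurry F)
      ((Set.Icc (-R) R ×ˢ Set.Icc (0 : ℝ) (2 * Real.pi)) ×ˢ K)
      (mu2.prod (volume : Measure (ℝ × ℝ))) := hF.continuousOn.integrableOn_compact hS
  refine h3.integrable_of_ae_notMem_eq_zero ?_
  have h4 : ∀ᵐ p ∂(mu2.prod (volume : Measure (ℝ × ℝ))), p.1.2 ∈ Set.Ioc (0 : ℝ) (2 * Real.pi) :=
    Measure.quasiMeasurePreserving_fst.ae mu2_ae
  filter_upwards [h4] with p hp hpn
  obtain ⟨z, w⟩ := p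
  show F z w = 0
  by_cases hw : w ∈ K
  · apply h1
    by_contra hcon
    push Not at hcon
    exact hpn ⟨⟨abs_le.1 hcon, Set.Ioc_subset_Icc_self hp⟩, hw⟩
  · exact h2 z w hw

/-- mollification is an L2 contraction, with windows. -/
lemma J_cv_sq {χ χ₂ : ℝ → ℝ} (hχ : IsCut χ) (hχ₂ : IsCut χ₂) {η : ℝ}
    (hdom : ∀ x y, |y| ≤ η → χ (x + y) ≤ χ₂ x) {f g : ℝ × ℝ → ℝ} (hf : Continuous f) (hp : Per f)
    (hg : Continuous g) (hg0 : ∀ w, 0 ≤ g w) (hgc : HasCompactSupport g) (hg1 : ∫ w, g w = 1)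
    (hgs : ∀ w, g w ≠ 0 → |w.1| ≤ η) :
    J (fun z => χ z.1 * cv f g z ^ 2) ≤ J (fun z => χ₂ z.1 * f z ^ 2) := by
  have gi : Integrable g := hg.integrable_of_hasCompactSupport hgc
  have cf2 : Continuous fun z => f z ^ 2 := hf.pow 2
  have cχ := hχ.smooth.continuous
  have lf : LocallyIntegrable f := hf.locallyIntegrable
  have lf2 : LocallyIntegrable (fun z => f z ^ 2) := cf2.locallyIntegrable
  have ccv : Continuous (cv f g) := by
    rw [cv_eq_conv]
    exact hgc.continuous_convolution_right _ lf hg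
  have ccv2 : Continuous (cv (fun z => f z ^ 2) g) := by
    rw [cv_eq_conv]
    exact hgc.continuous_convolution_right _ lf2 hg
  -- Jensen
  have jensen : ∀ z, cv f g z ^ 2 ≤ cv (fun z => f z ^ 2) g z := by
    intro z
    set a := cv f g z with ha
    have i1 : Integrable (fun w => f (z - w) ^ 2 * g w) := cv_integrand' lf2 hg hgc z
    have i2 : Integrable (fun w => f (z - w) * g w) := cv_integrand' lf hg hgc z
    have h0 : 0 ≤ ∫ w, (f (z - w) - a) ^ 2 * g w :=
      integral_nonneg fun w => mul_nonneg (sq_nonneg _) (hg0 w)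
    have e : ∫ w, (f (z - w) - a) ^ 2 * g w
        = cv (fun z => f z ^ 2) g z - 2 * a * cv f g z + a ^ 2 := by
      have e1 : (fun w => (f (z - w) - a) ^ 2 * g w)
          = fun w => (f (z - w) ^ 2 * g w - 2 * a * (f (z - w) * g w)) + a ^ 2 * g w := by
        funext w; ring
      have j1 : Integrable (fun w => f (z - w) ^ 2 * g w - 2 * a * (f (z - w) * g w)) :=
        i1.sub (i2.const_mul _)
      rw [e1, integral_add j1 (gi.const_mul _),
        integral_sub i1 (i2.const_mul _), integral_const_mul, integral_const_mul, hg1,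
        ← cv_swap f g, ← cv_swap (fun z => f z ^ 2) g, mul_one]
    rw [e] at h0
    rw [← ha] at h0
    nlinarith
  have step1 : J (fun z => χ z.1 * cv f g z ^ 2)
      ≤ J (fun z => χ z.1 * cv (fun z => f z ^ 2) g z) := by
    refine J_mono (hχ.mul_cx (ccv.pow 2)) (hχ.mul_cx ccv2) fun z => ?_
    exact mul_le_mul_of_nonneg_left (jensen z) (hχ.nonneg _)
  refine step1.trans ?_
  -- Fubini
  have e1 : J (fun z => χ z.1 * cv (fun z => f z ^ 2) g z)
      = ∫ z, ∫ w, χ z.1 * (f (z - w) ^ 2 * g w) ∂volume ∂mu2 := by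
    unfold J
    congr 1; funext z
    show χ z.1 * cv (fun z => f z ^ 2) g z = _
    rw [cv_swap, integral_const_mul]
  have hcont : Continuous (Function.uncurry fun z w : ℝ × ℝ => χ z.1 * (f (z - w) ^ 2 * g w)) := by
    have : Continuous fun p : (ℝ × ℝ) × (ℝ × ℝ) => χ p.1.1 * (f (p.1 - p.2) ^ 2 * g p.2) := by
      fun_prop
    exact this
  obtain ⟨R, hR⟩ := hχ.cx.xs
  rw [e1, integral_integral_swap (fubini_int hcont (K := tsupport g) hgc (R := R)
    (fun z w hz => by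
      have := hR z.1 z.2 hz
      simp only at this
      rw [this, zero_mul])
    (fun z w hw => by rw [image_eq_zero_of_notMem_tsupport hw]; ring))]
  set B := J (fun z => χ₂ z.1 * f z ^ 2) with hB
  have hB' : B = ∫ w, B * g w := by rw [integral_const_mul, hg1, mul_one]
  rw [hB']
  have e2 : ∀ w, ∫ z, χ z.1 * (f (z - w) ^ 2 * g w) ∂mu2
      = J (fun z => χ (z.1 + w.1) * f z ^ 2) * g w := by
    intro w
    have e3 : (fun z : ℝ × ℝ => χ z.1 * (f (z - w) ^ 2 * g w))
        = fun z => χ z.1 * f (z - w) ^ 2 * g w := by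
      funext z; ring
    rw [e3, integral_mul_const]
    congr 1
    have h5 : CX (fun z : ℝ × ℝ => χ (z.1 + w.1) * f (z.1, z.2 - w.2) ^ 2) := by
      have h6 : CX (shift w.1 fun z => χ z.1) := hχ.cx.shift w.1
      exact h6.mul ((hf.comp (continuous_fst.prodMk (continuous_snd.sub continuous_const))).pow 2)
    have h7 : J (fun z => χ z.1 * f (z - w) ^ 2)
        = J (fun z => χ (z.1 + w.1) * f (z.1, z.2 - w.2) ^ 2) := by
      rw [← J_shift h5 (-w.1)]
      congr 1; funext z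
      simp only [neg_add_cancel_right]
      have : z - w = (z.1 + -w.1, z.2 - w.2) := by
        ext
        · simp [sub_eq_add_neg]
        · simp
      rw [this]
    have h8 : CX (fun z : ℝ × ℝ => χ (z.1 + w.1) * f z ^ 2) := by
      have h6 : CX (shift w.1 fun z => χ z.1) := hχ.cx.shift w.1
      exact h6.mul cf2
    have h9 : Per (fun z : ℝ × ℝ => χ (z.1 + w.1) * f z ^ 2) := by
      intro x t
      simp only [hp x t]
    have h10 := J_shiftT h8 h9 (-w.2)
    show J (fun z => χ z.1 * f (z - w) ^ 2) = _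
    rw [h7, ← h10]
    simp only [sub_eq_add_neg]
  apply integral_mono_of_nonneg
  · refine Eventually.of_forall fun w => ?_
    show 0 ≤ ∫ z, χ z.1 * (f (z - w) ^ 2 * g w) ∂mu2
    exact integral_nonneg fun z => mul_nonneg (hχ.nonneg _) (mul_nonneg (sq_nonneg _) (hg0 w))
  · exact gi.const_mul _
  · refine Eventually.of_forall fun w => ?_
    show ∫ z, χ z.1 * (f (z - w) ^ 2 * g w) ∂mu2 ≤ B * g w
    rw [e2 w]
    by_cases hw : g w = 0
    · simp [hw]
    · apply mul_le_mul_of_nonneg_right _ (hg0 w)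
      have h6 : CX (shift w.1 fun z => χ z.1) := hχ.cx.shift w.1
      refine J_mono (h6.mul cf2) (hχ₂.mul_cx cf2) fun z => ?_
      exact mul_le_mul_of_nonneg_right (hdom _ _ (hgs w hw)) (sq_nonneg _)

lemma J_moll_sq {χ χ₂ : ℝ → ℝ} (hχ : IsCut χ) (hχ₂ : IsCut χ₂) {η : ℝ} (hη : 0 < η)
    (hdom : ∀ x y, |y| ≤ η → χ (x + y) ≤ χ₂ x) {f : ℝ × ℝ → ℝ} (hf : Continuous f) (hp : Per f) :
    J (fun z => χ z.1 * moll η f z ^ 2) ≤ J (fun z => χ₂ z.1 * f z ^ 2) := by
  refine J_cv_sq hχ hχ₂ hdom hf hp (ker_smooth η).continuous (ker_nonneg hη) (ker_cpt hη)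
    (ker_int hη) ?_
  intro w hw
  by_contra hcon
  push Not at hcon
  exact hw (ker_zero hη (Or.inl hcon))

/-- derivative can be moved between the kernels. -/
lemma moll_dX_moll {v : ℝ × ℝ → ℝ} {C : ℝ} (hv : Continuous v) (hb : ∀ z, |v z| ≤ C) {ε ε' : ℝ}
    (hε : 0 < ε) (hε' : 0 < ε') (z : ℝ × ℝ) :
    moll ε (dX (moll ε' v)) z = cv (moll ε' v) (dX (ker ε)) z := by
  have lv := hv.locallyIntegrable (μ := (volume : Measure (ℝ × ℝ)))
  have s := ker_smooth ε
  have s' := ker_smooth ε'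
  have c := ker_cpt hε
  have c' := ker_cpt hε'
  have l1 : LocallyIntegrable (moll ε v) := (moll_smooth hε lv).cont.locallyIntegrable
  have l2 : LocallyIntegrable (moll ε' v) := (moll_smooth hε' lv).cont.locallyIntegrable
  calc moll ε (dX (moll ε' v)) z = cv (cv v (dX (ker ε'))) (ker ε) z := by
        rw [moll_eq, moll_eq, dX_cv lv s' c']
    _ = cv (cv v (ker ε)) (dX (ker ε')) z :=
        cv_comm hv hb s'.dX.cont (cpt_dX c') s.cont c z
    _ = dX (cv (cv v (ker ε)) (ker ε')) z := by rw [dX_cv (f := cv v (ker ε)) l1 s' c']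
    _ = dX (cv (cv v (ker ε')) (ker ε)) z := by
        congr 1; funext w
        exact cv_comm hv hb s.cont c s'.cont c' w
    _ = _ := by rw [dX_cv (f := cv v (ker ε')) l2 s c]; rfl

lemma moll_dT_moll {v : ℝ × ℝ → ℝ} {C : ℝ} (hv : Continuous v) (hb : ∀ z, |v z| ≤ C) {ε ε' : ℝ}
    (hε : 0 < ε) (hε' : 0 < ε') (z : ℝ × ℝ) :
    moll ε (dT (moll ε' v)) z = cv (moll ε' v) (dT (ker ε)) z := by
  have lv := hv.locallyIntegrable (μ := (volume : Measure (ℝ × ℝ)))
  have s := ker_smooth ε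
  have s' := ker_smooth ε'
  have c := ker_cpt hε
  have c' := ker_cpt hε'
  have l1 : LocallyIntegrable (moll ε v) := (moll_smooth hε lv).cont.locallyIntegrable
  have l2 : LocallyIntegrable (moll ε' v) := (moll_smooth hε' lv).cont.locallyIntegrable
  calc moll ε (dT (moll ε' v)) z = cv (cv v (dT (ker ε'))) (ker ε) z := by
        rw [moll_eq, moll_eq, dT_cv lv s' c']
    _ = cv (cv v (ker ε)) (dT (ker ε')) z :=
        cv_comm hv hb s'.dT.cont (cpt_dT c') s.cont c z
    _ = dT (cv (cv v (ker ε)) (ker ε')) z := by rw [dT_cv (f := cv v (ker ε)) l1 s' c']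
    _ = dT (cv (cv v (ker ε')) (ker ε)) z := by
        congr 1; funext w
        exact cv_comm hv hb s.cont c s'.cont c' w
    _ = _ := by rw [dT_cv (f := cv v (ker ε')) l2 s c]; rfl

section cls

variable {ρ C : ℝ} {h : ℝ → ℝ}

lemma abs_int_dX_ker (ε : ℝ) : 0 ≤ ∫ w, |dX (ker ε) w| := integral_nonneg fun _ => abs_nonneg _

lemma abs_int_dT_ker (ε : ℝ) : 0 ≤ ∫ w, |dT (ker ε) w| := integral_nonneg fun _ => abs_nonneg _

lemma close_dX (hC : 0 ≤ C) {v : ℝ × ℝ → ℝ} (hv : InC ρ C h v) {ε ε' : ℝ}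
    (hε : 0 < ε) (hε' : 0 < ε') (z : ℝ × ℝ) :
    |dX (moll ε v) z - moll ε (dX (moll ε' v)) z| ≤ 2 * C * ε' * ∫ w, |dX (ker ε) w| := by
  have s := ker_smooth ε
  have c := ker_cpt hε
  rw [moll_dX_moll hv.cont hv.bdd hε hε', moll_eq ε v, dX_cv hv.locInt s c,
    ← cv_sub_left hv.locInt (moll_smooth hε' hv.locInt).cont.locallyIntegrable s.dX.cont (cpt_dX c)]
  apply cv_bound
  · intro w
    rw [abs_sub_comm]
    exact moll_close hC hv hε' w
  · exact s.dX.cont.integrable_of_hasCompactSupport (cpt_dX c)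

lemma close_dT (hC : 0 ≤ C) {v : ℝ × ℝ → ℝ} (hv : InC ρ C h v) {ε ε' : ℝ}
    (hε : 0 < ε) (hε' : 0 < ε') (z : ℝ × ℝ) :
    |dT (moll ε v) z - moll ε (dT (moll ε' v)) z| ≤ 2 * C * ε' * ∫ w, |dT (ker ε) w| := by
  have s := ker_smooth ε
  have c := ker_cpt hε
  rw [moll_dT_moll hv.cont hv.bdd hε hε', moll_eq ε v, dT_cv hv.locInt s c,
    ← cv_sub_left hv.locInt (moll_smooth hε' hv.locInt).cont.locallyIntegrable s.dT.cont (cpt_dT c)]
  apply cv_bound
  · intro w
    rw [abs_sub_comm]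
    exact moll_close hC hv hε' w
  · exact s.dT.cont.integrable_of_hasCompactSupport (cpt_dT c)

end cls

end Pool.Agent.Helper42.Fr
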