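import Pool.Agent.Helper42.Fr.Cls

set_option autoImplicit false

open MeasureTheory Filter Topology

namespace Pool.Agent.Helper42.Fr

/-- cutoffs. -/
structure IsCut (χ : ℝ → ℝ) : Prop where
  smooth : ContDiff ℝ (⊤ : ℕ∞) χ
  cpt : HasCompactSupport χ
  nonneg : ∀ x, 0 ≤ χ x

lemma smooth_deriv {f : ℝ → ℝ} (h : ContDiff ℝ (⊤ : ℕ∞) f) : ContDiff ℝ (⊤ : ℕ∞) (deriv f) := by
  have h1 : ContDiff ℝ ((⊤ : ℕ∞) + 1 : WithTop ℕ∞) f := by simpa using h
  exact (contDiff_succ_iff_deriv.1 h1).2.2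

lemma hasDerivAt_of_smooth {f : ℝ → ℝ} (h : ContDiff ℝ (⊤ : ℕ∞) f) (x : ℝ) :
    HasDerivAt f (deriv f x) x := (h.differentiable (by simp) x).hasDerivAt

/-- a dominating cutoff. -/
lemma exists_dom {f : ℝ → ℝ} (hf : Continuous f) (hc : HasCompactSupport f) :
    ∃ χ₁ : ℝ → ℝ, IsCut χ₁ ∧ ∀ x y, |y| ≤ 1 → |f (x + y)| ≤ χ₁ x := by
  obtain ⟨R, hR⟩ := hc.isBounded.subset_closedBall (0 : ℝ)
  obtain ⟨M, hM⟩ := hf.bounded_above_of_compact_support hc
  have hM0 : 0 ≤ M := (norm_nonneg _).trans (hM 0)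
  set R' : ℝ := |R| + 1 with hR'
  have hR'0 : 0 < R' := by positivity
  let b : ContDiffBump (0 : ℝ) := ⟨R', R' + 1, hR'0, by linarith⟩
  refine ⟨fun x => M * b x, ⟨contDiff_const.mul b.contDiff, ?_, fun x => mul_nonneg hM0 b.nonneg⟩, ?_⟩
  · exact b.hasCompactSupport.mul_left
  · intro x y hy
    by_cases hx : |x + y| ≤ |R|
    · have : b x = 1 := by
        apply b.one_of_mem_closedBall
        rw [mem_closedBall_zero_iff, Real.norm_eq_abs]
        show |x| ≤ R'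
        have h1 : |x| ≤ |x + y| + |y| := by
          have := abs_sub (x + y) y
          simpa using this
        linarith
      simp only [this, mul_one]
      exact hM _
    · have h0 : f (x + y) = 0 := by
        by_contra hne
        have h1 : x + y ∈ tsupport f := subset_tsupport _ hne
        have h2 := hR h1
        rw [mem_closedBall_zero_iff, Real.norm_eq_abs] at h2
        exact hx (h2.trans (le_abs_self R))
      rw [h0, abs_zero]
      exact mul_nonneg hM0 b.nonneg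

lemma exists_lip {χ : ℝ → ℝ} (hf : ContDiff ℝ (⊤ : ℕ∞) χ) (hc : HasCompactSupport χ) :
    ∃ χ₁ : ℝ → ℝ, IsCut χ₁ ∧ ∀ x y, |y| ≤ 1 → |χ (x + y) - χ x| ≤ |y| * χ₁ x := by
  obtain ⟨χ₁, h1, h2⟩ := exists_dom (smooth_deriv hf).continuous hc.deriv
  refine ⟨χ₁, h1, fun x y hy => ?_⟩
  have key : ∀ s ∈ Set.Icc (-1 : ℝ) 1, HasDerivWithinAt (fun s => χ (x + s)) (deriv χ (x + s))
      (Set.Icc (-1 : ℝ) 1) s := by
    intro s _
    have := (hasDerivAt_of_smooth hf (x + s)).comp_const_add x s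
    exact this.hasDerivWithinAt
  have hb : ∀ s ∈ Set.Icc (-1 : ℝ) 1, ‖deriv χ (x + s)‖ ≤ χ₁ x := by
    intro s hs
    exact h2 x s (abs_le.2 hs)
  have := (convex_Icc (-1 : ℝ) 1).norm_image_sub_le_of_norm_hasDerivWithin_le key hb
    (x := 0) (y := y) (by constructor <;> norm_num) (abs_le.1 hy)
  simpa [mul_comm, Real.norm_eq_abs] using this

/-- sum of cutoffs. -/
lemma IsCut.add {χ χ' : ℝ → ℝ} (h : IsCut χ) (h' : IsCut χ') : IsCut (fun x => χ x + χ' x) :=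
  ⟨h.smooth.add h'.smooth, h.cpt.add h'.cpt, fun x => add_nonneg (h.nonneg x) (h'.nonneg x)⟩

lemma IsCut.const_mul {χ : ℝ → ℝ} {c : ℝ} (hc : 0 ≤ c) (h : IsCut χ) : IsCut (fun x => c * χ x) :=
  ⟨contDiff_const.mul h.smooth, h.cpt.mul_left, fun x => mul_nonneg hc (h.nonneg x)⟩

lemma XS.sub {F G : ℝ × ℝ → ℝ} (h : XS F) (h' : XS G) : XS (fun z => F z - G z) := by
  obtain ⟨R, hR⟩ := h
  obtain ⟨S, hS⟩ := h'
  refine ⟨max R S, fun x t hx => ?_⟩
  simp [hR x t (lt_of_le_of_lt (le_max_left _ _) hx), hS x t (lt_of_le_of_lt (le_max_right _ _) hx)]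

lemma XS.abs {F : ℝ × ℝ → ℝ} (h : XS F) : XS (fun z => |F z|) := by
  obtain ⟨R, hR⟩ := h
  exact ⟨R, fun x t hx => by simp [hR x t hx]⟩

lemma CX.abs {F : ℝ × ℝ → ℝ} (h : CX F) : CX (fun z => |F z|) := ⟨h.cont.abs, h.xs.abs⟩

lemma IsCut.cx {χ : ℝ → ℝ} (h : IsCut χ) : CX (fun z => χ z.1) :=
  CX.of_fst h.cpt h.smooth.continuous

lemma cx_mul {f : ℝ → ℝ} (hf : Continuous f) (hc : HasCompactSupport f) {G : ℝ × ℝ → ℝ}
    (hG : Continuous G) : CX (fun z => f z.1 * G z) := (CX.of_fst hc hf).mul hG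

lemma IsCut.mul_cx {χ : ℝ → ℝ} (h : IsCut χ) {G : ℝ × ℝ → ℝ} (hG : Continuous G) :
    CX (fun z => χ z.1 * G z) := h.cx.mul hG

/-- weight in the energy identity. -/
noncomputable def wg (ρ : ℝ) (χ : ℝ → ℝ) (x : ℝ) : ℝ :=
  deriv (deriv χ) x - 2 * ρ * deriv χ x + 2 * ρ ^ 2 * χ x

noncomputable def wm (ρ : ℝ) (χ : ℝ → ℝ) (x : ℝ) : ℝ :=
  deriv (deriv χ) x - 2 * ρ * deriv χ x + ρ ^ 2 * χ x

lemma wg_cont (ρ : ℝ) {χ : ℝ → ℝ} (h : ContDiff ℝ (⊤ : ℕ∞) χ) : Continuous (wg ρ χ) := by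
  have h1 := h.continuous
  have h2 := (smooth_deriv h).continuous
  have h3 := (smooth_deriv (smooth_deriv h)).continuous
  unfold wg; fun_prop

lemma wm_cont (ρ : ℝ) {χ : ℝ → ℝ} (h : ContDiff ℝ (⊤ : ℕ∞) χ) : Continuous (wm ρ χ) := by
  have h1 := h.continuous
  have h2 := (smooth_deriv h).continuous
  have h3 := (smooth_deriv (smooth_deriv h)).continuous
  unfold wm; fun_prop

lemma wg_cpt (ρ : ℝ) {χ : ℝ → ℝ} (h : HasCompactSupport χ) : HasCompactSupport (wg ρ χ) := by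
  have h1 : HasCompactSupport (fun x => deriv (deriv χ) x + (-(2 * ρ)) * deriv χ x
      + 2 * ρ ^ 2 * χ x) :=
    (h.deriv.deriv.add (h.deriv.mul_left (f := fun _ => -(2 * ρ)))).add
      (h.mul_left (f := fun _ => 2 * ρ ^ 2))
  convert h1 using 2
  unfold wg; ring

lemma wm_cpt (ρ : ℝ) {χ : ℝ → ℝ} (h : HasCompactSupport χ) : HasCompactSupport (wm ρ χ) := by
  have h1 : HasCompactSupport (fun x => deriv (deriv χ) x + (-(2 * ρ)) * deriv χ x
      + ρ ^ 2 * χ x) :=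
    (h.deriv.deriv.add (h.deriv.mul_left (f := fun _ => -(2 * ρ)))).add
      (h.mul_left (f := fun _ => ρ ^ 2))
  convert h1 using 2
  unfold wm; ring

/-- energy identity. -/
lemma energy (ρ : ℝ) {χ : ℝ → ℝ} (hs : ContDiff ℝ (⊤ : ℕ∞) χ) (hc : HasCompactSupport χ)
    {u : ℝ × ℝ → ℝ} (hu : Sm u) (hp : Per u) :
    J (fun z => χ z.1 * (dX u z ^ 2 + dT u z ^ 2))
      = - J (fun z => χ z.1 * (u z * Lop ρ u z)) + J (fun z => wg ρ χ z.1 * (1 / 2 * u z ^ 2)) := by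
  have c0 := hs.continuous
  have c1 := (smooth_deriv hs).continuous
  have c2 := (smooth_deriv (smooth_deriv hs)).continuous
  have cu := hu.cont
  have cux := hu.dX.cont
  have cut := hu.dT.cont
  have cuxx := hu.dX.dX.cont
  have cutt := hu.dT.dT.cont
  have cL := (Lop_smooth ρ hu).cont
  -- x part
  have hX := J_dX (F := fun z => χ z.1 * (u z * dX u z) - deriv χ z.1 * (1 / 2 * u z ^ 2)
      + χ z.1 * (ρ * u z ^ 2))
    (F' := fun z => χ z.1 * (dX u z ^ 2 + u z * dX (dX u) z)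
      - deriv (deriv χ) z.1 * (1 / 2 * u z ^ 2) + deriv χ z.1 * (ρ * u z ^ 2)
      + χ z.1 * (2 * ρ * (u z * dX u z))) ?_ ?_ ?_
  · have hT := J_dT (F := fun z => χ z.1 * (u z * dT u z))
      (F' := fun z => χ z.1 * (dT u z ^ 2 + u z * dT (dT u) z)) ?_ ?_ ?_ ?_
    · obtain ⟨x1, x2⟩ := hX
      obtain ⟨t1, t2⟩ := hT
      have hA : CX (fun z => χ z.1 * (dX u z ^ 2 + dT u z ^ 2)) := cx_mul c0 hc (by fun_prop)
      have hB : CX (fun z => χ z.1 * (u z * Lop ρ u z)) := cx_mul c0 hc (by fun_prop)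
      have hC : CX (fun z => wg ρ χ z.1 * (1 / 2 * u z ^ 2)) :=
        cx_mul (wg_cont ρ hs) (wg_cpt ρ hc) (by fun_prop)
      have e := J_add x1 t1
      rw [x2, t2] at e
      have e2 : (fun z => (χ z.1 * (dX u z ^ 2 + u z * dX (dX u) z)
          - deriv (deriv χ) z.1 * (1 / 2 * u z ^ 2) + deriv χ z.1 * (ρ * u z ^ 2)
          + χ z.1 * (2 * ρ * (u z * dX u z))) + (χ z.1 * (dT u z ^ 2 + u z * dT (dT u) z)))
          = fun z => (χ z.1 * (dX u z ^ 2 + dT u z ^ 2) + χ z.1 * (u z * Lop ρ u z))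
            - wg ρ χ z.1 * (1 / 2 * u z ^ 2) := by
        funext z
        simp only [Lop, wg]
        ring
      rw [e2, J_sub (hA.add hB) hC, J_add hA hB] at e
      linarith
    · exact ((XS.of_fst hc).mul_left _)
    · exact (Per.of_fst χ).mul (hp.mul hp.dT)
    · intro x t
      have h1 := (hu.hT x t).mul (hu.dT.hT x t)
      have h2 := h1.const_mul (χ x)
      refine h2.congr_deriv ?_
      ring
    · fun_prop
  · exact (((XS.of_fst hc).mul_left _).sub ((XS.of_fst hc.deriv).mul_left _)).add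
      ((XS.of_fst hc).mul_left _)
  · intro x t
    have h1 := (hu.hX x t).mul (hu.dX.hX x t)
    have h2 := (hasDerivAt_of_smooth hs x).mul h1
    have h3 := ((hu.hX x t).pow 2).const_mul (1 / 2 : ℝ)
    have h4 := (hasDerivAt_of_smooth (smooth_deriv hs) x).mul h3
    have h5 := ((hu.hX x t).pow 2).const_mul ρ
    have h6 := (hasDerivAt_of_smooth hs x).mul h5
    have h7 := (h2.sub h4).add h6
    refine h7.congr_deriv ?_
    simp only [Pi.mul_apply, Pi.pow_apply, Nat.cast_ofNat, Nat.add_one_sub_one, pow_one]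
    ring
  · fun_prop

/-- mass identity. -/
lemma mass_id (ρ : ℝ) {χ : ℝ → ℝ} (hs : ContDiff ℝ (⊤ : ℕ∞) χ) (hc : HasCompactSupport χ)
    {u : ℝ × ℝ → ℝ} (hu : Sm u) (hp : Per u) :
    J (fun z => χ z.1 * Lop ρ u z) = J (fun z => wm ρ χ z.1 * u z) := by
  have c0 := hs.continuous
  have c1 := (smooth_deriv hs).continuous
  have c2 := (smooth_deriv (smooth_deriv hs)).continuous
  have cu := hu.cont
  have cux := hu.dX.cont
  have cut := hu.dT.cont
  have cuxx := hu.dX.dX.cont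
  have cutt := hu.dT.dT.cont
  have cL := (Lop_smooth ρ hu).cont
  have hX := J_dX (F := fun z => χ z.1 * dX u z - deriv χ z.1 * u z + χ z.1 * (2 * ρ * u z))
    (F' := fun z => χ z.1 * dX (dX u) z
      - deriv (deriv χ) z.1 * u z + deriv χ z.1 * (2 * ρ * u z)
      + χ z.1 * (2 * ρ * dX u z)) ?_ ?_ ?_
  · have hT := J_dT (F := fun z => χ z.1 * dT u z)
      (F' := fun z => χ z.1 * dT (dT u) z) ?_ ?_ ?_ ?_
    · obtain ⟨x1, x2⟩ := hX
      obtain ⟨t1, t2⟩ := hT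
      have hB : CX (fun z => χ z.1 * Lop ρ u z) := cx_mul c0 hc (by fun_prop)
      have hC : CX (fun z => wm ρ χ z.1 * u z) :=
        cx_mul (wm_cont ρ hs) (wm_cpt ρ hc) (by fun_prop)
      have e := J_add x1 t1
      rw [x2, t2] at e
      have e2 : (fun z => (χ z.1 * dX (dX u) z
          - deriv (deriv χ) z.1 * u z + deriv χ z.1 * (2 * ρ * u z)
          + χ z.1 * (2 * ρ * dX u z)) + (χ z.1 * dT (dT u) z))
          = fun z => χ z.1 * Lop ρ u z - wm ρ χ z.1 * u z := by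
        funext z
        simp only [Lop, wm]
        ring
      rw [e2, J_sub hB hC] at e
      linarith
    · exact ((XS.of_fst hc).mul_left _)
    · exact (Per.of_fst χ).mul hp.dT
    · intro x t
      exact (hu.dT.hT x t).const_mul (χ x)
    · fun_prop
  · exact (((XS.of_fst hc).mul_left _).sub ((XS.of_fst hc.deriv).mul_left _)).add
      ((XS.of_fst hc).mul_left _)
  · intro x t
    have h2 := (hasDerivAt_of_smooth hs x).mul (hu.dX.hX x t)
    have h4 := (hasDerivAt_of_smooth (smooth_deriv hs) x).mul (hu.hX x t)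
    have h5 := (hu.hX x t).const_mul (2 * ρ)
    have h6 := (hasDerivAt_of_smooth hs x).mul h5
    have h7 := (h2.sub h4).add h6
    refine h7.congr_deriv ?_
    simp only [Pi.mul_apply]
    ring
  · fun_prop

section cls

variable {ρ C : ℝ} {h : ℝ → ℝ} {v : ℝ × ℝ → ℝ}

/-- total mass of the source term. -/
lemma mass_bound (ρ C : ℝ) (h : ℝ → ℝ) {χ : ℝ → ℝ} (hχ : IsCut χ) :
    ∃ M : ℝ, 0 ≤ M ∧ ∀ v, InC ρ C h v → ∀ ε : ℝ, 0 < ε →
      J (fun z => χ z.1 * Lop ρ (moll ε v) z) ≤ M := by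
  refine ⟨|C| * J (fun z => |wm ρ χ z.1|), mul_nonneg (abs_nonneg _)
    (J_nonneg fun z => abs_nonneg _), fun v hv ε hε => ?_⟩
  rw [mass_id ρ hχ.smooth hχ.cpt (moll_smooth hε hv.locInt) (moll_per ε hv.perV), ← J_const_mul]
  refine (le_abs_self _).trans (J_abs ?_ ?_)
  · exact (CX.of_fst (wm_cpt ρ hχ.cpt) (wm_cont ρ hχ.smooth)).abs.const_mul _
  · intro z
    rw [abs_mul, mul_comm]
    exact mul_le_mul_of_nonneg_right ((moll_bound hε hv.bdd z).trans (le_abs_self C)) (abs_nonneg _)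

end cls

end Pool.Agent.Helper42.Fr
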