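import Pool.Agent.Helper42.Fr.Energy

set_option autoImplicit false

open MeasureTheory Filter Topology

namespace Pool.Agent.Helper42.Fr

lemma Lop_sub (ρ : ℝ) {u w : ℝ × ℝ → ℝ} (hu : Sm u) (hw : Sm w) :
    Lop ρ (fun z => u z - w z) = fun z => Lop ρ u z - Lop ρ w z := by
  funext z
  simp only [Lop]
  rw [dX_sub hu hw, dT_sub hu hw, dX_sub hu.dX hw.dX, dT_sub hu.dT hw.dT]
  ring

lemma Lop_shift (ρ : ℝ) {u : ℝ × ℝ → ℝ} (hu : Sm u) (X : ℝ) :
    Lop ρ (shift X u) = shift X (Lop ρ u) := by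
  funext z
  simp only [Lop]
  rw [dX_shift hu, dT_shift hu, dX_shift hu.dX, dT_shift hu.dT]
  rfl

lemma CX.shift {F : ℝ × ℝ → ℝ} (h : CX F) (X : ℝ) : CX (shift X F) := by
  refine ⟨h.cont.comp ((continuous_fst.add continuous_const).prodMk continuous_snd), ?_⟩
  obtain ⟨R, hR⟩ := h.xs
  refine ⟨R + |X|, fun x t hx => hR _ _ ?_⟩
  have := abs_sub_abs_le_abs_sub x (-X)
  simp only [abs_neg, sub_neg_eq_add] at this
  show R < |x + X|
  linarith

lemma IsCut.abs_le {χ : ℝ → ℝ} (h : IsCut χ) (x : ℝ) : |χ x| = χ x := abs_of_nonneg (h.nonneg x)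

section cls

variable {ρ C : ℝ} {h : ℝ → ℝ}

/-- (A4) gradients of mollifications are Cauchy. -/
theorem grad_diff (hh : IndH ρ C h) {χ : ℝ → ℝ} (hχ : IsCut χ) :
    ∃ M : ℝ, 0 ≤ M ∧ ∀ v, InC ρ C h v → ∀ ε ε' : ℝ, 0 < ε → ε ≤ 1 → 0 < ε' → ε' ≤ 1 →
      J (fun z => χ z.1 * (dX (fun z => moll ε v z - moll ε' v z) z ^ 2
        + dT (fun z => moll ε v z - moll ε' v z) z ^ 2)) ≤ M * (ε + ε') := by
  obtain ⟨M0, hM0, hM⟩ := mass_bound ρ C h hχ
  have hC := hh.C_nonneg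
  set W : ℝ := J (fun z => |wg ρ χ z.1|) with hW
  have hW0 : 0 ≤ W := J_nonneg fun z => abs_nonneg _
  refine ⟨4 * C * M0 + 4 * C ^ 2 * W, by positivity, fun v hv ε ε' hε hε1 hε' hε1' => ?_⟩
  set V := moll ε v with hV
  set V' := moll ε' v with hV'
  have sV : Sm V := moll_smooth hε hv.locInt
  have sV' : Sm V' := moll_smooth hε' hv.locInt
  have pV : Per V := moll_per ε hv.perV
  have pV' : Per V' := moll_per ε' hv.perV
  have hd : ∀ z, |V z - V' z| ≤ 2 * C * (ε + ε') := by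
    intro z
    have h1 := moll_close hC hv hε z
    have h2 := moll_close hC hv hε' z
    have h3 : V z - V' z = (V z - v z) - (V' z - v z) := by ring
    rw [h3]
    refine (abs_sub _ _).trans ?_
    linarith
  set D : ℝ := 2 * C * (ε + ε') with hD
  have hD0 : 0 ≤ D := by positivity
  rw [energy ρ hχ.smooth hχ.cpt (sV.sub sV') (pV.sub pV'), Lop_sub ρ sV sV']
  have cL := (Lop_smooth ρ sV).cont
  have cL' := (Lop_smooth ρ sV').cont
  have cV := sV.cont
  have cV' := sV'.cont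
  have k1 : - J (fun z => χ z.1 * ((V z - V' z) * (Lop ρ V z - Lop ρ V' z)))
      ≤ D * (M0 + M0) := by
    rw [← J_neg]
    have e1 : J (fun z => - (χ z.1 * ((V z - V' z) * (Lop ρ V z - Lop ρ V' z))))
        ≤ J (fun z => D * (χ z.1 * Lop ρ V z + χ z.1 * Lop ρ V' z)) := by
      refine J_mono ?_ ?_ ?_
      · exact (hχ.mul_cx (by fun_prop)).neg
      · exact ((hχ.mul_cx cL).add (hχ.mul_cx cL')).const_mul D
      · intro z
        have a1 := abs_le.1 (hd z)
        have a2 := Lop_moll_nonneg hv hε z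
        have a3 := Lop_moll_nonneg hv hε' z
        have a4 := hχ.nonneg z.1
        have b1 : -((V z - V' z) * (Lop ρ V z - Lop ρ V' z)) ≤ D * (Lop ρ V z + Lop ρ V' z) := by
          have c1 : 0 ≤ (D + (V z - V' z)) * Lop ρ V z := mul_nonneg (by linarith [a1.1]) a2
          have c2 : 0 ≤ (D - (V z - V' z)) * Lop ρ V' z := mul_nonneg (by linarith [a1.2]) a3
          nlinarith
        have := mul_le_mul_of_nonneg_left b1 a4
        calc -(χ z.1 * ((V z - V' z) * (Lop ρ V z - Lop ρ V' z)))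
            = χ z.1 * -((V z - V' z) * (Lop ρ V z - Lop ρ V' z)) := by ring
          _ ≤ χ z.1 * (D * (Lop ρ V z + Lop ρ V' z)) := this
          _ = _ := by ring
    rw [J_const_mul, J_add (hχ.mul_cx cL) (hχ.mul_cx cL')] at e1
    refine e1.trans (mul_le_mul_of_nonneg_left (add_le_add (hM v hv ε hε) (hM v hv ε' hε')) hD0)
  have k2 : J (fun z => wg ρ χ z.1 * (1 / 2 * (V z - V' z) ^ 2)) ≤ (1 / 2 * D ^ 2) * W := by
    rw [hW, ← J_const_mul]
    refine (le_abs_self _).trans (J_abs ?_ ?_)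
    · exact (CX.of_fst (wg_cpt ρ hχ.cpt) (wg_cont ρ hχ.smooth)).abs.const_mul _
    · intro z
      rw [abs_mul, mul_comm]
      apply mul_le_mul_of_nonneg_right _ (abs_nonneg _)
      rw [abs_of_nonneg (by positivity)]
      have := sq_le_sq' (by linarith [(abs_le.1 (hd z)).1]) (abs_le.1 (hd z)).2
      linarith
  have k3 : (1 / 2 * D ^ 2) * W ≤ (2 * C * D) * W := by
    apply mul_le_mul_of_nonneg_right _ hW0
    have : D ≤ 4 * C := by rw [hD]; nlinarith
    nlinarith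
  calc _ ≤ D * (M0 + M0) + (2 * C * D) * W := by linarith
    _ = _ := by rw [hD]; ring

/-- (A1) translation differences, first form. -/
theorem grad_shift_aux (hh : IndH ρ C h) {χ : ℝ → ℝ} (hχ : IsCut χ) :
    ∃ M : ℝ, 0 ≤ M ∧ ∀ v, InC ρ C h v → ∀ ε σ : ℝ, 0 < ε → |σ| ≤ 1 →
      J (fun z => χ z.1 * (dX (fun z => shift σ (moll ε v) z - moll ε v z) z ^ 2
        + dT (fun z => shift σ (moll ε v) z - moll ε v z) z ^ 2)) ≤ M * (σ ^ 2 + ε) := by
  obtain ⟨χ₁, hχ₁, hdom⟩ := exists_dom hχ.smooth.continuous hχ.cpt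
  obtain ⟨M0, hM0, hM⟩ := mass_bound ρ C h hχ
  obtain ⟨M1, hM1, hM'⟩ := mass_bound ρ C h hχ₁
  have hC := hh.C_nonneg
  set W : ℝ := J (fun z => |wg ρ χ z.1|) with hW
  have hW0 : 0 ≤ W := J_nonneg fun z => abs_nonneg _
  refine ⟨6 * C * (M0 + M1) + C ^ 2 * W, by positivity, fun v hv ε σ hε hσ => ?_⟩
  set V := moll ε v with hV
  have sV : Sm V := moll_smooth hε hv.locInt
  have pV : Per V := moll_per ε hv.perV
  have sV' : Sm (shift σ V) := sV.shift σ
  have pV' : Per (shift σ V) := pV.shift σ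
  have hd : ∀ z, |shift σ V z - V z| ≤ C * |σ| := by
    intro z
    have := moll_lip hv hε (z.1 + σ, z.2) z
    simpa [Fr.shift] using this
  rw [energy ρ hχ.smooth hχ.cpt (sV'.sub sV) (pV'.sub pV), Lop_sub ρ sV' sV, Lop_shift ρ sV]
  have cL := (Lop_smooth ρ sV).cont
  have cL' : Continuous (shift σ (Lop ρ V)) := ((Lop_smooth ρ sV).shift σ).cont
  have cV := sV.cont
  have cV' := sV'.cont
  have k1 : - J (fun z => χ z.1 * ((shift σ V z - V z) * (shift σ (Lop ρ V) z - Lop ρ V z)))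
      ≤ 6 * C * ε * (M1 + M0) := by
    rw [← J_neg]
    have e1 : J (fun z => - (χ z.1 * ((shift σ V z - V z) * (shift σ (Lop ρ V) z - Lop ρ V z))))
        ≤ J (fun z => 6 * C * ε * (χ z.1 * shift σ (Lop ρ V) z + χ z.1 * Lop ρ V z)) := by
      refine J_mono ?_ ?_ ?_
      · exact (hχ.mul_cx (by fun_prop)).neg
      · exact ((hχ.mul_cx cL').add (hχ.mul_cx cL)).const_mul _
      · intro z
        obtain ⟨x, t⟩ := z
        have a2 := Lop_moll_nonneg hv hε (x, t)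
        have a3 := Lop_moll_nonneg hv hε (x + σ, t)
        have a4 := hχ.nonneg x
        have c1 : (V (x + σ, t) - V (x, t)) * Lop ρ V (x, t) ≤ 6 * C * ε * Lop ρ V (x, t) := by
          by_cases h0 : Lop ρ V (x, t) = 0
          · simp [h0]
          · exact mul_le_mul_of_nonneg_right (moll_sub_le_of_Lop_ne hh hv hε h0 (x + σ)) a2
        have c2 : (V (x, t) - V (x + σ, t)) * Lop ρ V (x + σ, t)
            ≤ 6 * C * ε * Lop ρ V (x + σ, t) := by
          by_cases h0 : Lop ρ V (x + σ, t) = 0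
          · simp [h0]
          · exact mul_le_mul_of_nonneg_right (moll_sub_le_of_Lop_ne hh hv hε h0 x) a3
        show -(χ x * ((V (x + σ, t) - V (x, t)) * (Lop ρ V (x + σ, t) - Lop ρ V (x, t))))
          ≤ 6 * C * ε * (χ x * Lop ρ V (x + σ, t) + χ x * Lop ρ V (x, t))
        have := mul_le_mul_of_nonneg_left (add_le_add c1 c2) a4
        nlinarith
    rw [J_const_mul, J_add (hχ.mul_cx cL') (hχ.mul_cx cL)] at e1
    refine e1.trans (mul_le_mul_of_nonneg_left (add_le_add ?_ (hM v hv ε hε)) (by positivity))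
    have e2 : J (fun z => χ z.1 * shift σ (Lop ρ V) z)
        = J (fun z => χ (z.1 - σ) * Lop ρ V z) := by
      have hcx : CX (fun z => χ z.1 * shift σ (Lop ρ V) z) := hχ.mul_cx cL'
      rw [← J_shift hcx (-σ)]
      congr 1; funext z
      show χ (z.1 + -σ) * Lop ρ V (z.1 + -σ + σ, z.2) = _
      rw [neg_add_cancel_right, sub_eq_add_neg]
    rw [e2]
    refine le_trans ?_ (hM' v hv ε hε)
    refine J_mono ?_ (hχ₁.mul_cx cL) ?_
    · have h1 : CX (fun z => χ (z.1 - σ)) := by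
        have := hχ.cx.shift (-σ)
        simp only [sub_eq_add_neg]
        exact this
      exact h1.mul cL
    · intro z
      apply mul_le_mul_of_nonneg_right _ (Lop_moll_nonneg hv hε z)
      have := hdom z.1 (-σ) (by rwa [abs_neg])
      rw [← sub_eq_add_neg] at this
      exact (le_abs_self _).trans this
  have k2 : J (fun z => wg ρ χ z.1 * (1 / 2 * (shift σ V z - V z) ^ 2))
      ≤ (1 / 2 * (C * |σ|) ^ 2) * W := by
    rw [hW, ← J_const_mul]
    refine (le_abs_self _).trans (J_abs ?_ ?_)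
    · exact (CX.of_fst (wg_cpt ρ hχ.cpt) (wg_cont ρ hχ.smooth)).abs.const_mul _
    · intro z
      rw [abs_mul, mul_comm]
      apply mul_le_mul_of_nonneg_right _ (abs_nonneg _)
      rw [abs_of_nonneg (by positivity)]
      have := sq_le_sq' (by linarith [(abs_le.1 (hd z)).1]) (abs_le.1 (hd z)).2
      linarith
  have k3 : (1 / 2 * (C * |σ|) ^ 2) * W ≤ C ^ 2 * W * σ ^ 2 := by
    rw [mul_pow, sq_abs]
    have : 0 ≤ C ^ 2 * W * σ ^ 2 := by positivity
    nlinarith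
  have k4 : 0 ≤ 6 * C * (M0 + M1) * σ ^ 2 := by positivity
  have k5 : 0 ≤ C ^ 2 * W * ε := by positivity
  calc _ ≤ 6 * C * ε * (M1 + M0) + C ^ 2 * W * σ ^ 2 := by linarith
    _ ≤ _ := by nlinarith

end cls

/-! ### limits in quadratic bounds -/

lemma sq_limit {χ : ℝ → ℝ} (hχ : IsCut χ) {A : ℝ × ℝ → ℝ} (hA : Continuous A) {M : ℝ}
    (H : ∀ δ : ℝ, 0 < δ → ∃ B : ℝ × ℝ → ℝ, Continuous B ∧ (∀ z, |A z - B z| ≤ δ) ∧
      J (fun z => χ z.1 * B z ^ 2) ≤ M + δ) :
    J (fun z => χ z.1 * A z ^ 2) ≤ M := by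
  set Q : ℝ := J (fun z => χ z.1) with hQ
  have key : ∀ δ : ℝ, 0 < δ → J (fun z => χ z.1 * A z ^ 2)
      ≤ (1 + δ) * (M + δ ^ 2) + (1 + 1 / δ) * (δ ^ 2) ^ 2 * Q := by
    intro δ hδ
    obtain ⟨B, cB, hAB, hB⟩ := H (δ ^ 2) (by positivity)
    have h1 : J (fun z => χ z.1 * A z ^ 2)
        ≤ J (fun z => (1 + δ) * (χ z.1 * B z ^ 2) + ((1 + 1 / δ) * (δ ^ 2) ^ 2) * χ z.1) := by
      refine J_mono (hχ.mul_cx (by fun_prop)) ?_ ?_
      · exact ((hχ.mul_cx (by fun_prop)).const_mul _).add (hχ.cx.const_mul _)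
      · intro z
        have hz := hχ.nonneg z.1
        have e1 : A z ^ 2 ≤ (1 + δ) * B z ^ 2 + (1 + 1 / δ) * (δ ^ 2) ^ 2 := by
          have e2 : (A z - B z) ^ 2 ≤ (δ ^ 2) ^ 2 := sq_le_sq' (abs_le.1 (hAB z)).1 (abs_le.1 (hAB z)).2
          have e3 : A z ^ 2 ≤ (1 + δ) * B z ^ 2 + (1 + 1 / δ) * (A z - B z) ^ 2 := by
            have e4 : (1 + δ) * B z ^ 2 + (1 + 1 / δ) * (A z - B z) ^ 2 - A z ^ 2
                = (δ * B z - (A z - B z)) ^ 2 / δ := by
              field_simp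
              ring
            have e5 : 0 ≤ (δ * B z - (A z - B z)) ^ 2 / δ := by positivity
            linarith
          have e6 : (1 + 1 / δ) * (A z - B z) ^ 2 ≤ (1 + 1 / δ) * (δ ^ 2) ^ 2 :=
            mul_le_mul_of_nonneg_left e2 (by positivity)
          linarith
        have := mul_le_mul_of_nonneg_left e1 hz
        linarith
    rw [J_add ((hχ.mul_cx (by fun_prop)).const_mul _) (hχ.cx.const_mul _), J_const_mul,
      J_const_mul] at h1
    have h2 : (1 + δ) * J (fun z => χ z.1 * B z ^ 2) ≤ (1 + δ) * (M + δ ^ 2) :=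
      mul_le_mul_of_nonneg_left hB (by positivity)
    linarith
  have hlim : Tendsto (fun δ : ℝ => (1 + δ) * (M + δ ^ 2) + (δ ^ 4 + δ ^ 3) * Q) (𝓝[>] 0)
      (𝓝 M) := by
    have hc : Continuous (fun δ : ℝ => (1 + δ) * (M + δ ^ 2) + (δ ^ 4 + δ ^ 3) * Q) := by fun_prop
    have := (hc.tendsto 0).mono_left (nhdsWithin_le_nhds (s := Set.Ioi 0))
    simpa using this
  refine ge_of_tendsto hlim ?_
  filter_upwards [self_mem_nhdsWithin] with δ hδ
  have hδ : 0 < δ := hδ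
  refine (key δ hδ).trans (le_of_eq ?_)
  have : (1 + 1 / δ) * (δ ^ 2) ^ 2 = δ ^ 4 + δ ^ 3 := by
    field_simp
  rw [this]

end Pool.Agent.Helper42.Fr
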