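import Pool.Agent.Helper42.Fr.Iden

set_option autoImplicit false

open MeasureTheory Filter Topology

namespace Pool.Agent.Helper42.Fr

/-- pointwise bounds. -/
structure Bd (ρ B : ℝ) (V : ℝ × ℝ → ℝ) : Prop where
  p : ∀ z, |ρ * V z + dX V z| ≤ B
  q : ∀ z, |dT V z| ≤ B

/-- L2 bounds. -/
structure L2B (ρ M : ℝ) (χ : ℝ → ℝ) (V : ℝ × ℝ → ℝ) : Prop where
  dx : J (fun z => χ z.1 * DX ρ V z ^ 2) ≤ M
  dt : J (fun z => χ z.1 * DT ρ V z ^ 2) ≤ M
  qx : J (fun z => χ z.1 * dX (dT V) z ^ 2) ≤ M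

/-- constants. -/
noncomputable def cP (ρ κ B : ℝ) : ℝ := (ρ ^ 2)⁻¹ * (κ * (2 * B / ρ ^ 2) * B)
noncomputable def cQ (ρ κ : ℝ) : ℝ := (ρ ^ 2)⁻¹ * κ
noncomputable def c0 (ρ κ B : ℝ) : ℝ := (ρ ^ 2)⁻¹ * κ * B

section

variable {ρ κ B : ℝ} {k : ℝ → ℝ} {V : ℝ × ℝ → ℝ}

lemma cP_nonneg (hκ : 0 ≤ κ) (hB : 0 ≤ B) : 0 ≤ cP ρ κ B := by unfold cP; positivity
lemma cQ_nonneg (hκ : 0 ≤ κ) : 0 ≤ cQ ρ κ := by unfold cQ; positivity
lemma c0_nonneg (hκ : 0 ≤ κ) (hB : 0 ≤ B) : 0 ≤ c0 ρ κ B := by unfold c0; positivity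

lemma ThP_le (hk : KB κ k) {p q : ℝ} (hp : |p| ≤ B) (hq : |q| ≤ B) : |ThP ρ k p q| ≤ cP ρ κ B := by
  have hκ := hk.nonneg
  have hB : 0 ≤ B := (abs_nonneg _).trans hp
  refine (ThP_bound hk p q).trans ?_
  unfold cP
  gcongr

lemma Thp_le (hk : KB κ k) (hV : Bd ρ B V) (z : ℝ × ℝ) : |Thp ρ k V z| ≤ cP ρ κ B :=
  ThP_le hk (hV.p z) (hV.q z)

lemma Thq_le (hk : KB κ k) (z : ℝ × ℝ) : |Thq ρ k V z| ≤ cQ ρ κ := ThQ_bound hk _ _

lemma Th_le (hk : KB κ k) (hV : Bd ρ B V) (z : ℝ × ℝ) : |Th ρ k V z| ≤ c0 ρ κ B := by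
  have hκ := hk.nonneg
  refine (Theta_bound hk _ _).trans ?_
  unfold c0
  have := hV.q z
  gcongr

lemma Theta_lip (hk : KB κ k) {p q p' q' : ℝ} (hp : |p| ≤ B) (hq : |q| ≤ B) (hp' : |p'| ≤ B) :
    |Theta ρ k p q - Theta ρ k p' q'| ≤ cP ρ κ B * |p - p'| + cQ ρ κ * |q - q'| := by
  have hκ := hk.nonneg
  have h1 : |Theta ρ k p q - Theta ρ k p' q| ≤ cP ρ κ B * |p - p'| := by
    have := (convex_Icc (-B) B).norm_image_sub_le_of_norm_hasDerivWithin_le
      (f := fun p => Theta ρ k p q) (f' := fun p => ThP ρ k p q) (C := cP ρ κ B)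
      (fun y _ => (Theta_hasDerivAt_p hk y q).hasDerivWithinAt)
      (fun y hy => ThP_le hk (abs_le.2 hy) hq) (x := p') (y := p) (abs_le.1 hp') (abs_le.1 hp)
    simpa [Real.norm_eq_abs] using this
  have h2 : |Theta ρ k p' q - Theta ρ k p' q'| ≤ cQ ρ κ * |q - q'| := by
    have := convex_univ.norm_image_sub_le_of_norm_hasDerivWithin_le
      (f := fun q => Theta ρ k p' q) (f' := fun q => ThQ ρ k p' q) (C := cQ ρ κ)
      (fun y _ => (Theta_hasDerivAt_q hk.smooth.continuous p' y).hasDerivWithinAt)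
      (fun y _ => ThQ_bound hk _ _) (x := q') (y := q) trivial trivial
    simpa [Real.norm_eq_abs] using this
  have h3 : Theta ρ k p q - Theta ρ k p' q' = (Theta ρ k p q - Theta ρ k p' q)
      + (Theta ρ k p' q - Theta ρ k p' q') := by ring
  rw [h3]
  exact (abs_add_le _ _).trans (add_le_add h1 h2)

lemma KK_lip (hk : KB κ k) (s t : ℝ) : |KK k s - KK k t| ≤ κ * |s - t| := by
  have := convex_univ.norm_image_sub_le_of_norm_hasDerivWithin_le
    (f := KK k) (f' := k) (C := κ)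
    (fun y _ => (KK_hasDerivAt hk.smooth.continuous y).hasDerivWithinAt)
    (fun y _ => hk.b0 _) (x := t) (y := s) trivial trivial
  simpa [Real.norm_eq_abs] using this

end

/-- pairing of the source term with an x-derivative is small when the gradient is. -/
theorem test_bound {ρ κ B M : ℝ} (hρ : 0 < ρ) (hκ : 0 ≤ κ) (hB : 0 ≤ B)
    {ψ χ₁ : ℝ → ℝ} (hs : ContDiff ℝ (⊤ : ℕ∞) ψ) (hc : HasCompactSupport ψ)
    (hχ₁ : IsCut χ₁) (hdom : Dom ψ χ₁) :
    ∃ D : ℝ, 0 ≤ D ∧ ∀ k, KB κ k → ∀ V, Sm V → Per V → Bd ρ B V → L2B ρ M χ₁ V →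
      ∀ Z, Sm Z → Per Z → ∀ δ : ℝ, 0 ≤ δ → J (fun z => χ₁ z.1 * dX Z z ^ 2) ≤ δ ^ 2 →
      J (fun z => χ₁ z.1 * dT Z z ^ 2) ≤ δ ^ 2 →
      |J (fun z => ψ z.1 * (k (RR ρ V z) * dX Z z * Lop ρ V z))| ≤ D * δ := by
  set Q : ℝ := J (fun z => χ₁ z.1) with hQ
  have hQ0 : 0 ≤ Q := J_nonneg fun z => hχ₁.nonneg _
  have hP0 := cP_nonneg (ρ := ρ) hκ hB
  have hq0 := cQ_nonneg (ρ := ρ) hκ
  have h00 := c0_nonneg (ρ := ρ) hκ hB
  set c : ℝ := κ * (ρ * B + 1) + ρ ^ 2 * cP ρ κ B + ρ ^ 2 * c0 ρ κ B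
    + ρ ^ 2 * (cP ρ κ B + cQ ρ κ) with hcdef
  have hc0 : 0 ≤ c := by positivity
  refine ⟨c * (2 * Real.sqrt (4 * (Q + 3 * M))), by positivity,
    fun k hk V hV hVp hVB hVM Z hZ hZp δ hδ h1 h2 => ?_⟩
  rw [pairing hρ.ne' hk hV hVp hZ hZp hs hc]
  have cDX := (DX_smooth ρ hV).cont
  have cDT := (DT_smooth ρ hV).cont
  have cQx := hV.dT.dX.cont
  have cZx := hZ.dX.cont
  have cZt := hZ.dT.cont
  have key := J_le_of_prod hχ₁ (c := c) hc0
    (F := fun z => ψ z.1 * (k (RR ρ V z) * dX Z z * (ρ * (ρ * V z + dX V z) + DX ρ V z))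
        - ρ ^ 2 * (ψ z.1 * (dX Z z * (Thp ρ k V z * DT ρ V z)))
        + ρ ^ 2 * (deriv ψ z.1 * (Th ρ k V z * dT Z z))
        + ρ ^ 2 * (ψ z.1 * ((Thp ρ k V z * DX ρ V z + Thq ρ k V z * dX (dT V) z) * dT Z z)))
    (A := fun z => |dX Z z| + |dT Z z|)
    (B := fun z => 1 + |DX ρ V z| + |DT ρ V z| + |dX (dT V) z|)
    (by fun_prop) (by fun_prop) ?_
  · refine key.trans ?_
    rw [mul_assoc]
    refine mul_le_mul_of_nonneg_left ?_ hc0
    have a1 : Real.sqrt (J (fun z => χ₁ z.1 * (|dX Z z| + |dT Z z|) ^ 2)) ≤ 2 * δ := by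
      apply Real.sqrt_le_iff.2
      refine ⟨by positivity, ?_⟩
      have b1 : J (fun z => χ₁ z.1 * (|dX Z z| + |dT Z z|) ^ 2)
          ≤ J (fun z => 2 * (χ₁ z.1 * dX Z z ^ 2) + 2 * (χ₁ z.1 * dT Z z ^ 2)) := by
        refine J_mono (hχ₁.mul_cx (by fun_prop)) (((hχ₁.mul_cx (by fun_prop)).const_mul _).add
          ((hχ₁.mul_cx (by fun_prop)).const_mul _)) fun z => ?_
        have b2 : (|dX Z z| + |dT Z z|) ^ 2 ≤ 2 * dX Z z ^ 2 + 2 * dT Z z ^ 2 := by
          rw [← sq_abs (dX Z z), ← sq_abs (dT Z z)]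
          nlinarith [sq_nonneg (|dX Z z| - |dT Z z|)]
        have := mul_le_mul_of_nonneg_left b2 (hχ₁.nonneg z.1)
        linarith
      rw [J_add ((hχ₁.mul_cx (by fun_prop)).const_mul _) ((hχ₁.mul_cx (by fun_prop)).const_mul _),
        J_const_mul, J_const_mul] at b1
      nlinarith
    have a2 : Real.sqrt (J (fun z => χ₁ z.1 * (1 + |DX ρ V z| + |DT ρ V z| + |dX (dT V) z|) ^ 2))
        ≤ Real.sqrt (4 * (Q + 3 * M)) := by
      apply Real.sqrt_le_sqrt
      have b1 : J (fun z => χ₁ z.1 * (1 + |DX ρ V z| + |DT ρ V z| + |dX (dT V) z|) ^ 2)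
          ≤ J (fun z => 4 * ((χ₁ z.1 + χ₁ z.1 * DX ρ V z ^ 2) + (χ₁ z.1 * DT ρ V z ^ 2
            + χ₁ z.1 * dX (dT V) z ^ 2))) := by
        refine J_mono (hχ₁.mul_cx (by fun_prop)) (CX.const_mul _ (CX.add (CX.add hχ₁.cx
          (hχ₁.mul_cx (by fun_prop))) (CX.add (hχ₁.mul_cx (by fun_prop))
          (hχ₁.mul_cx (by fun_prop))))) fun z => ?_
        have b2 : (1 + |DX ρ V z| + |DT ρ V z| + |dX (dT V) z|) ^ 2
            ≤ 4 * (1 + DX ρ V z ^ 2 + DT ρ V z ^ 2 + dX (dT V) z ^ 2) := by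
          rw [← sq_abs (DX ρ V z), ← sq_abs (DT ρ V z), ← sq_abs (dX (dT V) z)]
          nlinarith [sq_nonneg (1 - |DX ρ V z|), sq_nonneg (1 - |DT ρ V z|),
            sq_nonneg (1 - |dX (dT V) z|), sq_nonneg (|DX ρ V z| - |DT ρ V z|),
            sq_nonneg (|DX ρ V z| - |dX (dT V) z|), sq_nonneg (|DT ρ V z| - |dX (dT V) z|)]
        have := mul_le_mul_of_nonneg_left b2 (hχ₁.nonneg z.1)
        linarith
      rw [J_const_mul, J_add (CX.add hχ₁.cx (hχ₁.mul_cx (by fun_prop)))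
        (CX.add (hχ₁.mul_cx (by fun_prop)) (hχ₁.mul_cx (by fun_prop))),
        J_add hχ₁.cx (hχ₁.mul_cx (by fun_prop)),
        J_add (hχ₁.mul_cx (by fun_prop)) (hχ₁.mul_cx (by fun_prop))] at b1
      have c1 := hVM.dx
      have c2 := hVM.dt
      have c3 := hVM.qx
      rw [← hQ] at b1
      linarith
    calc _ ≤ (2 * δ) * Real.sqrt (4 * (Q + 3 * M)) :=
          mul_le_mul a1 a2 (Real.sqrt_nonneg _) (by positivity)
      _ = _ := by ring
  · intro z
    have d0 := hχ₁.nonneg z.1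
    have d1 := (hdom z.1).1
    have d2 := (hdom z.1).2
    have d3 := hk.b0 (RR ρ V z)
    have d4 := hVB.p z
    have d5 := Thp_le hk hVB z
    have d6 := Thq_le (ρ := ρ) (V := V) hk z
    have d7 := Th_le hk hVB z
    set x := dX Z z with hx
    set y := dT Z z with hy
    set a := DX ρ V z with ha
    set b := DT ρ V z with hb
    set d := dX (dT V) z with hd
    set P := ρ * V z + dX V z with hP
    set X := χ₁ z.1 with hX
    have hX0 : 0 ≤ X := d0
    set A := |x| + |y| with hA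
    set S := 1 + |a| + |b| + |d| with hS
    have A1 : |x| ≤ A := by rw [hA]; linarith [abs_nonneg y]
    have A2 : |y| ≤ A := by rw [hA]; linarith [abs_nonneg x]
    have A0 : 0 ≤ A := by positivity
    have S0 : 0 ≤ S := by positivity
    have S1 : 1 ≤ S := by rw [hS]; linarith [abs_nonneg a, abs_nonneg b, abs_nonneg d]
    have Sa : |a| ≤ S := by rw [hS]; linarith [abs_nonneg a, abs_nonneg b, abs_nonneg d]
    have Sb : |b| ≤ S := by rw [hS]; linarith [abs_nonneg a, abs_nonneg b, abs_nonneg d]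
    have Sd : |d| ≤ S := by rw [hS]; linarith [abs_nonneg a, abs_nonneg b, abs_nonneg d]
    have t1 : |ψ z.1 * (k (RR ρ V z) * x * (ρ * P + a))|
        ≤ κ * (ρ * B + 1) * (X * (A * S)) := by
      rw [abs_mul, abs_mul, abs_mul]
      have : |ρ * P + a| ≤ (ρ * B + 1) * S := by
        refine (abs_add_le _ _).trans ?_
        rw [abs_mul, abs_of_pos hρ]
        have e1 : ρ * |P| ≤ ρ * B := by gcongr
        have e2 : ρ * B ≤ ρ * B * S := le_mul_of_one_le_right (by positivity) S1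
        linarith
      calc |ψ z.1| * (|k (RR ρ V z)| * |x| * |ρ * P + a|)
          ≤ X * (κ * A * ((ρ * B + 1) * S)) := by gcongr
        _ = _ := by ring
    have t2 : |ρ ^ 2 * (ψ z.1 * (x * (Thp ρ k V z * b)))| ≤ ρ ^ 2 * cP ρ κ B * (X * (A * S)) := by
      rw [abs_mul, abs_mul, abs_mul, abs_mul, abs_of_nonneg (sq_nonneg ρ)]
      calc ρ ^ 2 * (|ψ z.1| * (|x| * (|Thp ρ k V z| * |b|)))
          ≤ ρ ^ 2 * (X * (A * (cP ρ κ B * S))) := by gcongr
        _ = _ := by ring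
    have t3 : |ρ ^ 2 * (deriv ψ z.1 * (Th ρ k V z * y))| ≤ ρ ^ 2 * c0 ρ κ B * (X * (A * S)) := by
      rw [abs_mul, abs_mul, abs_mul, abs_of_nonneg (sq_nonneg ρ)]
      calc ρ ^ 2 * (|deriv ψ z.1| * (|Th ρ k V z| * |y|))
          ≤ ρ ^ 2 * (X * (c0 ρ κ B * A)) := by gcongr
        _ = ρ ^ 2 * c0 ρ κ B * (X * (A * 1)) := by ring
        _ ≤ _ := by gcongr
    have t4 : |ρ ^ 2 * (ψ z.1 * ((Thp ρ k V z * a + Thq ρ k V z * d) * y))|
        ≤ ρ ^ 2 * (cP ρ κ B + cQ ρ κ) * (X * (A * S)) := by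
      rw [abs_mul, abs_mul, abs_mul, abs_of_nonneg (sq_nonneg ρ)]
      have : |Thp ρ k V z * a + Thq ρ k V z * d| ≤ (cP ρ κ B + cQ ρ κ) * S := by
        refine (abs_add_le _ _).trans ?_
        rw [abs_mul, abs_mul, add_mul]
        gcongr
      calc ρ ^ 2 * (|ψ z.1| * (|Thp ρ k V z * a + Thq ρ k V z * d| * |y|))
          ≤ ρ ^ 2 * (X * ((cP ρ κ B + cQ ρ κ) * S * A)) := by gcongr
        _ = _ := by ring
    have habs : |(|x| + |y|)| = A := abs_of_nonneg A0
    have habs2 : |(1 + |a| + |b| + |d|)| = S := abs_of_nonneg S0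
    rw [habs, habs2]
    have tri : ∀ p q r s : ℝ, |p - q + r + s| ≤ |p| + |q| + |r| + |s| := by
      intro p q r s
      have e1 := abs_add_le (p - q + r) s
      have e2 := abs_add_le (p - q) r
      have e3 := abs_sub p q
      linarith
    refine (tri _ _ _ _).trans ?_
    have e5 : c * (X * (A * S)) = κ * (ρ * B + 1) * (X * (A * S)) + ρ ^ 2 * cP ρ κ B * (X * (A * S))
        + ρ ^ 2 * c0 ρ κ B * (X * (A * S)) + ρ ^ 2 * (cP ρ κ B + cQ ρ κ) * (X * (A * S)) := by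
      rw [hcdef]; ring
    rw [e5]
    exact add_le_add (add_le_add (add_le_add t1 t2) t3) t4


/-- the functional is Lipschitz for the energy norm, on bounded sets. -/
theorem lam_diff {ρ κ B M : ℝ} (hρ : 0 < ρ) (hκ : 0 ≤ κ) (hB : 0 ≤ B)
    {χ χ₁ : ℝ → ℝ} (hs : ContDiff ℝ (⊤ : ℕ∞) χ) (hc : HasCompactSupport χ)
    (hχ₁ : IsCut χ₁) (hdom : Dom χ χ₁) :
    ∃ D : ℝ, 0 ≤ D ∧ ∀ k, KB κ k → ∀ V V', Sm V → Per V → Bd ρ B V → L2B ρ M χ₁ V →
      Sm V' → Per V' → Bd ρ B V' → L2B ρ M χ₁ V' → ∀ δ : ℝ, 0 ≤ δ →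
      J (fun z => χ₁ z.1 * (V z - V' z) ^ 2) ≤ δ ^ 2 →
      J (fun z => χ₁ z.1 * (dX V z - dX V' z) ^ 2) ≤ δ ^ 2 →
      J (fun z => χ₁ z.1 * (dT V z - dT V' z) ^ 2) ≤ δ ^ 2 →
      |J (fun z => χ z.1 * FF ρ k V z) - J (fun z => χ z.1 * FF ρ k V' z)| ≤ D * δ := by
  set Q : ℝ := J (fun z => χ₁ z.1) with hQ
  have hQ0 : 0 ≤ Q := J_nonneg fun z => hχ₁.nonneg _
  have hP0 := cP_nonneg (ρ := ρ) hκ hB
  have hq0 := cQ_nonneg (ρ := ρ) hκ
  have h00 := c0_nonneg (ρ := ρ) hκ hB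
  set c : ℝ := (ρ / 2) * (κ * ((2 * B * (ρ + 1)) / ρ ^ 2)) + (cP ρ κ B * (ρ + 1) + cQ ρ κ)
    + ρ * c0 ρ κ B + c0 ρ κ B + (cP ρ κ B + cQ ρ κ) with hcdef
  have hc0 : 0 ≤ c := by positivity
  refine ⟨c * (3 * Real.sqrt (4 * (Q + 3 * M))), by positivity,
    fun k hk V V' hV hVp hVB hVM hV' hVp' hVB' hVM' δ hδ h0 h1 h2 => ?_⟩
  have ck := hk.smooth.continuous
  have cc0 := hs.continuous
  have cc1 := (smooth_deriv hs).continuous
  have cV := hV.cont
  have cV' := hV'.cont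
  have cVx := hV.dX.cont
  have cVx' := hV'.dX.cont
  have cVt := hV.dT.cont
  have cVt' := hV'.dT.cont
  have cDX := (DX_smooth ρ hV').cont
  have cDT := (DT_smooth ρ hV).cont
  have cDT' := (DT_smooth ρ hV').cont
  have cQx := hV'.dT.dX.cont
  have cQx0 := hV.dT.dX.cont
  have cTh := Th_cont ρ hk hV
  have cTh' := Th_cont ρ hk hV'
  have cTp' := Thp_cont ρ hk hV'
  have cTq' := Thq_cont ρ hk hV'
  have cR := RR_cont ρ hV
  have cR' := RR_cont ρ hV'
  have cKK := KK_cont ck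
  -- integration by parts
  have hX := J_dX (F := fun z => χ z.1 * (Th ρ k V' z * (dT V z - dT V' z)))
    (F' := fun z => deriv χ z.1 * (Th ρ k V' z * (dT V z - dT V' z)) + χ z.1 *
      ((Thp ρ k V' z * DX ρ V' z + Thq ρ k V' z * dX (dT V') z) * (dT V z - dT V' z)
        + Th ρ k V' z * (dX (dT V) z - dX (dT V') z))) ?_ ?_ ?_
  · obtain ⟨x1, x2⟩ := hX
    set G : ℝ × ℝ → ℝ := fun z => χ z.1 * (-(ρ / 2) * (KK k (RR ρ V z) - KK k (RR ρ V' z)))
      + χ z.1 * ((Th ρ k V z - Th ρ k V' z) * DT ρ V z)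
      + χ z.1 * (Th ρ k V' z * (ρ * (dT V z - dT V' z)))
      - deriv χ z.1 * (Th ρ k V' z * (dT V z - dT V' z))
      - χ z.1 * ((Thp ρ k V' z * DX ρ V' z + Thq ρ k V' z * dX (dT V') z)
        * (dT V z - dT V' z)) with hG
    have cG : CX G := by
      refine CX.sub (CX.sub (CX.add (CX.add ?_ ?_) ?_) ?_) ?_
      · exact cx_mul cc0 hc (by fun_prop)
      · exact cx_mul cc0 hc (by fun_prop)
      · exact cx_mul cc0 hc (by fun_prop)
      · exact cx_mul cc1 hc.deriv (by fun_prop)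
      · exact cx_mul cc0 hc (by fun_prop)
    have eG : J (fun z => χ z.1 * FF ρ k V z) - J (fun z => χ z.1 * FF ρ k V' z) = J G := by
      rw [← J_sub (cx_mul cc0 hc (FF_cont ρ hk hV)) (cx_mul cc0 hc (FF_cont ρ hk hV'))]
      have e1 : J (fun z => G z + (deriv χ z.1 * (Th ρ k V' z * (dT V z - dT V' z)) + χ z.1 *
          ((Thp ρ k V' z * DX ρ V' z + Thq ρ k V' z * dX (dT V') z) * (dT V z - dT V' z)
          + Th ρ k V' z * (dX (dT V) z - dX (dT V') z)))) = J G := by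
        rw [J_add cG x1, x2, add_zero]
      rw [← e1]
      congr 1; funext z
      rw [FF_eq ρ k hV, FF_eq ρ k hV', hG]
      unfold DT
      ring
    rw [eG]
    have key := J_le_of_prod hχ₁ (c := c) hc0 (F := G)
      (A := fun z => |V z - V' z| + |dX V z - dX V' z| + |dT V z - dT V' z|)
      (B := fun z => 1 + |DX ρ V' z| + |DT ρ V z| + |dX (dT V') z|)
      (by fun_prop) (by fun_prop) ?_
    · refine key.trans ?_
      rw [mul_assoc]
      refine mul_le_mul_of_nonneg_left ?_ hc0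
      have a1 : Real.sqrt (J (fun z => χ₁ z.1 * (|V z - V' z| + |dX V z - dX V' z|
          + |dT V z - dT V' z|) ^ 2)) ≤ 3 * δ := by
        apply Real.sqrt_le_iff.2
        refine ⟨by positivity, ?_⟩
        have b1 : J (fun z => χ₁ z.1 * (|V z - V' z| + |dX V z - dX V' z|
            + |dT V z - dT V' z|) ^ 2)
            ≤ J (fun z => 3 * (χ₁ z.1 * (V z - V' z) ^ 2 + (χ₁ z.1 * (dX V z - dX V' z) ^ 2
              + χ₁ z.1 * (dT V z - dT V' z) ^ 2))) := by
          refine J_mono (hχ₁.mul_cx (by fun_prop)) (CX.const_mul _ (CX.add (hχ₁.mul_cx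
            (by fun_prop)) (CX.add (hχ₁.mul_cx (by fun_prop)) (hχ₁.mul_cx (by fun_prop)))))
            fun z => ?_
          have b2 : (|V z - V' z| + |dX V z - dX V' z| + |dT V z - dT V' z|) ^ 2
              ≤ 3 * ((V z - V' z) ^ 2 + (dX V z - dX V' z) ^ 2 + (dT V z - dT V' z) ^ 2) := by
            rw [← sq_abs (V z - V' z), ← sq_abs (dX V z - dX V' z), ← sq_abs (dT V z - dT V' z)]
            nlinarith [sq_nonneg (|V z - V' z| - |dX V z - dX V' z|),
              sq_nonneg (|V z - V' z| - |dT V z - dT V' z|),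
              sq_nonneg (|dX V z - dX V' z| - |dT V z - dT V' z|)]
          have := mul_le_mul_of_nonneg_left b2 (hχ₁.nonneg z.1)
          linarith
        rw [J_const_mul, J_add (hχ₁.mul_cx (by fun_prop)) (CX.add (hχ₁.mul_cx (by fun_prop))
          (hχ₁.mul_cx (by fun_prop))), J_add (hχ₁.mul_cx (by fun_prop))
          (hχ₁.mul_cx (by fun_prop))] at b1
        nlinarith
      have a2 : Real.sqrt (J (fun z => χ₁ z.1 * (1 + |DX ρ V' z| + |DT ρ V z|
          + |dX (dT V') z|) ^ 2)) ≤ Real.sqrt (4 * (Q + 3 * M)) := by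
        apply Real.sqrt_le_sqrt
        have b1 : J (fun z => χ₁ z.1 * (1 + |DX ρ V' z| + |DT ρ V z| + |dX (dT V') z|) ^ 2)
            ≤ J (fun z => 4 * ((χ₁ z.1 + χ₁ z.1 * DX ρ V' z ^ 2) + (χ₁ z.1 * DT ρ V z ^ 2
              + χ₁ z.1 * dX (dT V') z ^ 2))) := by
          refine J_mono (hχ₁.mul_cx (by fun_prop)) (CX.const_mul _ (CX.add (CX.add hχ₁.cx
            (hχ₁.mul_cx (by fun_prop))) (CX.add (hχ₁.mul_cx (by fun_prop))
            (hχ₁.mul_cx (by fun_prop))))) fun z => ?_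
          have b2 : (1 + |DX ρ V' z| + |DT ρ V z| + |dX (dT V') z|) ^ 2
              ≤ 4 * (1 + DX ρ V' z ^ 2 + DT ρ V z ^ 2 + dX (dT V') z ^ 2) := by
            rw [← sq_abs (DX ρ V' z), ← sq_abs (DT ρ V z), ← sq_abs (dX (dT V') z)]
            nlinarith [sq_nonneg (1 - |DX ρ V' z|), sq_nonneg (1 - |DT ρ V z|),
              sq_nonneg (1 - |dX (dT V') z|), sq_nonneg (|DX ρ V' z| - |DT ρ V z|),
              sq_nonneg (|DX ρ V' z| - |dX (dT V') z|), sq_nonneg (|DT ρ V z| - |dX (dT V') z|)]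
          have := mul_le_mul_of_nonneg_left b2 (hχ₁.nonneg z.1)
          linarith
        rw [J_const_mul, J_add (CX.add hχ₁.cx (hχ₁.mul_cx (by fun_prop)))
          (CX.add (hχ₁.mul_cx (by fun_prop)) (hχ₁.mul_cx (by fun_prop))),
          J_add hχ₁.cx (hχ₁.mul_cx (by fun_prop)),
          J_add (hχ₁.mul_cx (by fun_prop)) (hχ₁.mul_cx (by fun_prop))] at b1
        have c1 := hVM'.dx
        have c2 := hVM.dt
        have c3 := hVM'.qx
        rw [← hQ] at b1
        linarith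
      calc _ ≤ (3 * δ) * Real.sqrt (4 * (Q + 3 * M)) :=
            mul_le_mul a1 a2 (Real.sqrt_nonneg _) (by positivity)
        _ = _ := by ring
    · intro z
      have d0 := hχ₁.nonneg z.1
      have d1 := (hdom z.1).1
      have d2 := (hdom z.1).2
      have dp := hVB.p z
      have dp' := hVB'.p z
      have dq := hVB.q z
      have dq' := hVB'.q z
      have d5 := Thp_le hk hVB' z
      have d6 := Thq_le (ρ := ρ) (V := V') hk z
      have d7 := Th_le hk hVB' z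
      have hTl := Theta_lip (ρ := ρ) hk dp dq dp' (q' := dT V' z)
      have hKl := KK_lip hk (RR ρ V z) (RR ρ V' z)
      set u := V z - V' z with hu
      set x := dX V z - dX V' z with hx
      set y := dT V z - dT V' z with hy
      set a := DX ρ V' z with ha
      set b := DT ρ V z with hb
      set d := dX (dT V') z with hd
      set X := χ₁ z.1 with hXX
      have hX0 : 0 ≤ X := d0
      set A := |u| + |x| + |y| with hA
      set S := 1 + |a| + |b| + |d| with hS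
      have A00 : |u| ≤ A := by rw [hA]; linarith [abs_nonneg y, abs_nonneg x]
      have A1 : |x| ≤ A := by rw [hA]; linarith [abs_nonneg y, abs_nonneg u]
      have A2 : |y| ≤ A := by rw [hA]; linarith [abs_nonneg x, abs_nonneg u]
      have A0 : 0 ≤ A := by positivity
      have S0 : 0 ≤ S := by positivity
      have S1 : 1 ≤ S := by rw [hS]; linarith [abs_nonneg a, abs_nonneg b, abs_nonneg d]
      have Sa : |a| ≤ S := by rw [hS]; linarith [abs_nonneg a, abs_nonneg b, abs_nonneg d]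
      have Sb : |b| ≤ S := by rw [hS]; linarith [abs_nonneg a, abs_nonneg b, abs_nonneg d]
      have Sd : |d| ≤ S := by rw [hS]; linarith [abs_nonneg a, abs_nonneg b, abs_nonneg d]
      have AS : A ≤ A * S := le_mul_of_one_le_right A0 S1
      -- P difference
      have eP : (ρ * V z + dX V z) - (ρ * V' z + dX V' z) = ρ * u + x := by rw [hu, hx]; ring
      have bP : |ρ * u + x| ≤ ρ * |u| + |x| := by
        refine (abs_add_le _ _).trans ?_
        rw [abs_mul, abs_of_pos hρ]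
      have bRR : |RR ρ V z - RR ρ V' z| ≤ (2 * B * (ρ + 1)) / ρ ^ 2 * A := by
        have e1 : RR ρ V z - RR ρ V' z = ((ρ * u + x) * ((ρ * V z + dX V z) + (ρ * V' z + dX V' z))
            + y * (dT V z + dT V' z)) / ρ ^ 2 := by
          unfold RR
          rw [← eP, hy]; ring
        rw [e1, abs_div, abs_of_nonneg (sq_nonneg ρ), div_mul_eq_mul_div]
        apply div_le_div_of_nonneg_right _ (sq_nonneg ρ)
        have e2 : |(ρ * V z + dX V z) + (ρ * V' z + dX V' z)| ≤ 2 * B := by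
          refine (abs_add_le _ _).trans ?_; linarith
        have e3 : |dT V z + dT V' z| ≤ 2 * B := by
          refine (abs_add_le _ _).trans ?_; linarith
        refine (abs_add_le _ _).trans ?_
        rw [abs_mul, abs_mul]
        have e4 : |ρ * u + x| * |(ρ * V z + dX V z) + (ρ * V' z + dX V' z)|
            ≤ (ρ * |u| + |x|) * (2 * B) := by gcongr
        have e5 : |y| * |dT V z + dT V' z| ≤ |y| * (2 * B) := by gcongr
        have e6 : 0 ≤ B * |u| := by positivity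
        have e7 : 0 ≤ B * ρ * |x| := by positivity
        have e8 : 0 ≤ B * ρ * |y| := by positivity
        rw [hA]
        nlinarith
      have t1 : |χ z.1 * (-(ρ / 2) * (KK k (RR ρ V z) - KK k (RR ρ V' z)))|
          ≤ (ρ / 2) * (κ * ((2 * B * (ρ + 1)) / ρ ^ 2)) * (X * (A * S)) := by
        rw [abs_mul, abs_mul, abs_neg, abs_of_pos (show 0 < ρ / 2 by positivity)]
        calc |χ z.1| * (ρ / 2 * |KK k (RR ρ V z) - KK k (RR ρ V' z)|)
            ≤ X * (ρ / 2 * (κ * ((2 * B * (ρ + 1)) / ρ ^ 2 * A))) := by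
              gcongr
              exact hKl.trans (by gcongr)
          _ = (ρ / 2) * (κ * ((2 * B * (ρ + 1)) / ρ ^ 2)) * (X * A) := by ring
          _ ≤ _ := by gcongr
      have bT : |Th ρ k V z - Th ρ k V' z| ≤ (cP ρ κ B * (ρ + 1) + cQ ρ κ) * A := by
        refine hTl.trans ?_
        rw [eP]
        have e1 : ρ * |u| + |x| ≤ (ρ + 1) * A := by
          have e6 : 0 ≤ ρ * |x| := by positivity
          have e7 : 0 ≤ ρ * |y| := by positivity
          rw [hA]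
          nlinarith [abs_nonneg u, abs_nonneg y]
        have e2 : cP ρ κ B * |ρ * u + x| ≤ cP ρ κ B * ((ρ + 1) * A) := by
          gcongr
          exact bP.trans e1
        have e3 : cQ ρ κ * |y| ≤ cQ ρ κ * A := by gcongr
        linarith
      have t2 : |χ z.1 * ((Th ρ k V z - Th ρ k V' z) * b)|
          ≤ (cP ρ κ B * (ρ + 1) + cQ ρ κ) * (X * (A * S)) := by
        rw [abs_mul, abs_mul]
        calc |χ z.1| * (|Th ρ k V z - Th ρ k V' z| * |b|)
            ≤ X * ((cP ρ κ B * (ρ + 1) + cQ ρ κ) * A * S) := by gcongr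
          _ = _ := by ring
      have t3 : |χ z.1 * (Th ρ k V' z * (ρ * y))| ≤ ρ * c0 ρ κ B * (X * (A * S)) := by
        rw [abs_mul, abs_mul, abs_mul, abs_of_pos hρ]
        calc |χ z.1| * (|Th ρ k V' z| * (ρ * |y|))
            ≤ X * (c0 ρ κ B * (ρ * A)) := by gcongr
          _ = ρ * c0 ρ κ B * (X * A) := by ring
          _ ≤ _ := by gcongr
      have t4 : |deriv χ z.1 * (Th ρ k V' z * y)| ≤ c0 ρ κ B * (X * (A * S)) := by
        rw [abs_mul, abs_mul]
        calc |deriv χ z.1| * (|Th ρ k V' z| * |y|)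
            ≤ X * (c0 ρ κ B * A) := by gcongr
          _ = c0 ρ κ B * (X * A) := by ring
          _ ≤ _ := by gcongr
      have t5 : |χ z.1 * ((Thp ρ k V' z * a + Thq ρ k V' z * d) * y)|
          ≤ (cP ρ κ B + cQ ρ κ) * (X * (A * S)) := by
        rw [abs_mul, abs_mul]
        have : |Thp ρ k V' z * a + Thq ρ k V' z * d| ≤ (cP ρ κ B + cQ ρ κ) * S := by
          refine (abs_add_le _ _).trans ?_
          rw [abs_mul, abs_mul, add_mul]
          gcongr
        calc |χ z.1| * (|Thp ρ k V' z * a + Thq ρ k V' z * d| * |y|)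
            ≤ X * ((cP ρ κ B + cQ ρ κ) * S * A) := by gcongr
          _ = _ := by ring
      have habs : |(|u| + |x| + |y|)| = A := abs_of_nonneg A0
      have habs2 : |(1 + |a| + |b| + |d|)| = S := abs_of_nonneg S0
      rw [habs, habs2]
      have tri : ∀ p q r s t : ℝ, |p + q + r - s - t| ≤ |p| + |q| + |r| + |s| + |t| := by
        intro p q r s t
        have e1 := abs_sub (p + q + r - s) t
        have e2 := abs_sub (p + q + r) s
        have e3 := abs_add_le (p + q) r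
        have e4 := abs_add_le p q
        linarith
      refine (tri _ _ _ _ _).trans ?_
      have e5 : c * (X * (A * S)) = (ρ / 2) * (κ * ((2 * B * (ρ + 1)) / ρ ^ 2)) * (X * (A * S))
          + (cP ρ κ B * (ρ + 1) + cQ ρ κ) * (X * (A * S)) + ρ * c0 ρ κ B * (X * (A * S))
          + c0 ρ κ B * (X * (A * S)) + (cP ρ κ B + cQ ρ κ) * (X * (A * S)) := by
        rw [hcdef]; ring
      rw [e5]
      exact add_le_add (add_le_add (add_le_add (add_le_add t1 t2) t3) t4) t5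
  · exact (XS.of_fst hc).mul_left _
  · intro x t
    exact (hasDerivAt_of_smooth hs x).mul ((Th_hX ρ hk hV' x t).mul
      ((hV.dT.hX x t).sub (hV'.dT.hX x t)))
  · fun_prop

end Pool.Agent.Helper42.Fr
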