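import Pool.Agent.Helper42.Fr.Est

set_option autoImplicit false

open MeasureTheory Filter Topology

namespace Pool.Agent.Helper42.Fr

/-- the functional on the class (limit of the functional of mollifications). -/
noncomputable def LamC (ρ : ℝ) (k χ : ℝ → ℝ) (v : ℝ × ℝ → ℝ) : ℝ :=
  limUnder (𝓝[>] (0 : ℝ)) (fun ε => Lam ρ k χ (moll ε v))

section cls

variable {ρ C : ℝ} {h : ℝ → ℝ}

lemma moll_Bd (hh : IndH ρ C h) {v : ℝ × ℝ → ℝ} (hv : InC ρ C h v) {ε : ℝ} (hε : 0 < ε) :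
    Bd ρ ((ρ + 1) * C) (moll ε v) := by
  have hC := hh.C_nonneg
  have hρ := hh.rho_pos
  constructor
  · intro z
    refine (abs_add_le _ _).trans ?_
    rw [abs_mul, abs_of_pos hρ]
    have h1 := moll_bound hε hv.bdd z
    have h2 := moll_dX_le hC hv hε z
    have h3 : ρ * |moll ε v z| ≤ ρ * C := mul_le_mul_of_nonneg_left h1 hρ.le
    linarith
  · intro z
    have h2 := moll_dT_le hC hv hε z
    have h3 : 0 ≤ ρ * C := by positivity
    linarith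

lemma moll_L2B (hh : IndH ρ C h) {χ : ℝ → ℝ} (hχ : IsCut χ) :
    ∃ M : ℝ, 0 ≤ M ∧ ∀ v, InC ρ C h v → ∀ ε : ℝ, 0 < ε → ε ≤ 1 → L2B ρ M χ (moll ε v) := by
  obtain ⟨M, hM0, hM⟩ := sec_bound hh hχ
  obtain ⟨M', hM0', hM'⟩ := D_bound hh hχ
  refine ⟨max M M', le_max_of_le_left hM0, fun v hv ε hε hε1 => ⟨?_, ?_, ?_⟩⟩
  · exact (hM' v hv ε hε hε1).1.trans (le_max_right _ _)
  · exact (hM' v hv ε hε hε1).2.trans (le_max_right _ _)
  · exact (hM v hv ε hε hε1).2.trans (le_max_left _ _)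

/-- uniform Cauchy property. -/
theorem lam_cauchy (hh : IndH ρ C h) {χ : ℝ → ℝ} (hχ : IsCut χ) (κ : ℝ) :
    ∃ M : ℝ, 0 ≤ M ∧ ∀ k, KB κ k → ∀ v, InC ρ C h v → ∀ ε ε' : ℝ, 0 < ε → ε ≤ 1 →
      0 < ε' → ε' ≤ 1 →
      |Lam ρ k χ (moll ε v) - Lam ρ k χ (moll ε' v)| ≤ M * Real.sqrt (ε + ε') := by
  rcases lt_or_ge κ 0 with hκ | hκ
  · refine ⟨0, le_rfl, fun k hk => ?_⟩
    exact absurd hk.nonneg (not_le.2 hκ)
  have hC := hh.C_nonneg
  have hρ := hh.rho_pos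
  obtain ⟨χ₁, hχ₁, hdom⟩ := exists_Dom hχ.smooth hχ.cpt
  obtain ⟨M₂, hM₂0, hM₂⟩ := moll_L2B hh hχ₁
  obtain ⟨Mg, hMg0, hMg⟩ := grad_diff hh hχ₁
  obtain ⟨D, hD0, hD⟩ := lam_diff (M := M₂) hρ hκ (show 0 ≤ (ρ + 1) * C by positivity)
    hχ.smooth hχ.cpt hχ₁ hdom
  set Q : ℝ := J (fun z => χ₁ z.1) with hQ
  have hQ0 : 0 ≤ Q := J_nonneg fun z => hχ₁.nonneg _
  set N : ℝ := Mg + 8 * C ^ 2 * Q with hN
  have hN0 : 0 ≤ N := by positivity
  refine ⟨D * Real.sqrt N, by positivity, fun k hk v hv ε ε' hε hε1 hε' hε1' => ?_⟩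
  have sV : Sm (moll ε v) := moll_smooth hε hv.locInt
  have sV' : Sm (moll ε' v) := moll_smooth hε' hv.locInt
  have pV : Per (moll ε v) := moll_per ε hv.perV
  have pV' : Per (moll ε' v) := moll_per ε' hv.perV
  have cV := sV.cont
  have cV' := sV'.cont
  have cVx := sV.dX.cont
  have cVx' := sV'.dX.cont
  have cVt := sV.dT.cont
  have cVt' := sV'.dT.cont
  rw [Lam_eq ρ hk sV hχ.smooth.continuous hχ.cpt, Lam_eq ρ hk sV' hχ.smooth.continuous hχ.cpt,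
    mul_assoc, ← Real.sqrt_mul hN0]
  have hg := hMg v hv ε ε' hε hε1 hε' hε1'
  rw [dX_sub sV sV', dT_sub sV sV'] at hg
  have hsum : 0 ≤ N * (ε + ε') := by positivity
  refine hD k hk _ _ sV pV (moll_Bd hh hv hε) (hM₂ v hv ε hε hε1) sV' pV' (moll_Bd hh hv hε')
    (hM₂ v hv ε' hε' hε1') _ (Real.sqrt_nonneg _) ?_ ?_ ?_
  · rw [Real.sq_sqrt hsum]
    have h1 : J (fun z => χ₁ z.1 * (moll ε v z - moll ε' v z) ^ 2)
        ≤ J (fun z => (2 * C * (ε + ε')) ^ 2 * χ₁ z.1) := by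
      refine J_mono (hχ₁.mul_cx (by fun_prop)) (hχ₁.cx.const_mul _) fun z => ?_
      have h2 : |moll ε v z - moll ε' v z| ≤ 2 * C * (ε + ε') := by
        have h1 := moll_close hC hv hε z
        have h2 := moll_close hC hv hε' z
        have h3 : moll ε v z - moll ε' v z = (moll ε v z - v z) - (moll ε' v z - v z) := by ring
        rw [h3]
        refine (abs_sub _ _).trans ?_
        linarith
      have h3 := sq_le_sq' (by linarith [(abs_le.1 h2).1]) (abs_le.1 h2).2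
      have := mul_le_mul_of_nonneg_left h3 (hχ₁.nonneg z.1)
      linarith
    rw [J_const_mul] at h1
    refine h1.trans ?_
    have h4 : (2 * C * (ε + ε')) ^ 2 * Q ≤ 8 * C ^ 2 * Q * (ε + ε') := by
      have h5 : (2 * C * (ε + ε')) ^ 2 = 4 * C ^ 2 * (ε + ε') * (ε + ε') := by ring
      rw [h5]
      have h6 : 0 ≤ C ^ 2 * Q * (ε + ε') := by positivity
      nlinarith
    have h7 : 0 ≤ Mg * (ε + ε') := by positivity
    rw [hN]
    linarith
  · rw [Real.sq_sqrt hsum]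
    have h1 : J (fun z => χ₁ z.1 * (dX (moll ε v) z - dX (moll ε' v) z) ^ 2)
        ≤ J (fun z => χ₁ z.1 * ((dX (moll ε v) z - dX (moll ε' v) z) ^ 2
          + (dT (moll ε v) z - dT (moll ε' v) z) ^ 2)) := by
      refine J_mono (hχ₁.mul_cx (by fun_prop)) (hχ₁.mul_cx (by fun_prop)) fun z => ?_
      refine mul_le_mul_of_nonneg_left ?_ (hχ₁.nonneg z.1)
      linarith [sq_nonneg (dT (moll ε v) z - dT (moll ε' v) z)]
    refine h1.trans (hg.trans ?_)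
    have h7 : 0 ≤ 8 * C ^ 2 * Q * (ε + ε') := by positivity
    rw [hN]
    linarith
  · rw [Real.sq_sqrt hsum]
    have h1 : J (fun z => χ₁ z.1 * (dT (moll ε v) z - dT (moll ε' v) z) ^ 2)
        ≤ J (fun z => χ₁ z.1 * ((dX (moll ε v) z - dX (moll ε' v) z) ^ 2
          + (dT (moll ε v) z - dT (moll ε' v) z) ^ 2)) := by
      refine J_mono (hχ₁.mul_cx (by fun_prop)) (hχ₁.mul_cx (by fun_prop)) fun z => ?_
      refine mul_le_mul_of_nonneg_left ?_ (hχ₁.nonneg z.1)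
      linarith [sq_nonneg (dX (moll ε v) z - dX (moll ε' v) z)]
    refine h1.trans (hg.trans ?_)
    have h7 : 0 ≤ 8 * C ^ 2 * Q * (ε + ε') := by positivity
    rw [hN]
    linarith

/-- the limit exists. -/
theorem lamC_tendsto (hh : IndH ρ C h) {χ : ℝ → ℝ} (hχ : IsCut χ) {κ : ℝ} {k : ℝ → ℝ}
    (hk : KB κ k) {v : ℝ × ℝ → ℝ} (hv : InC ρ C h v) :
    Tendsto (fun ε => Lam ρ k χ (moll ε v)) (𝓝[>] (0 : ℝ)) (𝓝 (LamC ρ k χ v)) := by
  obtain ⟨M, hM0, hM⟩ := lam_cauchy hh hχ κ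
  have hc : Cauchy (map (fun ε => Lam ρ k χ (moll ε v)) (𝓝[>] (0 : ℝ))) := by
    rw [Metric.cauchy_iff]
    refine ⟨inferInstance, fun e he => ?_⟩
    -- choose a threshold
    set r : ℝ := min 1 ((e / (2 * (M + 1))) ^ 2 / 2) with hr
    have hr0 : 0 < r := by positivity
    have hr1 : r ≤ 1 := min_le_left _ _
    have hr2 : r ≤ (e / (2 * (M + 1))) ^ 2 / 2 := min_le_right _ _
    refine ⟨(fun ε => Lam ρ k χ (moll ε v)) '' Set.Ioo 0 r, image_mem_map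
      (Ioo_mem_nhdsGT hr0), ?_⟩
    rintro _ ⟨ε, ⟨hε, hεr⟩, rfl⟩ _ ⟨ε', ⟨hε', hεr'⟩, rfl⟩
    rw [Real.dist_eq]
    have h1 := hM k hk v hv ε ε' hε (hεr.le.trans hr1) hε' (hεr'.le.trans hr1)
    have h2 : Real.sqrt (ε + ε') ≤ e / (2 * (M + 1)) := by
      apply Real.sqrt_le_iff.2
      exact ⟨by positivity, by linarith⟩
    have h3 : M * Real.sqrt (ε + ε') ≤ M * (e / (2 * (M + 1))) := mul_le_mul_of_nonneg_left h2 hM0
    have h4 : M * (e / (2 * (M + 1))) < e := by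
      have : M * (e / (2 * (M + 1))) = e * (M / (2 * (M + 1))) := by ring
      rw [this]
      have h5 : M / (2 * (M + 1)) < 1 := by
        rw [div_lt_one (by positivity)]
        linarith
      nlinarith
    linarith
  obtain ⟨L, hL⟩ := cauchy_map_iff_exists_tendsto.1 hc
  have : LamC ρ k χ v = L := hL.limUnder_eq
  rw [this]
  exact hL

/-- (A9) uniform modulus. -/
theorem blockA_mod (hh : IndH ρ C h) {χ : ℝ → ℝ} (hχ : IsCut χ) (κ : ℝ) :
    ∃ M : ℝ, ∀ k, KB κ k → ∀ v, InC ρ C h v → ∀ ε : ℝ, 0 < ε → ε < 1 →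
      |Lam ρ k χ (moll ε v) - LamC ρ k χ v| ≤ M * Real.sqrt ε := by
  obtain ⟨M, hM0, hM⟩ := lam_cauchy hh hχ κ
  refine ⟨M, fun k hk v hv ε hε hε1 => ?_⟩
  have h1 := lamC_tendsto hh hχ hk hv
  have h2 : Tendsto (fun ε' => |Lam ρ k χ (moll ε v) - Lam ρ k χ (moll ε' v)|) (𝓝[>] (0 : ℝ))
      (𝓝 |Lam ρ k χ (moll ε v) - LamC ρ k χ v|) := (tendsto_const_nhds.sub h1).abs
  have h3 : Tendsto (fun ε' => M * Real.sqrt (ε + ε')) (𝓝[>] (0 : ℝ)) (𝓝 (M * Real.sqrt ε)) := by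
    have hc : Continuous fun ε' : ℝ => M * Real.sqrt (ε + ε') := by fun_prop
    have := (hc.tendsto 0).mono_left (nhdsWithin_le_nhds (s := Set.Ioi 0))
    simpa using this
  refine le_of_tendsto_of_tendsto h2 h3 ?_
  filter_upwards [Ioo_mem_nhdsGT (show (0 : ℝ) < 1 by norm_num)] with ε' hε'
  exact hM k hk v hv ε ε' hε hε1.le hε'.1 hε'.2.le

/-- (A3) in the form used by the level argument. -/
theorem blockA_A3 (hh : IndH ρ C h) {χ : ℝ → ℝ} (hχ : IsCut χ) :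
    ∃ M : ℝ, ∀ v, InC ρ C h v → ∀ ε : ℝ, 0 < ε → ε < 1 →
      J (fun z => χ z.1 * (dT (dX (moll ε v)) z) ^ 2) ≤ M := by
  obtain ⟨M, _, hM⟩ := sec_bound hh hχ
  refine ⟨M, fun v hv ε hε hε1 => ?_⟩
  have := (hM v hv ε hε hε1.le).2
  rw [dT_dX_comm (moll_smooth hε hv.locInt)]
  exact this

end cls

end Pool.Agent.Helper42.Fr
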