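import Pool.Agent.Helper42.Fr.Small

set_option autoImplicit false

open MeasureTheory Filter Topology
open scoped Convolution

namespace Pool.Agent.Helper42.Fr

/-! ### swapping integrals -/

lemma interval_swap {Z : Set ℝ} (hZ : MeasurableSet Z) {a₀ b₀ : ℝ} (hZb : Z ⊆ Set.Icc a₀ b₀)
    {g : ℝ → ℝ → ℝ} (hg : Continuous (Function.uncurry g)) (a b : ℝ) :
    ∫ s in a..b, ∫ t in Z, g s t = ∫ t in Z, ∫ s in a..b, g s t := by
  have hint : Integrable (Function.uncurry g)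
      ((volume.restrict (Set.uIoc a b)).prod (volume.restrict Z)) := by
    rw [Measure.prod_restrict]
    have hK : IsCompact (Set.uIcc a b ×ˢ Set.Icc a₀ b₀) := isCompact_uIcc.prod isCompact_Icc
    have h1 : IntegrableOn (Function.uncurry g) (Set.uIcc a b ×ˢ Set.Icc a₀ b₀)
        (volume.prod volume) := hg.continuousOn.integrableOn_compact hK
    exact h1.mono_set (Set.prod_mono Set.uIoc_subset_uIcc hZb)
  simp_rw [intervalIntegral.intervalIntegral_eq_integral_uIoc]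
  rw [integral_smul]
  congr 1
  exact integral_integral_swap hint

lemma J_swap {Z : Set ℝ} (hZ : MeasurableSet Z) {a₀ b₀ : ℝ} (hZb : Z ⊆ Set.Icc a₀ b₀)
    {G : (ℝ × ℝ) → ℝ → ℝ} (hG : Continuous (Function.uncurry G)) {R : ℝ}
    (hR : ∀ z t, R < |z.1| → G z t = 0) :
    Integrable (fun t => J (fun z => G z t)) (volume.restrict Z) ∧
    J (fun z => ∫ t in Z, G z t) = ∫ t in Z, J (fun z => G z t) := by
  have hint : Integrable (Function.uncurry G) (mu2.prod (volume.restrict Z)) := by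
    have hK : IsCompact ((Set.Icc (-R) R ×ˢ Set.Icc (0 : ℝ) (2 * Real.pi)) ×ˢ Set.Icc a₀ b₀) :=
      (isCompact_Icc.prod isCompact_Icc).prod isCompact_Icc
    have h1 : IntegrableOn (Function.uncurry G)
        ((Set.Icc (-R) R ×ˢ Set.Icc (0 : ℝ) (2 * Real.pi)) ×ˢ Set.Icc a₀ b₀)
        (mu2.prod (volume.restrict Z)) := hG.continuousOn.integrableOn_compact hK
    refine h1.integrable_of_ae_notMem_eq_zero ?_
    have h4 : ∀ᵐ p ∂(mu2.prod (volume.restrict Z)), p.1.2 ∈ Set.Ioc (0 : ℝ) (2 * Real.pi) :=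
      Measure.quasiMeasurePreserving_fst.ae mu2_ae
    have h5 : ∀ᵐ p ∂(mu2.prod (volume.restrict Z)), p.2 ∈ Z :=
      Measure.quasiMeasurePreserving_snd.ae (ae_restrict_mem hZ)
    filter_upwards [h4, h5] with p hp hp' hpn
    obtain ⟨z, t⟩ := p
    show G z t = 0
    apply hR
    by_contra hcon
    push Not at hcon
    exact hpn ⟨⟨abs_le.1 hcon, Set.Ioc_subset_Icc_self hp⟩, hZb hp'⟩
  refine ⟨hint.integral_prod_right, ?_⟩
  unfold J
  exact integral_integral_swap hint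

/-! ### averaged thin weights -/

lemma kth_smooth (δ t₀ : ℝ) : ContDiff ℝ (⊤ : ℕ∞) (kth δ t₀) :=
  contDiff_const.mul ((etaS_smooth δ).comp (contDiff_id.sub contDiff_const))

lemma kth_joint (δ : ℝ) : Continuous (fun p : ℝ × ℝ => kth δ p.1 p.2) := by
  have h := (etaS_smooth δ).continuous
  unfold kth
  fun_prop

lemma etaS_bound {δ : ℝ} (hδ : 0 < δ) : ∃ κ : ℝ, 0 ≤ κ ∧ (∀ s, |etaS δ s| ≤ κ) ∧
    ∀ s, |deriv (etaS δ) s| ≤ κ := by
  obtain ⟨M, hM⟩ := (etaS_smooth δ).continuous.bounded_above_of_compact_support (etaS_cpt hδ)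
  obtain ⟨M', hM'⟩ := (smooth_deriv (etaS_smooth δ)).continuous.bounded_above_of_compact_support
    (etaS_cpt hδ).deriv
  refine ⟨max M M', le_max_of_le_left ((norm_nonneg _).trans (hM 0)), fun s => ?_, fun s => ?_⟩
  · exact (hM s).trans (le_max_left _ _)
  · exact (hM' s).trans (le_max_right _ _)

lemma kth_KB {δ : ℝ} (hδ : 0 < δ) : ∃ κ : ℝ, ∀ t₀, KB κ (kth δ t₀) := by
  obtain ⟨κ, hκ, h1, h2⟩ := etaS_bound hδ
  refine ⟨2 * κ, fun t₀ => ⟨kth_smooth δ t₀, fun s => ?_, fun s => ?_⟩⟩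
  · unfold kth
    rw [abs_mul, abs_two]
    exact mul_le_mul_of_nonneg_left (h1 _) (by norm_num)
  · have h3 : HasDerivAt (kth δ t₀) (2 * deriv (etaS δ) (s - t₀)) s := by
      have h4 := hasDerivAt_of_smooth (etaS_smooth δ) (s - t₀)
      have h5 := (h4.comp_sub_const s t₀).const_mul 2
      exact h5
    rw [h3.deriv, abs_mul, abs_two]
    exact mul_le_mul_of_nonneg_left (h2 _) (by norm_num)

/-- averaged weight. -/
noncomputable def kZ (δ : ℝ) (Z : Set ℝ) (s : ℝ) : ℝ := ∫ t in Z, (1 / 2) * kth δ t s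

lemma kZ_eq (δ : ℝ) {Z : Set ℝ} (hZ : MeasurableSet Z) :
    kZ δ Z = ((Z.indicator fun _ => (1 : ℝ)) ⋆[ContinuousLinearMap.mul ℝ ℝ, volume] etaS δ) := by
  funext s
  show kZ δ Z s = ∫ t, (Z.indicator fun _ => (1 : ℝ)) t * etaS δ (s - t)
  unfold kZ kth
  rw [← integral_indicator hZ]
  congr 1; funext t
  by_cases ht : t ∈ Z
  · simp only [Set.indicator_of_mem ht, one_mul]; ring
  · simp only [Set.indicator_of_notMem ht, zero_mul]

lemma ind_locInt {Z : Set ℝ} (hZ : MeasurableSet Z) :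
    LocallyIntegrable (Z.indicator fun _ => (1 : ℝ)) := by
  have h1 : LocallyIntegrable (fun _ : ℝ => (1 : ℝ)) := locallyIntegrable_const 1
  exact h1.indicator hZ

lemma kZ_smooth {δ : ℝ} (hδ : 0 < δ) {Z : Set ℝ} (hZ : MeasurableSet Z) :
    ContDiff ℝ (⊤ : ℕ∞) (kZ δ Z) := by
  rw [kZ_eq δ hZ]
  exact (etaS_cpt hδ).contDiff_convolution_right _ (ind_locInt hZ) (etaS_smooth δ)

lemma etaS_refl_int {δ : ℝ} (hδ : 0 < δ) (s : ℝ) :
    Integrable (fun t => etaS δ (s - t)) ∧ ∫ t, etaS δ (s - t) = 1 := by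
  have h1 : Integrable (etaS δ) :=
    (etaS_smooth δ).continuous.integrable_of_hasCompactSupport (etaS_cpt hδ)
  refine ⟨h1.comp_sub_left s, ?_⟩
  rw [integral_sub_left_eq_self (fun t => etaS δ t) volume s]
  exact etaS_int hδ

lemma kZ_eq' (δ : ℝ) (Z : Set ℝ) (s : ℝ) : kZ δ Z s = ∫ t in Z, etaS δ (s - t) := by
  unfold kZ kth
  congr 1; funext t; ring

lemma kZ_bounds {δ : ℝ} (hδ : 0 < δ) (Z : Set ℝ) (s : ℝ) :
    0 ≤ kZ δ Z s ∧ kZ δ Z s ≤ 1 := by
  obtain ⟨h1, h2⟩ := etaS_refl_int hδ s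
  rw [kZ_eq']
  refine ⟨integral_nonneg fun t => etaS_nonneg hδ _, ?_⟩
  rw [← h2]
  exact setIntegral_le_integral h1 (Eventually.of_forall fun t => etaS_nonneg hδ _)

lemma kZ_KB {δ : ℝ} (hδ : 0 < δ) : ∃ κ : ℝ, ∀ Z : Set ℝ, MeasurableSet Z → KB κ (kZ δ Z) := by
  have hd : Integrable (deriv (etaS δ)) :=
    (smooth_deriv (etaS_smooth δ)).continuous.integrable_of_hasCompactSupport (etaS_cpt hδ).deriv
  refine ⟨max 1 (∫ t, |deriv (etaS δ) t|), fun Z hZ => ⟨kZ_smooth hδ hZ, fun s => ?_, fun s => ?_⟩⟩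
  · have h := kZ_bounds hδ Z s
    rw [abs_of_nonneg h.1]
    exact h.2.trans (le_max_left _ _)
  · have h1 := (etaS_cpt hδ).hasDerivAt_convolution_right (ContinuousLinearMap.mul ℝ ℝ)
      (ind_locInt hZ) ((etaS_smooth δ).of_le (by exact_mod_cast le_top)) s
    rw [← kZ_eq δ hZ] at h1
    rw [h1.deriv]
    refine le_trans ?_ (le_max_right _ _)
    show |∫ t, (Z.indicator fun _ => (1 : ℝ)) t * deriv (etaS δ) (s - t)| ≤ _
    have h2 : Integrable (fun t => |deriv (etaS δ) (s - t)|) := (hd.comp_sub_left s).abs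
    have h3 : ∫ t, |deriv (etaS δ) (s - t)| = ∫ t, |deriv (etaS δ) t| :=
      integral_sub_left_eq_self (fun t => |deriv (etaS δ) t|) volume s
    rw [← h3, ← Real.norm_eq_abs]
    refine norm_integral_le_of_norm_le h2 (Eventually.of_forall fun t => ?_)
    rw [Real.norm_eq_abs, abs_mul]
    by_cases ht : t ∈ Z
    · simp [Set.indicator_of_mem ht]
    · simp [Set.indicator_of_notMem ht]

lemma kZ_integral {δ : ℝ} (hδ : 0 < δ) {Z : Set ℝ} (hZ : MeasurableSet Z) {a₀ b₀ : ℝ}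
    (hZb : Z ⊆ Set.Icc a₀ b₀) {M : ℝ} (hM : 0 ≤ M) :
    ∫ s in (0 : ℝ)..M, kZ δ Z s ≤ (volume Z).toReal := by
  have h0 : ∀ s, kZ δ Z s = ∫ t in Z, etaS δ (s - t) := kZ_eq' δ Z
  simp_rw [h0]
  have hcont : Continuous (Function.uncurry fun s t : ℝ => etaS δ (s - t)) := by
    have h := (etaS_smooth δ).continuous
    have : Continuous fun p : ℝ × ℝ => etaS δ (p.1 - p.2) := by fun_prop
    exact this
  rw [interval_swap hZ hZb hcont]
  have hfin : volume Z < ⊤ := lt_of_le_of_lt (measure_mono hZb) measure_Icc_lt_top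
  have h1 : ∫ t in Z, ∫ s in (0 : ℝ)..M, etaS δ (s - t) ≤ ∫ _t in Z, (1 : ℝ) := by
    apply integral_mono_of_nonneg
    · exact Eventually.of_forall fun t =>
        intervalIntegral.integral_nonneg hM fun s _ => etaS_nonneg hδ _
    · exact integrableOn_const hfin.ne
    · refine Eventually.of_forall fun t => ?_
      show ∫ s in (0 : ℝ)..M, etaS δ (s - t) ≤ 1
      have hi : Integrable (fun s => etaS δ (s - t)) := by
        have h1 : Integrable (etaS δ) :=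
          (etaS_smooth δ).continuous.integrable_of_hasCompactSupport (etaS_cpt hδ)
        exact h1.comp_sub_right t
      have h2 : ∫ s, etaS δ (s - t) = 1 := by
        rw [integral_sub_right_eq_self (fun s => etaS δ s) t]
        exact etaS_int hδ
      rw [intervalIntegral.integral_of_le hM, ← h2]
      exact setIntegral_le_integral hi (Eventually.of_forall fun s => etaS_nonneg hδ _)
  refine h1.trans (le_of_eq ?_)
  simp [Measure.real]

lemma kZ_one {δ : ℝ} (hδ : 0 < δ) (hδ1 : δ ≤ 1) {Rm s : ℝ} (h0 : 0 ≤ s) (hs : s ≤ Rm) :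
    kZ δ (Set.Icc (-1) (Rm + 1)) s = 1 := by
  obtain ⟨h1, h2⟩ := etaS_refl_int hδ s
  rw [kZ_eq', ← h2]
  apply setIntegral_eq_integral_of_forall_compl_eq_zero
  intro t ht
  apply etaS_zero hδ
  by_contra hcon
  push Not at hcon
  have := abs_le.1 hcon
  exact ht ⟨by linarith [this.2], by linarith [this.1]⟩

/-! ### the functional only sees the weight on a compact interval -/

section cls

variable {ρ C : ℝ} {h : ℝ → ℝ}

lemma FF_congr (hρ : 0 < ρ) {k k' : ℝ → ℝ} {Rm : ℝ} (hkk : ∀ s, 0 ≤ s → s ≤ Rm → k s = k' s)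
    {V : ℝ × ℝ → ℝ} (z : ℝ × ℝ) (hz : RR ρ V z ≤ Rm) : FF ρ k V z = FF ρ k' V z := by
  unfold FF Fden
  have h1 : KK k (RR ρ V z) = KK k' (RR ρ V z) := by
    unfold KK
    apply intervalIntegral.integral_congr
    intro s hs
    rw [Set.uIcc_of_le (RR_nonneg ρ V z)] at hs
    exact hkk s hs.1 (hs.2.trans hz)
  have h2 : Theta ρ k (ρ * V z + dX V z) (dT V z) = Theta ρ k' (ρ * V z + dX V z) (dT V z) := by
    unfold Theta
    congr 1
    apply intervalIntegral.integral_congr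
    intro τ hτ
    apply hkk
    · positivity
    · refine le_trans ?_ hz
      unfold RR
      apply div_le_div_of_nonneg_right _ (sq_nonneg ρ)
      have h3 : |τ| ≤ |dT V z| := by
        rw [Set.mem_uIcc] at hτ
        rcases hτ with ⟨a, b⟩ | ⟨a, b⟩
        · rw [abs_of_nonneg a]; exact b.trans (le_abs_self _)
        · rw [abs_of_nonpos b, abs_of_nonpos (a.trans b)]; linarith
      have h4 := sq_le_sq.2 h3
      linarith
  show -(ρ / 2) * KK k (RR ρ V z) + Theta ρ k (ρ * V z + dX V z) (dT V z) * _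
    = -(ρ / 2) * KK k' (RR ρ V z) + Theta ρ k' (ρ * V z + dX V z) (dT V z) * _
  rw [h1, h2]

lemma Lam_congr (hρ : 0 < ρ) {k k' : ℝ → ℝ} {Rm : ℝ} (hkk : ∀ s, 0 ≤ s → s ≤ Rm → k s = k' s)
    {V : ℝ × ℝ → ℝ} (hV : ∀ z, RR ρ V z ≤ Rm) (χ : ℝ → ℝ) : Lam ρ k χ V = Lam ρ k' χ V := by
  unfold Lam
  congr 1; funext x
  congr 1; funext t
  rw [FF_congr hρ hkk (x, t) (hV (x, t))]

/-- the bound for the squared radius on the class. -/
noncomputable def Rmax (ρ C : ℝ) : ℝ := 2 * ((ρ + 1) * C) ^ 2 / ρ ^ 2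

lemma LamC_congr (hh : IndH ρ C h) {k k' : ℝ → ℝ}
    (hkk : ∀ s, 0 ≤ s → s ≤ Rmax ρ C → k s = k' s) {v : ℝ × ℝ → ℝ} (hv : InC ρ C h v)
    (χ : ℝ → ℝ) : LamC ρ k χ v = LamC ρ k' χ v := by
  unfold LamC
  have h1 : (fun ε => Lam ρ k χ (moll ε v)) =ᶠ[𝓝[>] (0 : ℝ)] fun ε => Lam ρ k' χ (moll ε v) := by
    filter_upwards [self_mem_nhdsWithin] with ε hε
    exact Lam_congr hh.rho_pos hkk (fun z => RR_le (moll_Bd hh hv hε) z) χ
  unfold limUnder
  rw [Filter.map_congr h1]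

lemma LamC_zero (hh : IndH ρ C h) {χ : ℝ → ℝ} {v : ℝ × ℝ → ℝ} :
    LamC ρ (fun _ => 0) χ v = 0 := by
  have h1 : (fun ε => Lam ρ (fun _ => 0) χ (moll ε v)) = fun _ => (0 : ℝ) := by
    funext ε
    unfold Lam FF Fden KK Theta
    simp
  unfold LamC
  rw [h1]
  exact tendsto_const_nhds.limUnder_eq

lemma LamC_kth_neg (hh : IndH ρ C h) {χ : ℝ → ℝ} {v : ℝ × ℝ → ℝ} (hv : InC ρ C h v) {δ t₀ : ℝ}
    (hδ : 0 < δ) (ht : t₀ < -δ) : LamC ρ (kth δ t₀) χ v = 0 := by
  rw [LamC_congr hh (k' := fun _ => 0) _ hv χ, LamC_zero hh]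
  intro s hs _
  unfold kth
  rw [etaS_zero hδ, mul_zero]
  rw [lt_abs]; left; linarith

/-! ### linearity in the weight -/

lemma FF_joint (δ : ℝ) {V : ℝ × ℝ → ℝ} (sV : Sm V) :
    Continuous (fun p : (ℝ × ℝ) × ℝ => FF ρ (kth δ p.2) V p.1) := by
  have ck := kth_joint δ
  have cR := RR_cont ρ sV
  have cV := sV.cont
  have cVx := sV.dX.cont
  have cVt := sV.dT.cont
  have cVxt := sV.dX.dT.cont
  have h1 : Continuous fun p : (ℝ × ℝ) × ℝ => ∫ s in (0 : ℝ)..(RR ρ V p.1), kth δ p.2 s := by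
    refine intervalIntegral.continuous_parametric_intervalIntegral_of_continuous
      (f := fun (p : (ℝ × ℝ) × ℝ) s => kth δ p.2 s) ?_ (by fun_prop)
    have : Continuous fun y : ((ℝ × ℝ) × ℝ) × ℝ => kth δ y.1.2 y.2 :=
      ck.comp ((continuous_snd.comp continuous_fst).prodMk continuous_snd)
    exact this
  have h2 : Continuous fun p : (ℝ × ℝ) × ℝ => ∫ τ in (0 : ℝ)..(dT V p.1),
      kth δ p.2 (((ρ * V p.1 + dX V p.1) ^ 2 + τ ^ 2) / ρ ^ 2) := by
    refine intervalIntegral.continuous_parametric_intervalIntegral_of_continuous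
      (f := fun (p : (ℝ × ℝ) × ℝ) τ =>
        kth δ p.2 (((ρ * V p.1 + dX V p.1) ^ 2 + τ ^ 2) / ρ ^ 2)) ?_ (by fun_prop)
    have : Continuous fun y : ((ℝ × ℝ) × ℝ) × ℝ =>
        kth δ y.1.2 (((ρ * V y.1.1 + dX V y.1.1) ^ 2 + y.2 ^ 2) / ρ ^ 2) :=
      ck.comp ((continuous_snd.comp continuous_fst).prodMk (by fun_prop))
    exact this
  unfold FF Fden KK Theta
  exact (continuous_const.mul h1).add ((continuous_const.mul h2).mul (by fun_prop))

lemma FF_kZ {δ : ℝ} {Z : Set ℝ} (hZ : MeasurableSet Z) {a₀ b₀ : ℝ} (hZb : Z ⊆ Set.Icc a₀ b₀)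
    {V : ℝ × ℝ → ℝ} (sV : Sm V) (z : ℝ × ℝ) :
    FF ρ (kZ δ Z) V z = ∫ t in Z, (1 / 2) * FF ρ (kth δ t) V z := by
  have ck := kth_joint δ
  set R := RR ρ V z with hR
  set P := ρ * V z + dX V z with hP
  set Q := dT V z with hQ
  set W := ρ * dT V z + dT (dX V) z with hW
  have hfin : volume Z < ⊤ := lt_of_le_of_lt (measure_mono hZb) measure_Icc_lt_top
  have e1 : KK (kZ δ Z) R = ∫ t in Z, (1 / 2) * KK (kth δ t) R := by
    unfold KK kZ
    rw [interval_swap hZ hZb]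
    · congr 1; funext t
      rw [intervalIntegral.integral_const_mul]
    · have : Continuous fun p : ℝ × ℝ => (1 / 2) * kth δ p.2 p.1 :=
        continuous_const.mul (ck.comp (continuous_snd.prodMk continuous_fst))
      exact this
  have e2 : Theta ρ (kZ δ Z) P Q = ∫ t in Z, (1 / 2) * Theta ρ (kth δ t) P Q := by
    unfold Theta kZ
    rw [interval_swap (g := fun τ t => (1 / 2) * kth δ t ((P ^ 2 + τ ^ 2) / ρ ^ 2)) hZ hZb]
    · rw [← integral_const_mul]
      congr 1; funext t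
      rw [intervalIntegral.integral_const_mul]
      ring
    · have : Continuous fun p : ℝ × ℝ => (1 / 2) * kth δ p.2 ((P ^ 2 + p.1 ^ 2) / ρ ^ 2) :=
        continuous_const.mul (ck.comp (continuous_snd.prodMk (by fun_prop)))
      exact this
  -- integrability in t
  have cK : Continuous fun t => KK (kth δ t) R := by
    unfold KK
    refine intervalIntegral.continuous_parametric_intervalIntegral_of_continuous'
      (f := fun t s => kth δ t s) ck 0 R
  have cT : Continuous fun t => Theta ρ (kth δ t) P Q := by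
    unfold Theta
    refine continuous_const.mul
      (intervalIntegral.continuous_parametric_intervalIntegral_of_continuous'
      (f := fun t τ => kth δ t ((P ^ 2 + τ ^ 2) / ρ ^ 2)) ?_ 0 Q)
    have : Continuous fun p : ℝ × ℝ => kth δ p.1 ((P ^ 2 + p.2 ^ 2) / ρ ^ 2) :=
      ck.comp (continuous_fst.prodMk (by fun_prop))
    exact this
  have iK : Integrable (fun t => (1 / 2) * KK (kth δ t) R) (volume.restrict Z) :=
    ((continuous_const.mul cK).continuousOn.integrableOn_compact isCompact_Icc).mono_set hZb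
  have iT : Integrable (fun t => (1 / 2) * Theta ρ (kth δ t) P Q) (volume.restrict Z) :=
    ((continuous_const.mul cT).continuousOn.integrableOn_compact isCompact_Icc).mono_set hZb
  show -(ρ / 2) * KK (kZ δ Z) R + Theta ρ (kZ δ Z) P Q * W = _
  rw [e1, e2, ← integral_const_mul, ← integral_mul_const,
    ← integral_add (iK.const_mul _) (iT.mul_const _)]
  congr 1; funext t
  show _ = (1 / 2) * (-(ρ / 2) * KK (kth δ t) R + Theta ρ (kth δ t) P Q * W)
  ring

lemma Lam_kZ {δ : ℝ} (hδ : 0 < δ) {Z : Set ℝ} (hZ : MeasurableSet Z) {a₀ b₀ : ℝ}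
    (hZb : Z ⊆ Set.Icc a₀ b₀) {χ : ℝ → ℝ} (hχ : IsCut χ) {V : ℝ × ℝ → ℝ} (sV : Sm V) :
    Integrable (fun t => (1 / 2) * Lam ρ (kth δ t) χ V) (volume.restrict Z) ∧
    Lam ρ (kZ δ Z) χ V = ∫ t in Z, (1 / 2) * Lam ρ (kth δ t) χ V := by
  obtain ⟨κ, hκ⟩ := kth_KB hδ
  obtain ⟨κ', hκ'⟩ := kZ_KB hδ
  have cF := FF_joint (ρ := ρ) δ sV
  have cχ := hχ.smooth.continuous
  obtain ⟨R, hR⟩ := hχ.cx.xs
  have hG : Continuous (Function.uncurry fun (z : ℝ × ℝ) t => χ z.1 * ((1 / 2) * FF ρ (kth δ t) V z)) := by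
    have : Continuous fun p : (ℝ × ℝ) × ℝ => χ p.1.1 * ((1 / 2) * FF ρ (kth δ p.2) V p.1) := by
      fun_prop
    exact this
  have hs := J_swap hZ hZb hG (R := R) (fun z t hz => by
    have := hR z.1 z.2 hz
    simp only at this
    rw [this, zero_mul])
  have e1 : ∀ t, J (fun z => χ z.1 * ((1 / 2) * FF ρ (kth δ t) V z))
      = (1 / 2) * Lam ρ (kth δ t) χ V := by
    intro t
    rw [Lam_eq ρ (hκ t) sV cχ hχ.cpt, ← J_const_mul]
    congr 1; funext z; ring
  simp_rw [e1] at hs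
  refine ⟨hs.1, ?_⟩
  rw [← hs.2, Lam_eq ρ (hκ' Z hZ) sV cχ hχ.cpt]
  congr 1; funext z
  show χ z.1 * FF ρ (kZ δ Z) V z = ∫ t in Z, χ z.1 * ((1 / 2) * FF ρ (kth δ t) V z)
  rw [FF_kZ hZ hZb sV, ← integral_const_mul]

lemma Lam_kth_meas {δ : ℝ} (hδ : 0 < δ) {χ : ℝ → ℝ} (hχ : IsCut χ) {V : ℝ × ℝ → ℝ} (sV : Sm V) :
    StronglyMeasurable (fun t => Lam ρ (kth δ t) χ V) := by
  obtain ⟨κ, hκ⟩ := kth_KB hδ
  have cF := FF_joint (ρ := ρ) δ sV
  have cχ := hχ.smooth.continuous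
  have e1 : (fun t => Lam ρ (kth δ t) χ V) = fun t => ∫ z, χ z.1 * FF ρ (kth δ t) V z ∂mu2 := by
    funext t
    rw [Lam_eq ρ (hκ t) sV cχ hχ.cpt]
    rfl
  rw [e1]
  have h3 : Continuous ((fun p : (ℝ × ℝ) × ℝ => FF ρ (kth δ p.2) V p.1)
      ∘ fun p : ℝ × (ℝ × ℝ) => (p.2, p.1)) := cF.comp (continuous_snd.prodMk continuous_fst)
  have h4 : Continuous fun p : ℝ × (ℝ × ℝ) => χ p.2.1 :=
    cχ.comp (continuous_fst.comp continuous_snd)
  have h2 : Continuous fun p : ℝ × (ℝ × ℝ) => χ p.2.1 *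
      ((fun p : (ℝ × ℝ) × ℝ => FF ρ (kth δ p.2) V p.1)
      ∘ fun p : ℝ × (ℝ × ℝ) => (p.2, p.1)) p := h4.mul h3
  have h5 := (h2.stronglyMeasurable).integral_prod_right' (ν := mu2)
  exact h5

lemma LamC_kth_meas (hh : IndH ρ C h) {δ : ℝ} (hδ : 0 < δ) {χ : ℝ → ℝ} (hχ : IsCut χ)
    {v : ℝ × ℝ → ℝ} (hv : InC ρ C h v) :
    StronglyMeasurable (fun t => LamC ρ (kth δ t) χ v) := by
  obtain ⟨κ, hκ⟩ := kth_KB hδ
  have hseq : Tendsto (fun n : ℕ => (1 : ℝ) / ((n : ℝ) + 1)) atTop (𝓝[>] 0) := by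
    rw [tendsto_nhdsWithin_iff]
    refine ⟨tendsto_one_div_add_atTop_nhds_zero_nat, Eventually.of_forall fun n => ?_⟩
    show (0 : ℝ) < 1 / ((n : ℝ) + 1)
    positivity
  have hm : ∀ n : ℕ, StronglyMeasurable
      (fun t : ℝ => Lam ρ (kth δ t) χ (moll (1 / ((n : ℝ) + 1)) v)) := fun n =>
    Lam_kth_meas hδ hχ (moll_smooth (show (0 : ℝ) < 1 / ((n : ℝ) + 1) by positivity) hv.locInt)
  have ht : Tendsto (fun (n : ℕ) (t : ℝ) => Lam ρ (kth δ t) χ (moll (1 / ((n : ℝ) + 1)) v)) atTop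
      (𝓝 (fun t => LamC ρ (kth δ t) χ v)) :=
    tendsto_pi_nhds.2 fun t => (lamC_tendsto hh hχ (hκ t) hv).comp hseq
  exact stronglyMeasurable_of_tendsto atTop hm ht

lemma LamC_kZ (hh : IndH ρ C h) {δ : ℝ} (hδ : 0 < δ) {Z : Set ℝ} (hZ : MeasurableSet Z)
    {a₀ b₀ : ℝ} (hZb : Z ⊆ Set.Icc a₀ b₀) {χ : ℝ → ℝ} (hχ : IsCut χ)
    {v : ℝ × ℝ → ℝ} (hv : InC ρ C h v) :
    Integrable (fun t => (1 / 2) * LamC ρ (kth δ t) χ v) (volume.restrict Z) ∧
    LamC ρ (kZ δ Z) χ v = ∫ t in Z, (1 / 2) * LamC ρ (kth δ t) χ v := by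
  obtain ⟨κ, hκ⟩ := kth_KB hδ
  obtain ⟨κ', hκ'⟩ := kZ_KB hδ
  obtain ⟨M, hM⟩ := blockA_mod hh hχ κ
  have hfin : volume Z < ⊤ := lt_of_le_of_lt (measure_mono hZb) measure_Icc_lt_top
  have : IsFiniteMeasure (volume.restrict Z) := ⟨by simpa using hfin⟩
  have hmeas := LamC_kth_meas hh hδ hχ hv
  have hInt : Integrable (fun t => (1 / 2) * LamC ρ (kth δ t) χ v) (volume.restrict Z) := by
    have h1 := (Lam_kZ (ρ := ρ) hδ hZ hZb hχ
      (moll_smooth (show (0 : ℝ) < 1 / 2 by norm_num) hv.locInt)).1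
    have h2 : Integrable (fun _ : ℝ => (1 / 2) * (M * Real.sqrt (1 / 2))) (volume.restrict Z) :=
      integrable_const _
    refine Integrable.mono' (h1.abs.add h2) (hmeas.const_mul (1 / 2)).aestronglyMeasurable
      (Eventually.of_forall fun t => ?_)
    rw [Real.norm_eq_abs]
    show _ ≤ |(1 / 2) * Lam ρ (kth δ t) χ (moll (1 / 2) v)| + (1 / 2) * (M * Real.sqrt (1 / 2))
    have h3 := hM _ (hκ t) v hv (1 / 2) (by norm_num) (by norm_num)
    rw [abs_mul, abs_mul, abs_of_pos (show (0 : ℝ) < 1 / 2 by norm_num)]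
    have h4 : |LamC ρ (kth δ t) χ v| ≤ |Lam ρ (kth δ t) χ (moll (1 / 2) v)|
        + M * Real.sqrt (1 / 2) := by
      have h5 : LamC ρ (kth δ t) χ v = Lam ρ (kth δ t) χ (moll (1 / 2) v)
          - (Lam ρ (kth δ t) χ (moll (1 / 2) v) - LamC ρ (kth δ t) χ v) := by ring
      have h6 := abs_sub (Lam ρ (kth δ t) χ (moll (1 / 2) v))
        (Lam ρ (kth δ t) χ (moll (1 / 2) v) - LamC ρ (kth δ t) χ v)
      rw [← h5] at h6
      linarith
    linarith
  refine ⟨hInt, ?_⟩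
  -- compare limits
  have t1 := lamC_tendsto hh hχ (hκ' Z hZ) hv
  have t2 : Tendsto (fun ε => Lam ρ (kZ δ Z) χ (moll ε v)) (𝓝[>] (0 : ℝ))
      (𝓝 (∫ t in Z, (1 / 2) * LamC ρ (kth δ t) χ v)) := by
    rw [tendsto_iff_norm_sub_tendsto_zero]
    have hb : Tendsto (fun ε : ℝ => (1 / 2) * (M * Real.sqrt ε) * (volume Z).toReal) (𝓝[>] (0 : ℝ))
        (𝓝 0) := by
      have hc : Continuous fun ε : ℝ => (1 / 2) * (M * Real.sqrt ε) * (volume Z).toReal := by
        fun_prop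
      have := (hc.tendsto 0).mono_left (nhdsWithin_le_nhds (s := Set.Ioi 0))
      simpa using this
    refine squeeze_zero' (Eventually.of_forall fun _ => norm_nonneg _) ?_ hb
    filter_upwards [Ioo_mem_nhdsGT (show (0 : ℝ) < 1 by norm_num)] with ε hε
    have h1 := Lam_kZ (ρ := ρ) hδ hZ hZb hχ (moll_smooth hε.1 hv.locInt)
    rw [h1.2, ← integral_sub h1.1 hInt]
    have h2 := norm_integral_le_of_norm_le_const (μ := volume.restrict Z)
      (f := fun t => (1 / 2) * Lam ρ (kth δ t) χ (moll ε v) - (1 / 2) * LamC ρ (kth δ t) χ v)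
      (C := (1 / 2) * (M * Real.sqrt ε)) (Eventually.of_forall fun t => by
        rw [← mul_sub, Real.norm_eq_abs, abs_mul, abs_of_pos (show (0 : ℝ) < 1 / 2 by norm_num)]
        exact mul_le_mul_of_nonneg_left (hM _ (hκ t) v hv ε hε.1 hε.2) (by norm_num))
    refine h2.trans (le_of_eq ?_)
    simp [Measure.real]
  exact tendsto_nhds_unique t1 t2

/-- (G3) if the thin functionals agree asymptotically for almost every radius then the functional
with weight one agrees. -/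
theorem G3 (hh : IndH ρ C h) {χ : ℝ → ℝ} (hχ : IsCut χ) {v₁ v₂ : ℝ × ℝ → ℝ}
    (hv₁ : InC ρ C h v₁) (hv₂ : InC ρ C h v₂)
    (hae : ∀ᵐ t₀ : ℝ, 0 < t₀ → Tendsto (fun n : ℕ => LamC ρ (kth (1 / ((n : ℝ) + 1)) t₀) χ v₁
      - LamC ρ (kth (1 / ((n : ℝ) + 1)) t₀) χ v₂) atTop (𝓝 0)) :
    LamC ρ (fun _ => 1) χ v₁ = LamC ρ (fun _ => 1) χ v₂ := by
  set δ : ℕ → ℝ := fun n => 1 / ((n : ℝ) + 1) with hδdef
  have hδ0 : ∀ n, 0 < δ n := fun n => by simp only [hδdef]; positivity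
  have hδ1 : ∀ n, δ n ≤ 1 := fun n => by
    simp only [hδdef]
    rw [div_le_one (by positivity)]
    have : (0 : ℝ) ≤ n := Nat.cast_nonneg n
    linarith
  obtain ⟨M, hM⟩ := blockG_small hh hχ
  set D : ℕ → ℝ → ℝ := fun n t => LamC ρ (kth (δ n) t) χ v₁ - LamC ρ (kth (δ n) t) χ v₂ with hD
  set S : Set ℝ := Set.Icc (-1) (Rmax ρ C + 1) with hS
  have hSm : MeasurableSet S := measurableSet_Icc
  have hSfin : volume S ≠ ⊤ := measure_Icc_lt_top.ne
  have hDm : ∀ n, StronglyMeasurable (D n) := fun n =>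
    (LamC_kth_meas hh (hδ0 n) hχ hv₁).sub (LamC_kth_meas hh (hδ0 n) hχ hv₂)
  have hδlim : Tendsto δ atTop (𝓝 0) := tendsto_one_div_add_atTop_nhds_zero_nat
  have hconv : ∀ᵐ t ∂volume, t ∈ S → Tendsto (fun n => D n t) atTop (𝓝 ((fun _ : ℝ => (0 : ℝ)) t)) := by
    have h0 : ∀ᵐ t : ℝ, t ≠ 0 := by
      rw [ae_iff]; simp
    filter_upwards [hae, h0] with t ht ht0 _
    rcases lt_or_gt_of_ne ht0 with h1 | h1
    · apply tendsto_const_nhds.congr'
      have h2 : ∀ᶠ n in atTop, δ n < -t := hδlim.eventually (gt_mem_nhds (by linarith))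
      filter_upwards [h2] with n hn
      simp only [hD]
      rw [LamC_kth_neg hh hv₁ (hδ0 n) (by linarith), LamC_kth_neg hh hv₂ (hδ0 n) (by linarith)]
      ring
    · exact ht h1
  -- the exact identity
  have ident : ∀ n (Z : Set ℝ), MeasurableSet Z → Z ⊆ S →
      IntegrableOn (fun t => (1 / 2) * D n t) Z ∧
      LamC ρ (kZ (δ n) Z) χ v₁ - LamC ρ (kZ (δ n) Z) χ v₂ = ∫ t in Z, (1 / 2) * D n t := by
    intro n Z hZ hZS
    have h1 := LamC_kZ hh (hδ0 n) hZ hZS hχ hv₁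
    have h2 := LamC_kZ hh (hδ0 n) hZ hZS hχ hv₂
    have e : (fun t => (1 / 2) * D n t) = fun t => (1 / 2) * LamC ρ (kth (δ n) t) χ v₁
        - (1 / 2) * LamC ρ (kth (δ n) t) χ v₂ := by
      funext t; simp only [hD]; ring
    rw [e]
    refine ⟨h1.1.sub h2.1, ?_⟩
    rw [h1.2, h2.2, ← integral_sub h1.1 h2.1]
  have whole : ∀ n, LamC ρ (fun _ => 1) χ v₁ - LamC ρ (fun _ => 1) χ v₂
      = ∫ t in S, (1 / 2) * D n t := by
    intro n
    rw [← (ident n S hSm subset_rfl).2]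
    rw [LamC_congr hh (k := kZ (δ n) S) (k' := fun _ => 1)
      (fun s h0 hs => kZ_one (hδ0 n) (hδ1 n) h0 hs) hv₁ χ,
      LamC_congr hh (k := kZ (δ n) S) (k' := fun _ => 1)
      (fun s h0 hs => kZ_one (hδ0 n) (hδ1 n) h0 hs) hv₂ χ]
  have smallZ : ∀ n (Z : Set ℝ), MeasurableSet Z → Z ⊆ S → ∀ e : ℝ, 0 ≤ e →
      volume Z ≤ ENNReal.ofReal e →
      |∫ t in Z, (1 / 2) * D n t| ≤ 2 * (|M| * Real.sqrt e) := by
    intro n Z hZ hZS e he hZe
    obtain ⟨κ', hκ'⟩ := kZ_KB (hδ0 n)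
    rw [← (ident n Z hZ hZS).2]
    have hreal : (volume Z).toReal ≤ e := by
      rw [← ENNReal.toReal_ofReal he]
      exact ENNReal.toReal_mono ENNReal.ofReal_ne_top hZe
    have hb : ∀ v, InC ρ C h v → |LamC ρ (kZ (δ n) Z) χ v| ≤ |M| * Real.sqrt e := by
      intro v hv
      have h1 := hM κ' _ (hκ' Z hZ) (kZ_bounds (hδ0 n) Z) v hv
      rcases lt_or_ge M 0 with hM0 | hM0
      · have h2 : M * Real.sqrt (∫ s in (0 : ℝ)..M, kZ (δ n) Z s) ≤ 0 :=
          mul_nonpos_of_nonpos_of_nonneg hM0.le (Real.sqrt_nonneg _)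
        have h3 : 0 ≤ |M| * Real.sqrt e := by positivity
        linarith
      · refine h1.trans ?_
        rw [abs_of_nonneg hM0]
        apply mul_le_mul_of_nonneg_left _ hM0
        apply Real.sqrt_le_sqrt
        exact (kZ_integral (hδ0 n) hZ hZS hM0).trans hreal
    have h1 := hb v₁ hv₁
    have h2 := hb v₂ hv₂
    have h3 := abs_sub (LamC ρ (kZ (δ n) Z) χ v₁) (LamC ρ (kZ (δ n) Z) χ v₂)
    linarith
  -- Egorov
  have key : ∀ e : ℝ, 0 < e → |LamC ρ (fun _ => 1) χ v₁ - LamC ρ (fun _ => 1) χ v₂|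
      ≤ 2 * (|M| * Real.sqrt e) + e := by
    intro e he
    obtain ⟨t, htS, htm, hte, hu⟩ := tendstoUniformlyOn_of_ae_tendsto (μ := volume) hDm
      (g := fun _ : ℝ => (0 : ℝ)) stronglyMeasurable_const hSm hSfin hconv he
    rw [Metric.tendstoUniformlyOn_iff] at hu
    set L : ℝ := (volume S).toReal with hL
    have hL0 : 0 ≤ L := ENNReal.toReal_nonneg
    obtain ⟨n, hn⟩ := (hu (e / (L + 1)) (by positivity)).exists
    rw [whole n]
    have hdiff : MeasurableSet (S \ t) := hSm.diff htm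
    have i1 := (ident n t htm htS).1
    have i2 := (ident n (S \ t) hdiff Set.sdiff_subset).1
    have e1 : ∫ s in S, (1 / 2) * D n s = (∫ s in t, (1 / 2) * D n s)
        + ∫ s in S \ t, (1 / 2) * D n s := by
      rw [← setIntegral_union Set.disjoint_sdiff_right hdiff i1 i2, Set.union_sdiff_cancel htS]
    rw [e1]
    refine (abs_add_le _ _).trans (add_le_add (smallZ n t htm htS e he.le hte) ?_)
    have hfin2 : volume (S \ t) < ⊤ := lt_of_le_of_lt (measure_mono Set.sdiff_subset)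
      (lt_top_iff_ne_top.2 hSfin)
    have h2 := norm_setIntegral_le_of_norm_le_const (μ := volume) (s := S \ t) hfin2
      (f := fun s => (1 / 2) * D n s) (C := e / (L + 1)) (fun s hs => by
        have := hn s hs
        rw [dist_zero_left, Real.norm_eq_abs] at this
        rw [Real.norm_eq_abs, abs_mul, abs_of_pos (show (0 : ℝ) < 1 / 2 by norm_num)]
        linarith [abs_nonneg (D n s)])
    rw [Real.norm_eq_abs] at h2
    refine h2.trans ?_
    have h3 : (volume : Measure ℝ).real (S \ t) ≤ L := by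
      rw [hL]
      exact ENNReal.toReal_mono hSfin (measure_mono Set.sdiff_subset)
    calc e / (L + 1) * (volume : Measure ℝ).real (S \ t) ≤ e / (L + 1) * L := by gcongr
      _ = e * (L / (L + 1)) := by ring
      _ ≤ e * 1 := by
        apply mul_le_mul_of_nonneg_left _ he.le
        rw [div_le_one (by positivity)]
        linarith
      _ = e := mul_one e
  have hlim : Tendsto (fun e : ℝ => 2 * (|M| * Real.sqrt e) + e) (𝓝[>] 0) (𝓝 0) := by
    have hc : Continuous fun e : ℝ => 2 * (|M| * Real.sqrt e) + e := by fun_prop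
    have := (hc.tendsto 0).mono_left (nhdsWithin_le_nhds (s := Set.Ioi 0))
    simpa using this
  have h0 : |LamC ρ (fun _ => 1) χ v₁ - LamC ρ (fun _ => 1) χ v₂| ≤ 0 := by
    refine ge_of_tendsto hlim ?_
    filter_upwards [self_mem_nhdsWithin] with e he
    exact key e he
  have := abs_eq_zero.1 (le_antisymm h0 (abs_nonneg _))
  linarith

end cls

end Pool.Agent.Helper42.Fr
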