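import Pool.Agent.Helper42.Fr.Theta

set_option autoImplicit false

open MeasureTheory Filter Topology

namespace Pool.Agent.Helper42.Fr

/-- Cauchy-Schwarz. -/
lemma J_cs {χ : ℝ → ℝ} (hχ : IsCut χ) {A B : ℝ × ℝ → ℝ} (hA : Continuous A) (hB : Continuous B) :
    |J (fun z => χ z.1 * (A z * B z))|
      ≤ Real.sqrt (J (fun z => χ z.1 * A z ^ 2)) * Real.sqrt (J (fun z => χ z.1 * B z ^ 2)) := by
  set a := J (fun z => χ z.1 * A z ^ 2) with ha
  set b := J (fun z => χ z.1 * (A z * B z)) with hb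
  set c := J (fun z => χ z.1 * B z ^ 2) with hc
  have ha0 : 0 ≤ a := J_nonneg fun z => mul_nonneg (hχ.nonneg _) (sq_nonneg _)
  have hc0 : 0 ≤ c := J_nonneg fun z => mul_nonneg (hχ.nonneg _) (sq_nonneg _)
  have cA : CX (fun z => χ z.1 * A z ^ 2) := hχ.mul_cx (by fun_prop)
  have cB : CX (fun z => χ z.1 * B z ^ 2) := hχ.mul_cx (by fun_prop)
  have cAB : CX (fun z => χ z.1 * (A z * B z)) := hχ.mul_cx (by fun_prop)
  have key : ∀ x : ℝ, 0 ≤ c * (x * x) + (2 * b) * x + a := by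
    intro x
    have h0 : 0 ≤ J (fun z => χ z.1 * (A z + x * B z) ^ 2) :=
      J_nonneg fun z => mul_nonneg (hχ.nonneg _) (sq_nonneg _)
    have e : (fun z => χ z.1 * (A z + x * B z) ^ 2) = fun z => (χ z.1 * A z ^ 2
        + 2 * x * (χ z.1 * (A z * B z))) + x ^ 2 * (χ z.1 * B z ^ 2) := by
      funext z; ring
    rw [e, J_add (cA.add (cAB.const_mul _)) (cB.const_mul _), J_add cA (cAB.const_mul _),
      J_const_mul, J_const_mul] at h0
    rw [← ha, ← hb, ← hc] at h0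
    linarith
  have hd := discrim_le_zero key
  unfold discrim at hd
  rw [← Real.sqrt_mul ha0]
  apply Real.abs_le_sqrt
  nlinarith

/-- derivative domination. -/
def Dom (ψ χ₁ : ℝ → ℝ) : Prop := ∀ x, |ψ x| ≤ χ₁ x ∧ |deriv ψ x| ≤ χ₁ x

lemma exists_Dom {ψ : ℝ → ℝ} (hs : ContDiff ℝ (⊤ : ℕ∞) ψ) (hc : HasCompactSupport ψ) :
    ∃ χ₁, IsCut χ₁ ∧ Dom ψ χ₁ := by
  obtain ⟨χ₁, h1, h2⟩ := exists_dom hs.continuous hc
  obtain ⟨χ₂, h3, h4⟩ := exists_dom (smooth_deriv hs).continuous hc.deriv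
  refine ⟨_, h1.add h3, fun x => ⟨?_, ?_⟩⟩
  · have := h2 x 0 (by simp)
    rw [add_zero] at this
    linarith [h3.nonneg x]
  · have := h4 x 0 (by simp)
    rw [add_zero] at this
    linarith [h1.nonneg x]

/-- a general bound: integrands that are dominated. -/
lemma J_le_of_prod {χ₁ : ℝ → ℝ} (hχ₁ : IsCut χ₁) {F A B : ℝ × ℝ → ℝ} {c : ℝ} (hc : 0 ≤ c)
    (hA : Continuous A) (hB : Continuous B)
    (h : ∀ z, |F z| ≤ c * (χ₁ z.1 * (|A z| * |B z|))) :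
    |J F| ≤ c * (Real.sqrt (J (fun z => χ₁ z.1 * A z ^ 2))
      * Real.sqrt (J (fun z => χ₁ z.1 * B z ^ 2))) := by
  have h1 : |J F| ≤ J (fun z => c * (χ₁ z.1 * (|A z| * |B z|))) :=
    J_abs ((hχ₁.mul_cx (hA.abs.mul hB.abs)).const_mul c) h
  rw [J_const_mul] at h1
  refine h1.trans (mul_le_mul_of_nonneg_left ?_ hc)
  have h2 := J_cs hχ₁ hA.abs hB.abs
  simp only [sq_abs] at h2
  exact (le_abs_self _).trans h2

lemma P_smooth (ρ : ℝ) {V : ℝ × ℝ → ℝ} (h : Sm V) : Sm (fun z => ρ * V z + dX V z) :=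
  (h.const_mul ρ).add h.dX

lemma P_per (ρ : ℝ) {V : ℝ × ℝ → ℝ} (h : Per V) : Per (fun z => ρ * V z + dX V z) :=
  (h.const_mul ρ).add h.dX

lemma dX_P (ρ : ℝ) {V : ℝ × ℝ → ℝ} (h : Sm V) : dX (fun z => ρ * V z + dX V z) = DX ρ V := by
  rw [dX_add (h.const_mul ρ) h.dX, dX_const_mul ρ h]
  rfl

lemma dT_P (ρ : ℝ) {V : ℝ × ℝ → ℝ} (h : Sm V) : dT (fun z => ρ * V z + dX V z) = DT ρ V := by
  rw [dT_add (h.const_mul ρ) h.dX, dT_const_mul ρ h, dT_dX_comm h]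
  rfl

lemma Lop_eq (ρ : ℝ) (V : ℝ × ℝ → ℝ) (z : ℝ × ℝ) :
    Lop ρ V z = ρ * (ρ * V z + dX V z) + DX ρ V z + dT (dT V) z := by
  unfold Lop DX; ring

/-- abbreviations for a smooth function. -/
noncomputable def RR (ρ : ℝ) (V : ℝ × ℝ → ℝ) (z : ℝ × ℝ) : ℝ :=
  ((ρ * V z + dX V z) ^ 2 + dT V z ^ 2) / ρ ^ 2

noncomputable def Th (ρ : ℝ) (k : ℝ → ℝ) (V : ℝ × ℝ → ℝ) (z : ℝ × ℝ) : ℝ :=
  Theta ρ k (ρ * V z + dX V z) (dT V z)

noncomputable def Thp (ρ : ℝ) (k : ℝ → ℝ) (V : ℝ × ℝ → ℝ) (z : ℝ × ℝ) : ℝ :=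
  ThP ρ k (ρ * V z + dX V z) (dT V z)

noncomputable def Thq (ρ : ℝ) (k : ℝ → ℝ) (V : ℝ × ℝ → ℝ) (z : ℝ × ℝ) : ℝ :=
  ThQ ρ k (ρ * V z + dX V z) (dT V z)

section

variable {ρ κ : ℝ} {k : ℝ → ℝ} {V : ℝ × ℝ → ℝ}

lemma RR_cont (ρ : ℝ) (h : Sm V) : Continuous (RR ρ V) := by
  have h1 := h.cont
  have h2 := h.dX.cont
  have h3 := h.dT.cont
  unfold RR; fun_prop

lemma Th_cont (ρ : ℝ) (hk : KB κ k) (h : Sm V) : Continuous (Th ρ k V) :=
  (Theta_cont hk.smooth.continuous).comp ((P_smooth ρ h).cont.prodMk h.dT.cont)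

lemma Thp_cont (ρ : ℝ) (hk : KB κ k) (h : Sm V) : Continuous (Thp ρ k V) :=
  (ThP_cont (smooth_deriv hk.smooth).continuous).comp ((P_smooth ρ h).cont.prodMk h.dT.cont)

lemma Thq_cont (ρ : ℝ) (hk : KB κ k) (h : Sm V) : Continuous (Thq ρ k V) :=
  (ThQ_cont hk.smooth.continuous).comp ((P_smooth ρ h).cont.prodMk h.dT.cont)

lemma Th_per (ρ : ℝ) (k : ℝ → ℝ) (h : Per V) : Per (Th ρ k V) := fun x t => by
  unfold Th; rw [h x t, h.dX x t, h.dT x t]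

lemma Th_hX (ρ : ℝ) (hk : KB κ k) (h : Sm V) (x t : ℝ) :
    HasDerivAt (fun y => Th ρ k V (y, t))
      (Thp ρ k V (x, t) * DX ρ V (x, t) + Thq ρ k V (x, t) * dX (dT V) (x, t)) x := by
  have h1 := (P_smooth ρ h).hX x t
  rw [dX_P ρ h] at h1
  exact Theta_chain hk h1 (h.dT.hX x t)

lemma Th_hT (ρ : ℝ) (hk : KB κ k) (h : Sm V) (x t : ℝ) :
    HasDerivAt (fun s => Th ρ k V (x, s))
      (Thp ρ k V (x, t) * DT ρ V (x, t) + Thq ρ k V (x, t) * dT (dT V) (x, t)) t := by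
  have h1 := (P_smooth ρ h).hT x t
  rw [dT_P ρ h] at h1
  exact Theta_chain hk h1 (h.dT.hT x t)

lemma Thq_eq (ρ : ℝ) (k : ℝ → ℝ) (V : ℝ × ℝ → ℝ) (z : ℝ × ℝ) :
    Thq ρ k V z = (ρ ^ 2)⁻¹ * k (RR ρ V z) := rfl

lemma FF_eq (ρ : ℝ) (k : ℝ → ℝ) (h : Sm V) (z : ℝ × ℝ) :
    FF ρ k V z = -(ρ / 2) * KK k (RR ρ V z) + Th ρ k V z * DT ρ V z := by
  unfold FF Fden RR Th DT
  rw [dT_dX_comm h]

lemma FF_cont (ρ : ℝ) (hk : KB κ k) (h : Sm V) : Continuous (FF ρ k V) := by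
  have e : FF ρ k V = fun z => -(ρ / 2) * KK k (RR ρ V z) + Th ρ k V z * DT ρ V z := by
    funext z; exact FF_eq ρ k h z
  rw [e]
  have h1 := RR_cont ρ h
  have h2 := Th_cont ρ hk h
  have h3 := (DT_smooth ρ h).cont
  have h4 := KK_cont hk.smooth.continuous
  fun_prop

lemma Lam_eq (ρ : ℝ) (hk : KB κ k) (h : Sm V) {χ : ℝ → ℝ} (hs : Continuous χ)
    (hc : HasCompactSupport χ) :
    Lam ρ k χ V = J (fun z => χ z.1 * FF ρ k V z) := by
  rw [J_eq (cx_mul hs hc (FF_cont ρ hk h))]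
  rfl

/-- the dissipation identity. -/
theorem diss (hρ : ρ ≠ 0) (hk : KB κ k) (h : Sm V) (hp : Per V) {ψ : ℝ → ℝ}
    (hs : ContDiff ℝ (⊤ : ℕ∞) ψ) (hc : HasCompactSupport ψ) :
    - J (fun z => deriv ψ z.1 * FF ρ k V z)
      = (ρ ^ 2)⁻¹ * J (fun z => ψ z.1 * (k (RR ρ V z) * (dX (dT V) z ^ 2 + DX ρ V z ^ 2
          - DX ρ V z * Lop ρ V z))) := by
  have c0 := hs.continuous
  have c1 := (smooth_deriv hs).continuous
  have ck := hk.smooth.continuous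
  have cR := RR_cont ρ h
  have cTh := Th_cont ρ hk h
  have cTp := Thp_cont ρ hk h
  have cTq := Thq_cont ρ hk h
  have cFF := FF_cont ρ hk h
  have cV := h.cont
  have cVx := h.dX.cont
  have cVt := h.dT.cont
  have cDX := (DX_smooth ρ h).cont
  have cDT := (DT_smooth ρ h).cont
  have cDTx := (DT_smooth ρ h).dX.cont
  have cQx := h.dT.dX.cont
  have cQt := h.dT.dT.cont
  have cL := (Lop_smooth ρ h).cont
  have cKK := KK_cont ck
  -- x part
  have hX := J_dX (F := fun z => ψ z.1 * (-(ρ / 2) * KK k (RR ρ V z) + Th ρ k V z * DT ρ V z))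
    (F' := fun z => deriv ψ z.1 * FF ρ k V z + ψ z.1 *
      (-(ρ / 2) * (k (RR ρ V z) * ((2 * (ρ * V z + dX V z) * DX ρ V z
        + 2 * dT V z * dX (dT V) z) / ρ ^ 2))
        + ((Thp ρ k V z * DX ρ V z + Thq ρ k V z * dX (dT V) z) * DT ρ V z
        + Th ρ k V z * dX (DT ρ V) z))) ?_ ?_ ?_
  · have hT := J_dT (F := fun z => ψ z.1 * (Th ρ k V z * DX ρ V z))
      (F' := fun z => ψ z.1 * ((Thp ρ k V z * DT ρ V z + Thq ρ k V z * dT (dT V) z) * DX ρ V z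
        + Th ρ k V z * dT (DX ρ V) z)) ?_ ?_ ?_ ?_
    · obtain ⟨x1, x2⟩ := hX
      obtain ⟨t1, t2⟩ := hT
      have hA : CX (fun z => deriv ψ z.1 * FF ρ k V z) := cx_mul c1 hc.deriv cFF
      have hB : CX (fun z => ψ z.1 * (k (RR ρ V z) * (dX (dT V) z ^ 2 + DX ρ V z ^ 2
          - DX ρ V z * Lop ρ V z))) := cx_mul c0 hc (by fun_prop)
      have e := J_sub x1 t1
      rw [x2, t2] at e
      have comm : dX (DT ρ V) = dT (DX ρ V) := by
        rw [← dT_P ρ h, ← dX_P ρ h, dT_dX_comm (P_smooth ρ h)]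
      have e2 : (fun z => (deriv ψ z.1 * FF ρ k V z + ψ z.1 *
          (-(ρ / 2) * (k (RR ρ V z) * ((2 * (ρ * V z + dX V z) * DX ρ V z
            + 2 * dT V z * dX (dT V) z) / ρ ^ 2))
            + ((Thp ρ k V z * DX ρ V z + Thq ρ k V z * dX (dT V) z) * DT ρ V z
            + Th ρ k V z * dX (DT ρ V) z)))
          - (ψ z.1 * ((Thp ρ k V z * DT ρ V z + Thq ρ k V z * dT (dT V) z) * DX ρ V z
            + Th ρ k V z * dT (DX ρ V) z)))
          = fun z => deriv ψ z.1 * FF ρ k V z + (ρ ^ 2)⁻¹ * (ψ z.1 * (k (RR ρ V z) *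
            (dX (dT V) z ^ 2 + DX ρ V z ^ 2 - DX ρ V z * Lop ρ V z))) := by
        funext z
        rw [comm, Thq_eq, Lop_eq]
        unfold DT
        field_simp
        ring
      rw [e2, J_add hA (hB.const_mul _), J_const_mul] at e
      linarith
    · exact (XS.of_fst hc).mul_left _
    · exact (Per.of_fst ψ).mul ((Th_per ρ k hp).mul (DX_per ρ hp))
    · intro x t
      exact ((Th_hT ρ hk h x t).mul ((DX_smooth ρ h).hT x t)).const_mul (ψ x)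
    · have := (DX_smooth ρ h).dT.cont
      fun_prop
  · exact (XS.of_fst hc).mul_left _
  · intro x t
    have h1 := (P_smooth ρ h).hX x t
    rw [dX_P ρ h] at h1
    have h2 := (KK_chain (ρ := ρ) ck h1 (h.dT.hX x t)).const_mul (-(ρ / 2))
    have h3 := (Th_hX ρ hk h x t).mul ((DT_smooth ρ h).hX x t)
    have h4 := (hasDerivAt_of_smooth hs x).mul (h2.add h3)
    refine h4.congr_deriv ?_
    rw [FF_eq ρ k h]
    rfl
  · fun_prop

/-- the pairing identity. -/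
theorem pairing (hρ : ρ ≠ 0) (hk : KB κ k) (h : Sm V) (hp : Per V) {Z : ℝ × ℝ → ℝ}
    (hZ : Sm Z) (hZp : Per Z) {ψ : ℝ → ℝ} (hs : ContDiff ℝ (⊤ : ℕ∞) ψ)
    (hc : HasCompactSupport ψ) :
    J (fun z => ψ z.1 * (k (RR ρ V z) * dX Z z * Lop ρ V z))
      = J (fun z => ψ z.1 * (k (RR ρ V z) * dX Z z * (ρ * (ρ * V z + dX V z) + DX ρ V z))
        - ρ ^ 2 * (ψ z.1 * (dX Z z * (Thp ρ k V z * DT ρ V z)))
        + ρ ^ 2 * (deriv ψ z.1 * (Th ρ k V z * dT Z z))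
        + ρ ^ 2 * (ψ z.1 * ((Thp ρ k V z * DX ρ V z + Thq ρ k V z * dX (dT V) z) * dT Z z))) := by
  have c0 := hs.continuous
  have c1 := (smooth_deriv hs).continuous
  have ck := hk.smooth.continuous
  have cR := RR_cont ρ h
  have cTh := Th_cont ρ hk h
  have cTp := Thp_cont ρ hk h
  have cTq := Thq_cont ρ hk h
  have cV := h.cont
  have cVx := h.dX.cont
  have cVt := h.dT.cont
  have cDX := (DX_smooth ρ h).cont
  have cDT := (DT_smooth ρ h).cont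
  have cQx := h.dT.dX.cont
  have cQt := h.dT.dT.cont
  have cL := (Lop_smooth ρ h).cont
  have cZx := hZ.dX.cont
  have cZt := hZ.dT.cont
  have cZtx := hZ.dT.dX.cont
  have cZxt := hZ.dX.dT.cont
  have hX := J_dX (F := fun z => ψ z.1 * (Th ρ k V z * dT Z z))
    (F' := fun z => deriv ψ z.1 * (Th ρ k V z * dT Z z) + ψ z.1 *
      ((Thp ρ k V z * DX ρ V z + Thq ρ k V z * dX (dT V) z) * dT Z z
        + Th ρ k V z * dX (dT Z) z)) ?_ ?_ ?_
  · have hT := J_dT (F := fun z => ψ z.1 * (Th ρ k V z * dX Z z))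
      (F' := fun z => ψ z.1 * ((Thp ρ k V z * DT ρ V z + Thq ρ k V z * dT (dT V) z) * dX Z z
        + Th ρ k V z * dT (dX Z) z)) ?_ ?_ ?_ ?_
    · obtain ⟨x1, x2⟩ := hX
      obtain ⟨t1, t2⟩ := hT
      have hA : CX (fun z => ψ z.1 * (k (RR ρ V z) * dX Z z * Lop ρ V z)) :=
        cx_mul c0 hc (by fun_prop)
      have hB : CX (fun z => ψ z.1 * (k (RR ρ V z) * dX Z z * (ρ * (ρ * V z + dX V z) + DX ρ V z))
        - ρ ^ 2 * (ψ z.1 * (dX Z z * (Thp ρ k V z * DT ρ V z)))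
        + ρ ^ 2 * (deriv ψ z.1 * (Th ρ k V z * dT Z z))
        + ρ ^ 2 * (ψ z.1 * ((Thp ρ k V z * DX ρ V z + Thq ρ k V z * dX (dT V) z) * dT Z z))) := by
        refine CX.add (CX.add (CX.sub ?_ ?_) ?_) ?_
        · exact cx_mul c0 hc (by fun_prop)
        · exact (cx_mul c0 hc (by fun_prop)).const_mul _
        · exact (cx_mul c1 hc.deriv (by fun_prop)).const_mul _
        · exact (cx_mul c0 hc (by fun_prop)).const_mul _
      have e := J_sub (t1.const_mul (ρ ^ 2)) (x1.const_mul (ρ ^ 2))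
      rw [J_const_mul, J_const_mul, x2, t2] at e
      have e2 : (fun z => ρ ^ 2 * (ψ z.1 * ((Thp ρ k V z * DT ρ V z
            + Thq ρ k V z * dT (dT V) z) * dX Z z + Th ρ k V z * dT (dX Z) z))
          - ρ ^ 2 * (deriv ψ z.1 * (Th ρ k V z * dT Z z) + ψ z.1 *
            ((Thp ρ k V z * DX ρ V z + Thq ρ k V z * dX (dT V) z) * dT Z z
            + Th ρ k V z * dX (dT Z) z)))
          = fun z => ψ z.1 * (k (RR ρ V z) * dX Z z * Lop ρ V z)
            - (ψ z.1 * (k (RR ρ V z) * dX Z z * (ρ * (ρ * V z + dX V z) + DX ρ V z))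
            - ρ ^ 2 * (ψ z.1 * (dX Z z * (Thp ρ k V z * DT ρ V z)))
            + ρ ^ 2 * (deriv ψ z.1 * (Th ρ k V z * dT Z z))
            + ρ ^ 2 * (ψ z.1 * ((Thp ρ k V z * DX ρ V z + Thq ρ k V z * dX (dT V) z)
              * dT Z z))) := by
        funext z
        rw [dT_dX_comm hZ, Thq_eq, Lop_eq]
        field_simp
        ring
      rw [e2, J_sub hA hB] at e
      linarith
    · exact (XS.of_fst hc).mul_left _
    · exact (Per.of_fst ψ).mul ((Th_per ρ k hp).mul hZp.dX)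
    · intro x t
      exact ((Th_hT ρ hk h x t).mul (hZ.dX.hT x t)).const_mul (ψ x)
    · fun_prop
  · exact (XS.of_fst hc).mul_left _
  · intro x t
    exact (hasDerivAt_of_smooth hs x).mul ((Th_hX ρ hk h x t).mul (hZ.dT.hX x t))
  · fun_prop

end

end Pool.Agent.Helper42.Fr
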