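import Pool.Agent.Helper42.Fr.Calc

set_option autoImplicit false

open MeasureTheory Filter Topology
open scoped Convolution

namespace Pool.Agent.Helper42.Fr

/-! ### the kernels -/

lemma eta_nonneg (x : ℝ) : 0 ≤ eta x := bmp.nonneg_normed x

lemma eta_smooth : ContDiff ℝ (⊤ : ℕ∞) eta := bmp.contDiff_normed

lemma eta_int : ∫ x, eta x = 1 := bmp.integral_normed

lemma eta_neg (x : ℝ) : eta (-x) = eta x := bmp.normed_neg x

lemma eta_tsupport : tsupport eta = Metric.closedBall 0 1 := bmp.tsupport_normed_eq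

lemma eta_cpt : HasCompactSupport eta := bmp.hasCompactSupport_normed

lemma eta_zero {x : ℝ} (h : 1 < |x|) : eta x = 0 := by
  by_contra hne
  have : x ∈ tsupport eta := subset_tsupport _ hne
  rw [eta_tsupport] at this
  simp at this
  linarith

lemma etaS_nonneg {ε : ℝ} (hε : 0 < ε) (x : ℝ) : 0 ≤ etaS ε x :=
  mul_nonneg (inv_nonneg.2 hε.le) (eta_nonneg _)

lemma etaS_smooth (ε : ℝ) : ContDiff ℝ (⊤ : ℕ∞) (etaS ε) :=
  contDiff_const.mul (eta_smooth.comp (contDiff_id.div_const ε))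

lemma etaS_neg (ε x : ℝ) : etaS ε (-x) = etaS ε x := by
  unfold etaS
  rw [neg_div, eta_neg]

lemma etaS_zero {ε x : ℝ} (hε : 0 < ε) (h : ε < |x|) : etaS ε x = 0 := by
  unfold etaS
  rw [eta_zero, mul_zero]
  rw [abs_div, abs_of_pos hε, lt_div_iff₀ hε]
  linarith

lemma etaS_cpt {ε : ℝ} (hε : 0 < ε) : HasCompactSupport (etaS ε) := by
  refine HasCompactSupport.of_support_subset_isCompact (isCompact_Icc (a := -ε) (b := ε)) ?_
  intro x hx
  by_contra hcon
  apply hx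
  apply etaS_zero hε
  by_contra h2
  push Not at h2
  exact hcon (abs_le.1 h2)

lemma etaS_int {ε : ℝ} (hε : 0 < ε) : ∫ x, etaS ε x = 1 := by
  unfold etaS
  rw [integral_const_mul, Measure.integral_comp_div (fun x => eta x) ε, eta_int, abs_of_pos hε]
  simp [hε.ne']

lemma ker_smooth (ε : ℝ) : Sm (ker ε) :=
  ((etaS_smooth ε).comp contDiff_fst).mul ((etaS_smooth ε).comp contDiff_snd)

lemma ker_nonneg {ε : ℝ} (hε : 0 < ε) (z : ℝ × ℝ) : 0 ≤ ker ε z :=
  mul_nonneg (etaS_nonneg hε _) (etaS_nonneg hε _)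

lemma ker_zero {ε : ℝ} (hε : 0 < ε) {z : ℝ × ℝ} (h : ε < |z.1| ∨ ε < |z.2|) : ker ε z = 0 := by
  unfold ker
  rcases h with h | h
  · rw [etaS_zero hε h, zero_mul]
  · rw [etaS_zero hε h, mul_zero]

lemma ker_cpt {ε : ℝ} (hε : 0 < ε) : HasCompactSupport (ker ε) := by
  refine HasCompactSupport.of_support_subset_isCompact
    ((isCompact_Icc (a := -ε) (b := ε)).prod (isCompact_Icc (a := -ε) (b := ε))) ?_
  intro z hz
  by_contra hcon
  apply hz
  apply ker_zero hε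
  by_contra h2
  push Not at h2
  exact hcon ⟨abs_le.1 h2.1, abs_le.1 h2.2⟩

lemma ker_tsupport {ε : ℝ} (hε : 0 < ε) :
    tsupport (ker ε) ⊆ Set.Icc (-ε) ε ×ˢ Set.Icc (-ε) ε := by
  apply closure_minimal _ (isClosed_Icc.prod isClosed_Icc)
  intro z hz
  by_contra hcon
  apply hz
  apply ker_zero hε
  by_contra h2
  push Not at h2
  exact hcon ⟨abs_le.1 h2.1, abs_le.1 h2.2⟩

lemma ker_int {ε : ℝ} (hε : 0 < ε) : ∫ z, ker ε z = 1 := by
  unfold ker
  rw [Measure.volume_eq_prod, integral_prod_mul (fun x => etaS ε x) (fun x => etaS ε x),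
    etaS_int hε]
  simp

/-! ### supports of derivatives -/

lemma cpt_dX {g : ℝ × ℝ → ℝ} (h : HasCompactSupport g) : HasCompactSupport (dX g) :=
  (h.fderiv ℝ).comp_left (g := fun L : ℝ × ℝ →L[ℝ] ℝ => L (1, 0)) rfl

lemma cpt_dT {g : ℝ × ℝ → ℝ} (h : HasCompactSupport g) : HasCompactSupport (dT g) :=
  (h.fderiv ℝ).comp_left (g := fun L : ℝ × ℝ →L[ℝ] ℝ => L (0, 1)) rfl

/-! ### convolution -/

/-- convolution. -/
noncomputable def cv (f g : ℝ × ℝ → ℝ) (z : ℝ × ℝ) : ℝ := ∫ w, f w * g (z - w)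

lemma moll_eq (ε : ℝ) (v : ℝ × ℝ → ℝ) : moll ε v = cv v (ker ε) := rfl

lemma cv_eq_conv (f g : ℝ × ℝ → ℝ) :
    cv f g = (f ⋆[ContinuousLinearMap.mul ℝ ℝ, (volume : Measure (ℝ × ℝ))] g) := rfl

lemma cv_smooth {f g : ℝ × ℝ → ℝ} (hf : LocallyIntegrable f) (hg : Sm g)
    (hc : HasCompactSupport g) : Sm (cv f g) := by
  rw [cv_eq_conv]
  exact hc.contDiff_convolution_right _ hf hg

lemma cv_fderiv {f g : ℝ × ℝ → ℝ} (hf : LocallyIntegrable f) (hg : Sm g)
    (hc : HasCompactSupport g) (e z : ℝ × ℝ) :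
    fderiv ℝ (cv f g) z e = cv f (fun w => fderiv ℝ g w e) z := by
  have hg1 : ContDiff ℝ 1 g := hg.of_le (by exact_mod_cast le_top)
  have h := hc.hasFDerivAt_convolution_right (ContinuousLinearMap.mul ℝ ℝ) hf hg1 z
  rw [cv_eq_conv, h.fderiv]
  rw [convolution_precompR_apply _ hf (hc.fderiv ℝ) (hg1.continuous_fderiv one_ne_zero)]
  rfl

lemma dX_cv {f g : ℝ × ℝ → ℝ} (hf : LocallyIntegrable f) (hg : Sm g)
    (hc : HasCompactSupport g) : dX (cv f g) = cv f (dX g) := by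
  funext z; exact cv_fderiv hf hg hc (1, 0) z

lemma dT_cv {f g : ℝ × ℝ → ℝ} (hf : LocallyIntegrable f) (hg : Sm g)
    (hc : HasCompactSupport g) : dT (cv f g) = cv f (dT g) := by
  funext z; exact cv_fderiv hf hg hc (0, 1) z

lemma cv_swap (f g : ℝ × ℝ → ℝ) (z : ℝ × ℝ) : cv f g z = ∫ w, f (z - w) * g w := by
  unfold cv
  rw [← integral_sub_left_eq_self (fun w => f w * g (z - w)) volume z]
  simp

lemma cv_integrand {f g : ℝ × ℝ → ℝ} (hf : LocallyIntegrable f) (hg : Continuous g)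
    (hc : HasCompactSupport g) (z : ℝ × ℝ) : Integrable (fun w => f w * g (z - w)) :=
  hc.convolutionExists_right (ContinuousLinearMap.mul ℝ ℝ) hf hg z

lemma cv_integrand' {f g : ℝ × ℝ → ℝ} (hf : LocallyIntegrable f) (hg : Continuous g)
    (hc : HasCompactSupport g) (z : ℝ × ℝ) : Integrable (fun w => f (z - w) * g w) := by
  have h := (cv_integrand hf hg hc z).comp_sub_left z
  simpa using h

lemma cv_add_left {f₁ f₂ g : ℝ × ℝ → ℝ} (h₁ : LocallyIntegrable f₁) (h₂ : LocallyIntegrable f₂)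
    (hg : Continuous g) (hc : HasCompactSupport g) (z : ℝ × ℝ) :
    cv (fun w => f₁ w + f₂ w) g z = cv f₁ g z + cv f₂ g z := by
  unfold cv
  rw [← integral_add (cv_integrand h₁ hg hc z) (cv_integrand h₂ hg hc z)]
  congr 1; funext w; ring

lemma cv_sub_left {f₁ f₂ g : ℝ × ℝ → ℝ} (h₁ : LocallyIntegrable f₁) (h₂ : LocallyIntegrable f₂)
    (hg : Continuous g) (hc : HasCompactSupport g) (z : ℝ × ℝ) :
    cv (fun w => f₁ w - f₂ w) g z = cv f₁ g z - cv f₂ g z := by
  unfold cv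
  rw [← integral_sub (cv_integrand h₁ hg hc z) (cv_integrand h₂ hg hc z)]
  congr 1; funext w; ring

lemma cv_const_left (c : ℝ) (f g : ℝ × ℝ → ℝ) (z : ℝ × ℝ) :
    cv (fun w => c * f w) g z = c * cv f g z := by
  unfold cv
  rw [← integral_const_mul]
  congr 1; funext w; ring

lemma cv_add_right {f g₁ g₂ : ℝ × ℝ → ℝ} (hf : LocallyIntegrable f)
    (hg₁ : Continuous g₁) (hc₁ : HasCompactSupport g₁)
    (hg₂ : Continuous g₂) (hc₂ : HasCompactSupport g₂) (z : ℝ × ℝ) :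
    cv f (fun w => g₁ w + g₂ w) z = cv f g₁ z + cv f g₂ z := by
  unfold cv
  rw [← integral_add (cv_integrand hf hg₁ hc₁ z) (cv_integrand hf hg₂ hc₂ z)]
  congr 1; funext w; ring

lemma cv_const_right (c : ℝ) (f g : ℝ × ℝ → ℝ) (z : ℝ × ℝ) :
    cv f (fun w => c * g w) z = c * cv f g z := by
  unfold cv
  rw [← integral_const_mul]
  congr 1; funext w; ring

lemma cv_shift (f g : ℝ × ℝ → ℝ) (X : ℝ) : cv (shift X f) g = shift X (cv f g) := by
  funext z
  show cv (shift X f) g z = cv f g (z.1 + X, z.2)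
  rw [cv_swap, cv_swap]
  congr 1; funext w
  show f ((z - w).1 + X, (z - w).2) * g w = _
  congr 2
  ext
  · simp; ring
  · simp

lemma cv_per {f : ℝ × ℝ → ℝ} (hf : Per f) (g : ℝ × ℝ → ℝ) : Per (cv f g) := by
  intro x t
  rw [cv_swap, cv_swap]
  congr 1; funext w
  congr 1
  have := hf (x - w.1) (t - w.2)
  have e1 : ((x, t + 2 * Real.pi) - w : ℝ × ℝ) = (x - w.1, t - w.2 + 2 * Real.pi) := by
    ext
    · simp
    · simp; ring
  rw [e1, this]
  rfl

/-- bounded by `C`. -/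
lemma cv_bound {f g : ℝ × ℝ → ℝ} {C : ℝ} (hf : ∀ z, |f z| ≤ C) (hg : Integrable g) (z : ℝ × ℝ) :
    |cv f g z| ≤ C * ∫ w, |g w| := by
  rw [cv_swap, ← integral_const_mul, ← Real.norm_eq_abs]
  apply norm_integral_le_of_norm_le (hg.abs.const_mul C)
  refine Eventually.of_forall fun w => ?_
  rw [Real.norm_eq_abs, abs_mul]
  exact mul_le_mul_of_nonneg_right (hf _) (abs_nonneg _)

/-- a bound over a neighbourhood that contains the support. -/
lemma cv_bound_loc {f g : ℝ × ℝ → ℝ} {C : ℝ} {z : ℝ × ℝ}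
    (hf : ∀ w, g w ≠ 0 → |f (z - w)| ≤ C) (hg : Integrable g) :
    |cv f g z| ≤ C * ∫ w, |g w| := by
  rw [cv_swap, ← integral_const_mul, ← Real.norm_eq_abs]
  apply norm_integral_le_of_norm_le (hg.abs.const_mul C)
  refine Eventually.of_forall fun w => ?_
  rw [Real.norm_eq_abs, abs_mul]
  by_cases h0 : g w = 0
  · simp [h0]
  · exact mul_le_mul_of_nonneg_right (hf w h0) (abs_nonneg _)

lemma ker_integrable {ε : ℝ} (hε : 0 < ε) : Integrable (ker ε) :=
  (ker_smooth ε).continuous.integrable_of_hasCompactSupport (ker_cpt hε)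

lemma ker_abs_int {ε : ℝ} (hε : 0 < ε) : ∫ z, |ker ε z| = 1 := by
  rw [← ker_int hε]
  congr 1; funext z
  exact abs_of_nonneg (ker_nonneg hε z)

/-- mollification is an average. -/
lemma moll_sub_const_le {ε : ℝ} (hε : 0 < ε) {f : ℝ × ℝ → ℝ} (hf : LocallyIntegrable f)
    {a C : ℝ} {z : ℝ × ℝ} (h : ∀ w : ℝ × ℝ, |w.1| ≤ ε → |w.2| ≤ ε → |f (z - w) - a| ≤ C) :
    |moll ε f z - a| ≤ C := by
  have e : moll ε f z - a = cv (fun w => f w - a) (ker ε) z := by
    rw [cv_sub_left hf (locallyIntegrable_const a) (ker_smooth ε).continuous (ker_cpt hε)]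
    rw [moll_eq]
    congr 1
    rw [cv_swap, integral_const_mul, ker_int hε, mul_one]
  rw [e]
  have := cv_bound_loc (f := fun w => f w - a) (g := ker ε) (C := C) (z := z) ?_
    (ker_integrable hε)
  · rwa [ker_abs_int hε, mul_one] at this
  · intro w hw
    apply h w
    · by_contra hcon
      push Not at hcon
      exact hw (ker_zero hε (Or.inl hcon))
    · by_contra hcon
      push Not at hcon
      exact hw (ker_zero hε (Or.inr hcon))

lemma moll_bound {ε : ℝ} (hε : 0 < ε) {f : ℝ × ℝ → ℝ} {C : ℝ} (hf : ∀ z, |f z| ≤ C) (z : ℝ × ℝ) :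
    |moll ε f z| ≤ C := by
  have := cv_bound hf (ker_integrable hε) z
  rwa [ker_abs_int hε, mul_one] at this

/-- one sided comparison. -/
lemma moll_le {ε : ℝ} (hε : 0 < ε) {f : ℝ × ℝ → ℝ} (hf : LocallyIntegrable f)
    {a : ℝ} {z : ℝ × ℝ} (h : ∀ w : ℝ × ℝ, |w.1| ≤ ε → |w.2| ≤ ε → f (z - w) ≤ a) :
    moll ε f z ≤ a := by
  have h1 : Integrable (fun w => f (z - w) * ker ε w) :=
    cv_integrand' hf (ker_smooth ε).continuous (ker_cpt hε) z
  rw [moll_eq, cv_swap]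
  have h2 : ∫ w, f (z - w) * ker ε w ≤ ∫ w, a * ker ε w := by
    apply integral_mono h1 ((ker_integrable hε).const_mul a)
    intro w
    by_cases h0 : ker ε w = 0
    · simp [h0]
    · refine mul_le_mul_of_nonneg_right (h w ?_ ?_) (ker_nonneg hε w)
      · by_contra hcon
        push Not at hcon
        exact h0 (ker_zero hε (Or.inl hcon))
      · by_contra hcon
        push Not at hcon
        exact h0 (ker_zero hε (Or.inr hcon))
  rwa [integral_const_mul, ker_int hε, mul_one] at h2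

lemma moll_neg (ε : ℝ) (f : ℝ × ℝ → ℝ) (z : ℝ × ℝ) :
    moll ε (fun w => - f w) z = - moll ε f z := by
  unfold moll
  rw [← integral_neg]
  congr 1; funext w; ring

lemma le_moll {ε : ℝ} (hε : 0 < ε) {f : ℝ × ℝ → ℝ} (hf : LocallyIntegrable f)
    {a : ℝ} {z : ℝ × ℝ} (h : ∀ w : ℝ × ℝ, |w.1| ≤ ε → |w.2| ≤ ε → a ≤ f (z - w)) :
    a ≤ moll ε f z := by
  have := moll_le hε (f := fun w => - f w) hf.neg (a := -a) (z := z)
    (fun w h1 h2 => neg_le_neg (h w h1 h2))
  rw [moll_neg] at this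
  linarith

/-- commuting two kernels. -/
lemma cv_comm {f g₁ g₂ : ℝ × ℝ → ℝ} {C : ℝ} (hf : Continuous f) (hfb : ∀ z, |f z| ≤ C)
    (hg₁ : Continuous g₁) (hc₁ : HasCompactSupport g₁)
    (hg₂ : Continuous g₂) (hc₂ : HasCompactSupport g₂) (z : ℝ × ℝ) :
    cv (cv f g₁) g₂ z = cv (cv f g₂) g₁ z := by
  have i₁ : Integrable g₁ := hg₁.integrable_of_hasCompactSupport hc₁
  have i₂ : Integrable g₂ := hg₂.integrable_of_hasCompactSupport hc₂
  have key : ∀ g₁ g₂ : ℝ × ℝ → ℝ, cv (cv f g₁) g₂ z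
      = ∫ w, ∫ w', f (z - w - w') * g₁ w' * g₂ w := by
    intro g₁ g₂
    rw [cv_swap]
    congr 1; funext w
    rw [cv_swap, ← integral_mul_const]
  rw [key, key]
  rw [integral_integral_swap]
  · congr 1; funext w
    congr 1; funext w'
    rw [sub_right_comm]; ring
  · have hm : AEStronglyMeasurable
        (Function.uncurry fun w w' : ℝ × ℝ => f (z - w - w') * g₁ w' * g₂ w)
        (volume.prod volume) := by
      apply Continuous.aestronglyMeasurable
      have : Continuous fun p : (ℝ × ℝ) × (ℝ × ℝ) => f (z - p.1 - p.2) * g₁ p.2 * g₂ p.1 := by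
        fun_prop
      exact this
    have hi : Integrable (fun p : (ℝ × ℝ) × (ℝ × ℝ) => C * (|g₂ p.1| * |g₁ p.2|))
        (volume.prod volume) := (i₂.abs.mul_prod i₁.abs).const_mul C
    refine hi.mono' hm (Eventually.of_forall fun p => ?_)
    show ‖f (z - p.1 - p.2) * g₁ p.2 * g₂ p.1‖ ≤ _
    rw [Real.norm_eq_abs, abs_mul, abs_mul]
    calc |f (z - p.1 - p.2)| * |g₁ p.2| * |g₂ p.1|
        = |f (z - p.1 - p.2)| * (|g₂ p.1| * |g₁ p.2|) := by ring
      _ ≤ C * (|g₂ p.1| * |g₁ p.2|) :=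
        mul_le_mul_of_nonneg_right (hfb _) (mul_nonneg (abs_nonneg _) (abs_nonneg _))

end Pool.Agent.Helper42.Fr
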