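import Pool.Agent.Helper42.Fr.Contr

set_option autoImplicit false

open MeasureTheory Filter Topology

namespace Pool.Agent.Helper42.Fr

lemma exists_dom_le {χ : ℝ → ℝ} (hχ : IsCut χ) :
    ∃ χ₁ : ℝ → ℝ, IsCut χ₁ ∧ ∀ x y, |y| ≤ 1 → χ (x + y) ≤ χ₁ x := by
  obtain ⟨χ₁, h1, h2⟩ := exists_dom hχ.smooth.continuous hχ.cpt
  exact ⟨χ₁, h1, fun x y hy => (le_abs_self _).trans (h2 x y hy)⟩

section cls

variable {ρ C : ℝ} {h : ℝ → ℝ}

/-- (A2) translation differences of the gradient. -/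
theorem grad_shift (hh : IndH ρ C h) {χ : ℝ → ℝ} (hχ : IsCut χ) :
    ∃ M : ℝ, 0 ≤ M ∧ ∀ v, InC ρ C h v → ∀ ε σ : ℝ, 0 < ε → ε ≤ 1 → |σ| ≤ 1 →
      J (fun z => χ z.1 * (shift σ (dX (moll ε v)) z - dX (moll ε v) z) ^ 2) ≤ M * σ ^ 2 ∧
      J (fun z => χ z.1 * (shift σ (dT (moll ε v)) z - dT (moll ε v) z) ^ 2) ≤ M * σ ^ 2 := by
  obtain ⟨χ₁, hχ₁, hdom⟩ := exists_dom_le hχ
  obtain ⟨M, hM0, hM⟩ := grad_shift_aux hh hχ₁
  have hC := hh.C_nonneg
  refine ⟨M, hM0, fun v hv ε σ hε hε1 hσ => ?_⟩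
  have sV : Sm (moll ε v) := moll_smooth hε hv.locInt
  have hdom' : ∀ x y, |y| ≤ ε → χ (x + y) ≤ χ₁ x := fun x y hy => hdom x y (hy.trans hε1)
  constructor
  · refine sq_limit hχ ?_ fun δ hδ => ?_
    · exact ((sV.dX.shift σ).cont).sub sV.dX.cont
    · set I := ∫ w, |dX (ker ε) w| with hI
      have hI0 : 0 ≤ I := abs_int_dX_ker ε
      set ε' : ℝ := δ / (M + 4 * C * I + 1) with hε'
      have hden : 0 < M + 4 * C * I + 1 := by positivity
      have hε'0 : 0 < ε' := by positivity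
      have e1 : ε' * (M + 4 * C * I + 1) = δ := by rw [hε']; field_simp
      have sV' : Sm (moll ε' v) := moll_smooth hε'0 hv.locInt
      have pV' : Per (moll ε' v) := moll_per ε' hv.perV
      set f : ℝ × ℝ → ℝ := fun z => shift σ (dX (moll ε' v)) z - dX (moll ε' v) z with hf
      have cf : Continuous f := ((sV'.dX.shift σ).cont).sub sV'.dX.cont
      have pf : Per f := (pV'.dX.shift σ).sub pV'.dX
      refine ⟨moll ε f, (moll_smooth hε cf.locallyIntegrable).cont, fun z => ?_, ?_⟩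
      · have e2 : moll ε f z = shift σ (moll ε (dX (moll ε' v))) z - moll ε (dX (moll ε' v)) z := by
          rw [← moll_shift ε σ]
          exact cv_sub_left (sV'.dX.shift σ).cont.locallyIntegrable sV'.dX.cont.locallyIntegrable
            (ker_smooth ε).cont (ker_cpt hε) z
        rw [e2]
        have h1 := close_dX hC hv hε hε'0 z
        have h2 := close_dX hC hv hε hε'0 (z.1 + σ, z.2)
        have e3 : shift σ (dX (moll ε v)) z - dX (moll ε v) z
            - (shift σ (moll ε (dX (moll ε' v))) z - moll ε (dX (moll ε' v)) z)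
            = (dX (moll ε v) (z.1 + σ, z.2) - moll ε (dX (moll ε' v)) (z.1 + σ, z.2))
              - (dX (moll ε v) z - moll ε (dX (moll ε' v)) z) := by
          simp only [shift]; ring
        rw [e3]
        refine (abs_sub _ _).trans ?_
        have : 0 ≤ ε' * M + ε' := by positivity
        nlinarith
      · refine (J_moll_sq hχ hχ₁ hε hdom' cf pf).trans ?_
        have h1 := hM v hv ε' σ hε'0 hσ
        have h2 : J (fun z => χ₁ z.1 * f z ^ 2) ≤ J (fun z => χ₁ z.1 *
            (dX (fun z => shift σ (moll ε' v) z - moll ε' v z) z ^ 2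
            + dT (fun z => shift σ (moll ε' v) z - moll ε' v z) z ^ 2)) := by
          have e4 : dX (fun z => shift σ (moll ε' v) z - moll ε' v z) = f := by
            rw [dX_sub (sV'.shift σ) sV', dX_shift sV']
          have sT := ((sV'.shift σ).sub sV').dT.cont
          rw [e4]
          refine J_mono (hχ₁.mul_cx (by fun_prop)) (hχ₁.mul_cx (by fun_prop)) fun z => ?_
          refine mul_le_mul_of_nonneg_left ?_ (hχ₁.nonneg _)
          nlinarith [sq_nonneg (dT (fun z => shift σ (moll ε' v) z - moll ε' v z) z)]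
        refine h2.trans (h1.trans ?_)
        have : 0 ≤ ε' * (4 * C * I) + ε' := by positivity
        nlinarith
  · refine sq_limit hχ ?_ fun δ hδ => ?_
    · exact ((sV.dT.shift σ).cont).sub sV.dT.cont
    · set I := ∫ w, |dT (ker ε) w| with hI
      have hI0 : 0 ≤ I := abs_int_dT_ker ε
      set ε' : ℝ := δ / (M + 4 * C * I + 1) with hε'
      have hden : 0 < M + 4 * C * I + 1 := by positivity
      have hε'0 : 0 < ε' := by positivity
      have e1 : ε' * (M + 4 * C * I + 1) = δ := by rw [hε']; field_simp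
      have sV' : Sm (moll ε' v) := moll_smooth hε'0 hv.locInt
      have pV' : Per (moll ε' v) := moll_per ε' hv.perV
      set f : ℝ × ℝ → ℝ := fun z => shift σ (dT (moll ε' v)) z - dT (moll ε' v) z with hf
      have cf : Continuous f := ((sV'.dT.shift σ).cont).sub sV'.dT.cont
      have pf : Per f := (pV'.dT.shift σ).sub pV'.dT
      refine ⟨moll ε f, (moll_smooth hε cf.locallyIntegrable).cont, fun z => ?_, ?_⟩
      · have e2 : moll ε f z = shift σ (moll ε (dT (moll ε' v))) z - moll ε (dT (moll ε' v)) z := by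
          rw [← moll_shift ε σ]
          exact cv_sub_left (sV'.dT.shift σ).cont.locallyIntegrable sV'.dT.cont.locallyIntegrable
            (ker_smooth ε).cont (ker_cpt hε) z
        rw [e2]
        have h1 := close_dT hC hv hε hε'0 z
        have h2 := close_dT hC hv hε hε'0 (z.1 + σ, z.2)
        have e3 : shift σ (dT (moll ε v)) z - dT (moll ε v) z
            - (shift σ (moll ε (dT (moll ε' v))) z - moll ε (dT (moll ε' v)) z)
            = (dT (moll ε v) (z.1 + σ, z.2) - moll ε (dT (moll ε' v)) (z.1 + σ, z.2))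
              - (dT (moll ε v) z - moll ε (dT (moll ε' v)) z) := by
          simp only [shift]; ring
        rw [e3]
        refine (abs_sub _ _).trans ?_
        have : 0 ≤ ε' * M + ε' := by positivity
        nlinarith
      · refine (J_moll_sq hχ hχ₁ hε hdom' cf pf).trans ?_
        have h1 := hM v hv ε' σ hε'0 hσ
        have h2 : J (fun z => χ₁ z.1 * f z ^ 2) ≤ J (fun z => χ₁ z.1 *
            (dX (fun z => shift σ (moll ε' v) z - moll ε' v z) z ^ 2
            + dT (fun z => shift σ (moll ε' v) z - moll ε' v z) z ^ 2)) := by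
          have e4 : dT (fun z => shift σ (moll ε' v) z - moll ε' v z) = f := by
            rw [dT_sub (sV'.shift σ) sV', dT_shift sV']
          have sT := ((sV'.shift σ).sub sV').dX.cont
          rw [e4]
          refine J_mono (hχ₁.mul_cx (by fun_prop)) (hχ₁.mul_cx (by fun_prop)) fun z => ?_
          refine mul_le_mul_of_nonneg_left ?_ (hχ₁.nonneg _)
          nlinarith [sq_nonneg (dX (fun z => shift σ (moll ε' v) z - moll ε' v z) z)]
        refine h2.trans (h1.trans ?_)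
        have : 0 ≤ ε' * (4 * C * I) + ε' := by positivity
        nlinarith

end cls

/-- difference quotients: first order error. -/
lemma diff_quot {W : ℝ × ℝ → ℝ} (hW : Sm W) {K : ℝ} (hK : ∀ z, |dX (dX W) z| ≤ K) {σ : ℝ}
    (hσ : 0 < σ) (z : ℝ × ℝ) : |dX W z - σ⁻¹ * (shift σ W z - W z)| ≤ K * σ := by
  obtain ⟨x, t⟩ := z
  have hK0 : 0 ≤ K := (abs_nonneg _).trans (hK (x, t))
  obtain ⟨ξ, hξ, he⟩ := exists_hasDerivAt_eq_slope (fun y => W (y, t)) (fun y => dX W (y, t))
    (show x < x + σ by linarith)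
    (by
      have : Continuous fun y => W (y, t) := hW.cont.comp (continuous_id.prodMk continuous_const)
      exact this.continuousOn)
    (fun y _ => hW.hX y t)
  have e1 : σ⁻¹ * (shift σ W (x, t) - W (x, t)) = dX W (ξ, t) := by
    rw [he]
    simp only [shift]
    rw [add_sub_cancel_left]
    field_simp
  rw [e1]
  have key : ∀ y ∈ (Set.univ : Set ℝ), HasDerivWithinAt (fun y => dX W (y, t)) (dX (dX W) (y, t))
      Set.univ y := fun y _ => (hW.dX.hX y t).hasDerivWithinAt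
  have := convex_univ.norm_image_sub_le_of_norm_hasDerivWithin_le key
    (fun y _ => hK (y, t)) (x := ξ) (y := x) trivial trivial
  rw [Real.norm_eq_abs, Real.norm_eq_abs] at this
  refine this.trans (mul_le_mul_of_nonneg_left ?_ hK0)
  rw [abs_sub_comm, abs_of_pos (by linarith [hξ.1])]
  linarith [hξ.2]

lemma sq_dX_le {χ : ℝ → ℝ} (hχ : IsCut χ) {W : ℝ × ℝ → ℝ} (hW : Sm W) {K : ℝ}
    (hK : ∀ z, |dX (dX W) z| ≤ K) {M : ℝ}
    (H : ∀ σ : ℝ, 0 < σ → σ ≤ 1 → J (fun z => χ z.1 * (shift σ W z - W z) ^ 2) ≤ M * σ ^ 2) :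
    J (fun z => χ z.1 * dX W z ^ 2) ≤ M := by
  have hK0 : 0 ≤ K := (abs_nonneg _).trans (hK 0)
  refine sq_limit hχ hW.dX.cont fun δ hδ => ?_
  set σ : ℝ := min 1 (δ / (K + 1)) with hσ
  have hσ0 : 0 < σ := by positivity
  have hσ1 : σ ≤ 1 := min_le_left _ _
  have hσ2 : K * σ ≤ δ := by
    have h1 : σ ≤ δ / (K + 1) := min_le_right _ _
    rw [le_div_iff₀ (by positivity)] at h1
    nlinarith
  refine ⟨fun z => σ⁻¹ * (shift σ W z - W z), ?_, fun z => (diff_quot hW hK hσ0 z).trans hσ2, ?_⟩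
  · exact continuous_const.mul ((hW.shift σ).cont.sub hW.cont)
  · have e : (fun z => χ z.1 * (σ⁻¹ * (shift σ W z - W z)) ^ 2)
        = fun z => (σ ^ 2)⁻¹ * (χ z.1 * (shift σ W z - W z) ^ 2) := by
      funext z
      field_simp
    rw [e, J_const_mul]
    have h1 := H σ hσ0 hσ1
    have h2 : (σ ^ 2)⁻¹ * (M * σ ^ 2) = M := by field_simp
    have h3 := mul_le_mul_of_nonneg_left h1 (show 0 ≤ (σ ^ 2)⁻¹ by positivity)
    linarith

lemma cv_bdd_of {v g : ℝ × ℝ → ℝ} {C : ℝ} (hv : ∀ z, |v z| ≤ C) (hg : Continuous g)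
    (hc : HasCompactSupport g) : ∃ K, ∀ z, |cv v g z| ≤ K :=
  ⟨_, fun z => cv_bound hv (hg.integrable_of_hasCompactSupport hc) z⟩

section cls

variable {ρ C : ℝ} {h : ℝ → ℝ}

/-- (A3) second derivatives in L2. -/
theorem sec_bound (hh : IndH ρ C h) {χ : ℝ → ℝ} (hχ : IsCut χ) :
    ∃ M : ℝ, 0 ≤ M ∧ ∀ v, InC ρ C h v → ∀ ε : ℝ, 0 < ε → ε ≤ 1 →
      J (fun z => χ z.1 * dX (dX (moll ε v)) z ^ 2) ≤ M ∧
      J (fun z => χ z.1 * dX (dT (moll ε v)) z ^ 2) ≤ M := by
  obtain ⟨M, hM0, hM⟩ := grad_shift hh hχ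
  refine ⟨M, hM0, fun v hv ε hε hε1 => ?_⟩
  have s := ker_smooth ε
  have c := ker_cpt hε
  have sV : Sm (moll ε v) := moll_smooth hε hv.locInt
  constructor
  · obtain ⟨K, hK⟩ : ∃ K, ∀ z, |dX (dX (dX (moll ε v))) z| ≤ K := by
      rw [moll_eq, dX_cv hv.locInt s c, dX_cv hv.locInt s.dX (cpt_dX c),
        dX_cv hv.locInt s.dX.dX (cpt_dX (cpt_dX c))]
      exact cv_bdd_of hv.bdd s.dX.dX.dX.cont (cpt_dX (cpt_dX (cpt_dX c)))
    refine sq_dX_le hχ sV.dX hK fun σ hσ hσ1 => ?_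
    exact (hM v hv ε σ hε hε1 (by rw [abs_of_pos hσ]; exact hσ1)).1
  · obtain ⟨K, hK⟩ : ∃ K, ∀ z, |dX (dX (dT (moll ε v))) z| ≤ K := by
      rw [moll_eq, dT_cv hv.locInt s c, dX_cv hv.locInt s.dT (cpt_dT c),
        dX_cv hv.locInt s.dT.dX (cpt_dX (cpt_dT c))]
      exact cv_bdd_of hv.bdd s.dT.dX.dX.cont (cpt_dX (cpt_dX (cpt_dT c)))
    refine sq_dX_le hχ sV.dT hK fun σ hσ hσ1 => ?_
    exact (hM v hv ε σ hε hε1 (by rw [abs_of_pos hσ]; exact hσ1)).2

end cls

end Pool.Agent.Helper42.Fr
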