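import Pool.Agent.Helper42.Fr.Mono

set_option autoImplicit false

open MeasureTheory Filter Topology

namespace Pool.Agent.Helper42.Fr

/-- bound of the inner integral for weights between 0 and 1. -/
lemma inner_small {ρ : ℝ} (hρ : 0 < ρ) {k : ℝ → ℝ} (hk : Continuous k) (h01 : ∀ s, 0 ≤ k s ∧ k s ≤ 1)
    {p q M a : ℝ} (hq : 0 ≤ q) (hM : (p ^ 2 + q ^ 2) / ρ ^ 2 ≤ M) (ha : 0 < a) :
    0 ≤ ∫ τ in (0 : ℝ)..q, k ((p ^ 2 + τ ^ 2) / ρ ^ 2) ∧
    ∫ τ in (0 : ℝ)..q, k ((p ^ 2 + τ ^ 2) / ρ ^ 2)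
      ≤ a + ρ ^ 2 / (2 * a) * ∫ s in (0 : ℝ)..M, k s := by
  have hM0 : 0 ≤ M := le_trans (by positivity) hM
  set m : ℝ := ∫ s in (0 : ℝ)..M, k s with hm
  have hm0 : 0 ≤ m := intervalIntegral.integral_nonneg hM0 fun s _ => (h01 s).1
  have hc : Continuous fun τ : ℝ => k ((p ^ 2 + τ ^ 2) / ρ ^ 2) := by fun_prop
  have hKmono : ∀ x y : ℝ, x ≤ y → KK k x ≤ KK k y := by
    intro x y hxy
    have : KK k y - KK k x = ∫ s in x..y, k s := by
      unfold KK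
      rw [intervalIntegral.integral_interval_sub_left (hk.intervalIntegrable _ _)
        (hk.intervalIntegrable _ _)]
    have h2 : 0 ≤ ∫ s in x..y, k s := intervalIntegral.integral_nonneg hxy fun s _ => (h01 s).1
    linarith
  have hKm : KK k M = m := rfl
  refine ⟨intervalIntegral.integral_nonneg hq fun s _ => (h01 _).1, ?_⟩
  have one : ∀ b : ℝ, 0 ≤ b → ∫ τ in (0 : ℝ)..b, k ((p ^ 2 + τ ^ 2) / ρ ^ 2) ≤ b := by
    intro b hb
    have h1 : ∫ τ in (0 : ℝ)..b, k ((p ^ 2 + τ ^ 2) / ρ ^ 2) ≤ ∫ _τ in (0 : ℝ)..b, (1 : ℝ) :=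
      intervalIntegral.integral_mono_on hb (hc.intervalIntegrable _ _) intervalIntegrable_const
        fun τ _ => (h01 _).2
    simpa using h1
  rcases le_total q a with hqa | hqa
  · have h1 := one q hq
    have h2 : 0 ≤ ρ ^ 2 / (2 * a) * m := by positivity
    linarith
  · have hsplit : ∫ τ in (0 : ℝ)..q, k ((p ^ 2 + τ ^ 2) / ρ ^ 2)
        = (∫ τ in (0 : ℝ)..a, k ((p ^ 2 + τ ^ 2) / ρ ^ 2))
          + ∫ τ in a..q, k ((p ^ 2 + τ ^ 2) / ρ ^ 2) :=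
      (intervalIntegral.integral_add_adjacent_intervals (hc.intervalIntegrable _ _)
        (hc.intervalIntegrable _ _)).symm
    rw [hsplit]
    have h1 := one a ha.le
    have hder : ∀ τ : ℝ, HasDerivAt (fun τ => ρ ^ 2 / (2 * a) * KK k ((p ^ 2 + τ ^ 2) / ρ ^ 2))
        (k ((p ^ 2 + τ ^ 2) / ρ ^ 2) * (τ / a)) τ := by
      intro τ
      have e1 : HasDerivAt (fun x : ℝ => (p ^ 2 + x ^ 2) / ρ ^ 2) (2 * τ / ρ ^ 2) τ := by
        have := ((hasDerivAt_pow 2 τ).const_add (p ^ 2)).div_const (ρ ^ 2)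
        simpa using this
      have e2 := ((KK_hasDerivAt hk ((p ^ 2 + τ ^ 2) / ρ ^ 2)).comp τ e1).const_mul
        (ρ ^ 2 / (2 * a))
      refine e2.congr_deriv ?_
      field_simp
    have hc2 : Continuous fun τ : ℝ => k ((p ^ 2 + τ ^ 2) / ρ ^ 2) * (τ / a) := by fun_prop
    have h2 : ∫ τ in a..q, k ((p ^ 2 + τ ^ 2) / ρ ^ 2)
        ≤ ∫ τ in a..q, k ((p ^ 2 + τ ^ 2) / ρ ^ 2) * (τ / a) := by
      refine intervalIntegral.integral_mono_on hqa (hc.intervalIntegrable _ _)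
        (hc2.intervalIntegrable _ _) fun τ hτ => ?_
      have e3 : 1 ≤ τ / a := by rw [le_div_iff₀ ha]; linarith [hτ.1]
      exact le_mul_of_one_le_right (h01 _).1 e3
    rw [intervalIntegral.integral_eq_sub_of_hasDerivAt (fun τ _ => hder τ)
      (hc2.intervalIntegrable _ _)] at h2
    have h3 : KK k ((p ^ 2 + q ^ 2) / ρ ^ 2) ≤ m := hKm ▸ hKmono _ _ hM
    have h4 : 0 ≤ KK k ((p ^ 2 + a ^ 2) / ρ ^ 2) := by
      have : KK k 0 = 0 := by unfold KK; simp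
      rw [← this]
      exact hKmono _ _ (by positivity)
    have h5 : 0 ≤ ρ ^ 2 / (2 * a) := by positivity
    have h6 := mul_le_mul_of_nonneg_left h3 h5
    have h7 := mul_nonneg h5 h4
    linarith

lemma Theta_small {ρ : ℝ} (hρ : 0 < ρ) {k : ℝ → ℝ} (hk : Continuous k)
    (h01 : ∀ s, 0 ≤ k s ∧ k s ≤ 1)
    {p q M : ℝ} (hM : (p ^ 2 + q ^ 2) / ρ ^ 2 ≤ M) :
    |Theta ρ k p q| ≤ (ρ ^ 2)⁻¹ * ((1 + ρ ^ 2) * Real.sqrt (∫ s in (0 : ℝ)..M, k s)) := by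
  have hM0 : 0 ≤ M := le_trans (by positivity) hM
  set m : ℝ := ∫ s in (0 : ℝ)..M, k s with hm
  have hm0 : 0 ≤ m := intervalIntegral.integral_nonneg hM0 fun s _ => (h01 s).1
  -- reduce to q ≥ 0
  have key : ∀ q : ℝ, 0 ≤ q → (p ^ 2 + q ^ 2) / ρ ^ 2 ≤ M →
      |∫ τ in (0 : ℝ)..q, k ((p ^ 2 + τ ^ 2) / ρ ^ 2)| ≤ (1 + ρ ^ 2) * Real.sqrt m := by
    intro q hq hqM
    refine le_of_forall_pos_le_add fun δ hδ => ?_
    rcases eq_or_lt_of_le hm0 with h0 | h0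
    · have h1 := inner_small hρ hk h01 hq hqM hδ
      rw [abs_of_nonneg h1.1]
      have h2 := h1.2
      rw [← hm, ← h0] at h2
      rw [← h0, Real.sqrt_zero]
      linarith
    · have hs : 0 < Real.sqrt m := Real.sqrt_pos.2 h0
      have h1 := inner_small hρ hk h01 hq hqM hs
      rw [abs_of_nonneg h1.1]
      have h2 := h1.2
      rw [← hm] at h2
      have h3 : ρ ^ 2 / (2 * Real.sqrt m) * m = ρ ^ 2 / 2 * Real.sqrt m := by
        have h4 : m = Real.sqrt m * Real.sqrt m := (Real.mul_self_sqrt hm0).symm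
        have h5 : ρ ^ 2 / (2 * Real.sqrt m) * (Real.sqrt m * Real.sqrt m)
            = ρ ^ 2 / 2 * Real.sqrt m := by field_simp
        rw [← h4] at h5
        exact h5
      rw [h3] at h2
      have h6 : 0 ≤ ρ ^ 2 * Real.sqrt m := by positivity
      nlinarith
  unfold Theta
  rw [abs_mul, abs_of_nonneg (inv_nonneg.2 (sq_nonneg ρ))]
  refine mul_le_mul_of_nonneg_left ?_ (inv_nonneg.2 (sq_nonneg ρ))
  rcases le_total 0 q with hq | hq
  · exact key q hq hM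
  · have h1 := key (-q) (by linarith) (by simpa using hM)
    have h2 : ∫ τ in (0 : ℝ)..(-q), k ((p ^ 2 + τ ^ 2) / ρ ^ 2)
        = ∫ τ in q..0, k ((p ^ 2 + τ ^ 2) / ρ ^ 2) := by
      have := intervalIntegral.integral_comp_neg (a := q) (b := 0)
        (fun τ => k ((p ^ 2 + τ ^ 2) / ρ ^ 2))
      simp only [neg_zero, neg_sq] at this
      exact this.symm
    rw [h2, intervalIntegral.integral_symm, abs_neg] at h1
    exact h1

section cls

variable {ρ C : ℝ} {h : ℝ → ℝ}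

lemma RR_le {B : ℝ} {V : ℝ × ℝ → ℝ} (hV : Bd ρ B V) (z : ℝ × ℝ) : RR ρ V z ≤ 2 * B ^ 2 / ρ ^ 2 := by
  unfold RR
  apply div_le_div_of_nonneg_right _ (sq_nonneg ρ)
  have h1 := sq_le_sq' (abs_le.1 (hV.p z)).1 (abs_le.1 (hV.p z)).2
  have h2 := sq_le_sq' (abs_le.1 (hV.q z)).1 (abs_le.1 (hV.q z)).2
  linarith

lemma RR_nonneg (ρ : ℝ) (V : ℝ × ℝ → ℝ) (z : ℝ × ℝ) : 0 ≤ RR ρ V z := by
  unfold RR; positivity

/-- (A10 ii) smallness. -/
theorem blockG_small (hh : IndH ρ C h) {χ : ℝ → ℝ} (hχ : IsCut χ) :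
    ∃ M : ℝ, ∀ (κ : ℝ) (k : ℝ → ℝ), KB κ k → (∀ s, 0 ≤ k s ∧ k s ≤ 1) → ∀ v, InC ρ C h v →
      |LamC ρ k χ v| ≤ M * Real.sqrt (∫ s in (0 : ℝ)..M, k s) := by
  have hC := hh.C_nonneg
  have hρ := hh.rho_pos
  obtain ⟨M₂, hM₂0, hM₂⟩ := moll_L2B hh hχ
  set Q : ℝ := J (fun z => χ z.1) with hQ
  have hQ0 : 0 ≤ Q := J_nonneg fun z => hχ.nonneg _
  set B : ℝ := (ρ + 1) * C with hB
  set Rm : ℝ := 2 * B ^ 2 / ρ ^ 2 with hRm
  have hRm0 : 0 ≤ Rm := by positivity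
  set c₁ : ℝ := (ρ / 2) * Real.sqrt Rm * Q with hc₁
  set c₂ : ℝ := (ρ ^ 2)⁻¹ * (1 + ρ ^ 2) * (Real.sqrt Q * Real.sqrt M₂) with hc₂
  have hc₁0 : 0 ≤ c₁ := by positivity
  have hc₂0 : 0 ≤ c₂ := by positivity
  set M : ℝ := Rm + c₁ + c₂ with hM
  have hMR : Rm ≤ M := by linarith
  have hM0 : 0 ≤ M := by linarith
  refine ⟨M, fun κ k hk h01 v hv => ?_⟩
  have ck := hk.smooth.continuous
  set m : ℝ := ∫ s in (0 : ℝ)..M, k s with hm
  have hm0 : 0 ≤ m := intervalIntegral.integral_nonneg hM0 fun s _ => (h01 s).1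
  have hlim := (lamC_tendsto hh hχ hk hv).abs
  refine le_of_tendsto hlim ?_
  filter_upwards [Ioo_mem_nhdsGT (show (0 : ℝ) < 1 by norm_num)] with ε hε
  have sV : Sm (moll ε v) := moll_smooth hε.1 hv.locInt
  set V := moll ε v with hV
  have hBd : Bd ρ B V := moll_Bd hh hv hε.1
  have cR := RR_cont ρ sV
  have cTh := Th_cont ρ hk sV
  have cDT := (DT_smooth ρ sV).cont
  have cKK := KK_cont ck
  rw [Lam_eq ρ hk sV hχ.smooth.continuous hχ.cpt]
  have e1 : (fun z => χ z.1 * FF ρ k V z)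
      = fun z => χ z.1 * (-(ρ / 2) * KK k (RR ρ V z)) + χ z.1 * (Th ρ k V z * DT ρ V z) := by
    funext z; rw [FF_eq ρ k sV]; ring
  rw [e1, J_add (hχ.mul_cx (by fun_prop)) (hχ.mul_cx (by fun_prop))]
  refine (abs_add_le _ _).trans ?_
  -- bounds on KK
  have hKmono : ∀ x y : ℝ, x ≤ y → KK k x ≤ KK k y := by
    intro x y hxy
    have : KK k y - KK k x = ∫ s in x..y, k s := by
      unfold KK
      rw [intervalIntegral.integral_interval_sub_left (ck.intervalIntegrable _ _)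
        (ck.intervalIntegrable _ _)]
    have h2 : 0 ≤ ∫ s in x..y, k s := intervalIntegral.integral_nonneg hxy fun s _ => (h01 s).1
    linarith
  have hK : ∀ z, |KK k (RR ρ V z)| ≤ Real.sqrt Rm * Real.sqrt m := by
    intro z
    have h0 : KK k 0 = 0 := by unfold KK; simp
    have h1 : 0 ≤ KK k (RR ρ V z) := by
      rw [← h0]; exact hKmono _ _ (RR_nonneg ρ V z)
    have h2 : KK k (RR ρ V z) ≤ m := hKmono _ _ ((RR_le hBd z).trans hMR)
    have h3 : KK k (RR ρ V z) ≤ Rm := by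
      have h4 : KK k (RR ρ V z) ≤ ∫ _s in (0 : ℝ)..(RR ρ V z), (1 : ℝ) := by
        unfold KK
        exact intervalIntegral.integral_mono_on (RR_nonneg ρ V z) (ck.intervalIntegrable _ _)
          intervalIntegrable_const fun s _ => (h01 s).2
      have h5 : ∫ _s in (0 : ℝ)..(RR ρ V z), (1 : ℝ) = RR ρ V z := by simp
      rw [h5] at h4
      exact h4.trans (RR_le hBd z)
    rw [abs_of_nonneg h1, ← Real.sqrt_mul hRm0]
    apply Real.le_sqrt_of_sq_le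
    nlinarith
  have b1 : |J (fun z => χ z.1 * (-(ρ / 2) * KK k (RR ρ V z)))| ≤ c₁ * Real.sqrt m := by
    have h1 : |J (fun z => χ z.1 * (-(ρ / 2) * KK k (RR ρ V z)))|
        ≤ J (fun z => (ρ / 2) * (Real.sqrt Rm * Real.sqrt m) * χ z.1) := by
      refine J_abs (hχ.cx.const_mul _) fun z => ?_
      rw [abs_mul, abs_mul, abs_neg, abs_of_pos (show 0 < ρ / 2 by positivity), hχ.abs_le]
      have h2 := mul_le_mul_of_nonneg_left (hK z) (show 0 ≤ ρ / 2 by positivity)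
      have := mul_le_mul_of_nonneg_left h2 (hχ.nonneg z.1)
      linarith
    rw [J_const_mul] at h1
    refine h1.trans (le_of_eq ?_)
    rw [hc₁]; ring
  have b2 : |J (fun z => χ z.1 * (Th ρ k V z * DT ρ V z))| ≤ c₂ * Real.sqrt m := by
    have hTh : ∀ z, |Th ρ k V z| ≤ (ρ ^ 2)⁻¹ * ((1 + ρ ^ 2) * Real.sqrt m) := fun z =>
      Theta_small hρ ck h01 ((RR_le hBd z).trans hMR)
    have h1 := J_le_of_prod hχ (c := (ρ ^ 2)⁻¹ * ((1 + ρ ^ 2) * Real.sqrt m)) (by positivity)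
      (F := fun z => χ z.1 * (Th ρ k V z * DT ρ V z)) (A := fun _ => 1) (B := DT ρ V)
      continuous_const cDT (fun z => by
        rw [abs_mul, abs_mul, hχ.abs_le, abs_one, one_mul]
        have h2 := mul_le_mul_of_nonneg_right (hTh z) (abs_nonneg (DT ρ V z))
        have := mul_le_mul_of_nonneg_left h2 (hχ.nonneg z.1)
        linarith)
    simp only [one_pow, mul_one] at h1
    refine h1.trans ?_
    have h3 : Real.sqrt (J (fun z => χ z.1 * DT ρ V z ^ 2)) ≤ Real.sqrt M₂ :=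
      Real.sqrt_le_sqrt (hM₂ v hv ε hε.1 hε.2.le).dt
    calc (ρ ^ 2)⁻¹ * ((1 + ρ ^ 2) * Real.sqrt m) * (Real.sqrt (J fun z => χ z.1)
          * Real.sqrt (J (fun z => χ z.1 * DT ρ V z ^ 2)))
        ≤ (ρ ^ 2)⁻¹ * ((1 + ρ ^ 2) * Real.sqrt m) * (Real.sqrt Q * Real.sqrt M₂) := by
          gcongr
      _ = c₂ * Real.sqrt m := by rw [hc₂]; ring
  have h5 : 0 ≤ Rm * Real.sqrt m := by positivity
  calc _ ≤ c₁ * Real.sqrt m + c₂ * Real.sqrt m := add_le_add b1 b2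
    _ ≤ M * Real.sqrt m := by rw [hM]; linarith

end cls

end Pool.Agent.Helper42.Fr
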