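import Pool.Agent.Helper42.Fr.Trans

set_option autoImplicit false

open MeasureTheory Filter Topology

namespace Pool.Agent.Helper42.Fr

/-- smooth weights with bounds -/
structure KB (κ : ℝ) (k : ℝ → ℝ) : Prop where
  smooth : ContDiff ℝ (⊤ : ℕ∞) k
  b0 : ∀ s, |k s| ≤ κ
  b1 : ∀ s, |deriv k s| ≤ κ

lemma KB.nonneg {κ : ℝ} {k : ℝ → ℝ} (h : KB κ k) : 0 ≤ κ := (abs_nonneg _).trans (h.b0 0)

/-- partial derivative of Theta in the first slot. -/
noncomputable def ThP (ρ : ℝ) (k : ℝ → ℝ) (p q : ℝ) : ℝ :=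
  (ρ ^ 2)⁻¹ * ∫ τ in (0 : ℝ)..q, deriv k ((p ^ 2 + τ ^ 2) / ρ ^ 2) * (2 * p / ρ ^ 2)

/-- partial derivative of Theta in the second slot. -/
noncomputable def ThQ (ρ : ℝ) (k : ℝ → ℝ) (p q : ℝ) : ℝ :=
  (ρ ^ 2)⁻¹ * k ((p ^ 2 + q ^ 2) / ρ ^ 2)

section

variable {ρ κ : ℝ} {k : ℝ → ℝ}

lemma KK_hasDerivAt (hk : Continuous k) (t : ℝ) : HasDerivAt (KK k) (k t) t :=
  intervalIntegral.integral_hasDerivAt_right (hk.intervalIntegrable _ _)
    (hk.stronglyMeasurableAtFilter _ _) hk.continuousAt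

lemma KK_cont (hk : Continuous k) : Continuous (KK k) := by
  rw [continuous_iff_continuousAt]
  exact fun t => (KK_hasDerivAt hk t).continuousAt

lemma Theta_cont (hk : Continuous k) : Continuous (fun y : ℝ × ℝ => Theta ρ k y.1 y.2) := by
  unfold Theta
  refine continuous_const.mul ?_
  refine intervalIntegral.continuous_parametric_intervalIntegral_of_continuous
    (f := fun (y : ℝ × ℝ) τ => k ((y.1 ^ 2 + τ ^ 2) / ρ ^ 2)) ?_ continuous_snd
  have : Continuous fun y : (ℝ × ℝ) × ℝ => k ((y.1.1 ^ 2 + y.2 ^ 2) / ρ ^ 2) := by fun_prop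
  exact this

lemma ThP_cont (hk : Continuous (deriv k)) : Continuous (fun y : ℝ × ℝ => ThP ρ k y.1 y.2) := by
  unfold ThP
  refine continuous_const.mul ?_
  refine intervalIntegral.continuous_parametric_intervalIntegral_of_continuous
    (f := fun (y : ℝ × ℝ) τ => deriv k ((y.1 ^ 2 + τ ^ 2) / ρ ^ 2) * (2 * y.1 / ρ ^ 2))
    ?_ continuous_snd
  have : Continuous fun y : (ℝ × ℝ) × ℝ =>
      deriv k ((y.1.1 ^ 2 + y.2 ^ 2) / ρ ^ 2) * (2 * y.1.1 / ρ ^ 2) := by fun_prop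
  exact this

lemma ThQ_cont (hk : Continuous k) : Continuous (fun y : ℝ × ℝ => ThQ ρ k y.1 y.2) := by
  unfold ThQ
  fun_prop

lemma Theta_hasDerivAt_q (hk : Continuous k) (p q : ℝ) :
    HasDerivAt (fun q => Theta ρ k p q) (ThQ ρ k p q) q := by
  unfold Theta ThQ
  have hc : Continuous fun τ : ℝ => k ((p ^ 2 + τ ^ 2) / ρ ^ 2) := by fun_prop
  exact (intervalIntegral.integral_hasDerivAt_right (hc.intervalIntegrable _ _)
    (hc.stronglyMeasurableAtFilter _ _) hc.continuousAt).const_mul _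

lemma Theta_hasDerivAt_p (hk : KB κ k) (p q : ℝ) :
    HasDerivAt (fun p => Theta ρ k p q) (ThP ρ k p q) p := by
  have hκ := hk.nonneg
  have c0 := hk.smooth.continuous
  have c1 := (smooth_deriv hk.smooth).continuous
  unfold Theta ThP
  refine HasDerivAt.const_mul _ ?_
  have key := intervalIntegral.hasDerivAt_integral_of_dominated_loc_of_deriv_le
    (μ := volume) (a := 0) (b := q) (F := fun p τ => k ((p ^ 2 + τ ^ 2) / ρ ^ 2))
    (F' := fun p τ => deriv k ((p ^ 2 + τ ^ 2) / ρ ^ 2) * (2 * p / ρ ^ 2)) (x₀ := p)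
    (s := Metric.ball p 1) (bound := fun _ => κ * (2 * (|p| + 1) / ρ ^ 2))
    (Metric.ball_mem_nhds p one_pos) ?_ ?_ ?_ ?_ ?_ ?_
  · exact key.2
  · refine Eventually.of_forall fun x => ?_
    have : Continuous fun τ : ℝ => k ((x ^ 2 + τ ^ 2) / ρ ^ 2) := by fun_prop
    exact this.aestronglyMeasurable
  · have : Continuous fun τ : ℝ => k ((p ^ 2 + τ ^ 2) / ρ ^ 2) := by fun_prop
    exact this.intervalIntegrable _ _
  · have : Continuous fun τ : ℝ => deriv k ((p ^ 2 + τ ^ 2) / ρ ^ 2) * (2 * p / ρ ^ 2) := by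
      fun_prop
    exact this.aestronglyMeasurable
  · refine Eventually.of_forall fun τ _ x hx => ?_
    rw [Real.norm_eq_abs, abs_mul]
    refine mul_le_mul (hk.b1 _) ?_ (abs_nonneg _) hκ
    rw [abs_div, abs_mul, abs_of_nonneg (sq_nonneg ρ), abs_two]
    apply div_le_div_of_nonneg_right _ (sq_nonneg ρ)
    have h1 : |x - p| < 1 := by simpa [Real.dist_eq] using hx
    have h2 : |x| ≤ |p| + |x - p| := by
      have := abs_add_le p (x - p)
      simpa using this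
    linarith
  · exact intervalIntegrable_const
  · refine Eventually.of_forall fun τ _ x _ => ?_
    have h1 : HasDerivAt (fun x : ℝ => (x ^ 2 + τ ^ 2) / ρ ^ 2) (2 * x / ρ ^ 2) x := by
      have := ((hasDerivAt_pow 2 x).add_const (τ ^ 2)).div_const (ρ ^ 2)
      simpa using this
    exact (hasDerivAt_of_smooth hk.smooth _).comp x h1

lemma Theta_hasFDerivAt (hk : KB κ k) (y : ℝ × ℝ) :
    HasFDerivAt (fun y : ℝ × ℝ => Theta ρ k y.1 y.2)
      ((ContinuousLinearMap.toSpanSingleton ℝ (ThP ρ k y.1 y.2)).coprod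
        (ContinuousLinearMap.toSpanSingleton ℝ (ThQ ρ k y.1 y.2))) y := by
  have c0 := hk.smooth.continuous
  have c1 := (smooth_deriv hk.smooth).continuous
  have h := hasStrictFDerivAt_uncurry_coprod (𝕜 := ℝ) (u := y) (f := fun p q => Theta ρ k p q)
    (f₁ := fun p q => ContinuousLinearMap.toSpanSingleton ℝ (ThP ρ k p q))
    (f₂ := fun p q => ContinuousLinearMap.toSpanSingleton ℝ (ThQ ρ k p q))
    (Eventually.of_forall fun v => (Theta_hasDerivAt_p hk v.1 v.2).hasFDerivAt)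
    (Eventually.of_forall fun v => (Theta_hasDerivAt_q c0 v.1 v.2).hasFDerivAt)
    ?_ ?_
  · exact h.hasFDerivAt
  · have h1 : Continuous fun y : ℝ × ℝ => ContinuousLinearMap.toSpanSingleton ℝ (ThP ρ k y.1 y.2) :=
      (ContinuousLinearMap.toSpanSingletonCLE (𝕜 := ℝ) (E := ℝ)).continuous.comp (ThP_cont c1)
    exact h1.continuousAt
  · have h1 : Continuous fun y : ℝ × ℝ => ContinuousLinearMap.toSpanSingleton ℝ (ThQ ρ k y.1 y.2) :=
      (ContinuousLinearMap.toSpanSingletonCLE (𝕜 := ℝ) (E := ℝ)).continuous.comp (ThQ_cont c0)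
    exact h1.continuousAt

/-- chain rule. -/
lemma Theta_chain (hk : KB κ k) {P Q : ℝ → ℝ} {P' Q' x : ℝ} (hP : HasDerivAt P P' x)
    (hQ : HasDerivAt Q Q' x) :
    HasDerivAt (fun x => Theta ρ k (P x) (Q x))
      (ThP ρ k (P x) (Q x) * P' + ThQ ρ k (P x) (Q x) * Q') x := by
  have h1 : HasDerivAt (fun x => (P x, Q x)) (P', Q') x := hP.prodMk hQ
  have h2 := (Theta_hasFDerivAt (ρ := ρ) hk (P x, Q x)).comp_hasDerivAt x h1
  refine h2.congr_deriv ?_
  simp [mul_comm]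

lemma KK_chain (hk : Continuous k) {P Q : ℝ → ℝ} {P' Q' x : ℝ} (hP : HasDerivAt P P' x)
    (hQ : HasDerivAt Q Q' x) :
    HasDerivAt (fun x => KK k ((P x ^ 2 + Q x ^ 2) / ρ ^ 2))
      (k ((P x ^ 2 + Q x ^ 2) / ρ ^ 2) * ((2 * P x * P' + 2 * Q x * Q') / ρ ^ 2)) x := by
  have h1 := ((hP.pow 2).add (hQ.pow 2)).div_const (ρ ^ 2)
  have h2 := (KK_hasDerivAt hk ((P x ^ 2 + Q x ^ 2) / ρ ^ 2)).comp x h1
  refine h2.congr_deriv ?_
  simp

/-! bounds -/

lemma ThQ_bound (hk : KB κ k) (p q : ℝ) : |ThQ ρ k p q| ≤ (ρ ^ 2)⁻¹ * κ := by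
  unfold ThQ
  rw [abs_mul, abs_of_nonneg (inv_nonneg.2 (sq_nonneg ρ))]
  exact mul_le_mul_of_nonneg_left (hk.b0 _) (inv_nonneg.2 (sq_nonneg ρ))

lemma Theta_bound (hk : KB κ k) (p q : ℝ) : |Theta ρ k p q| ≤ (ρ ^ 2)⁻¹ * κ * |q| := by
  unfold Theta
  rw [abs_mul, abs_of_nonneg (inv_nonneg.2 (sq_nonneg ρ)), mul_assoc]
  refine mul_le_mul_of_nonneg_left ?_ (inv_nonneg.2 (sq_nonneg ρ))
  have := intervalIntegral.norm_integral_le_of_norm_le_const (a := 0) (b := q)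
    (f := fun τ => k ((p ^ 2 + τ ^ 2) / ρ ^ 2)) (C := κ) (fun τ _ => hk.b0 _)
  simpa [Real.norm_eq_abs] using this

lemma ThP_bound (hk : KB κ k) (p q : ℝ) :
    |ThP ρ k p q| ≤ (ρ ^ 2)⁻¹ * (κ * (2 * |p| / ρ ^ 2) * |q|) := by
  unfold ThP
  rw [abs_mul, abs_of_nonneg (inv_nonneg.2 (sq_nonneg ρ))]
  refine mul_le_mul_of_nonneg_left ?_ (inv_nonneg.2 (sq_nonneg ρ))
  have := intervalIntegral.norm_integral_le_of_norm_le_const (a := 0) (b := q)
    (f := fun τ => deriv k ((p ^ 2 + τ ^ 2) / ρ ^ 2) * (2 * p / ρ ^ 2))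
    (C := κ * (2 * |p| / ρ ^ 2)) (fun τ _ => by
      rw [Real.norm_eq_abs, abs_mul]
      refine mul_le_mul (hk.b1 _) (le_of_eq ?_) (abs_nonneg _) hk.nonneg
      rw [abs_div, abs_mul, abs_of_nonneg (sq_nonneg ρ), abs_two])
  rw [Real.norm_eq_abs, sub_zero] at this
  exact this

end

end Pool.Agent.Helper42.Fr
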