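import Pool.Agent.Helper42.Fr.Sec

set_option autoImplicit false

open MeasureTheory Filter Topology

namespace Pool.Agent.Helper42.Fr

lemma J_shift_weight {χ : ℝ → ℝ} (hχ : IsCut χ) {f : ℝ × ℝ → ℝ} (hf : Continuous f) (y : ℝ) :
    J (fun z => χ z.1 * shift y f z) = J (fun z => χ (z.1 - y) * f z) := by
  have hcx : CX (fun z => χ z.1 * shift y f z) := by
    refine hχ.mul_cx ?_
    exact hf.comp ((continuous_fst.add continuous_const).prodMk continuous_snd)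
  rw [← J_shift hcx (-y)]
  congr 1; funext z
  show χ (z.1 + -y) * f (z.1 + -y + y, z.2) = _
  rw [neg_add_cancel_right, sub_eq_add_neg]

lemma cx_shift_weight {χ : ℝ → ℝ} (hχ : IsCut χ) {f : ℝ × ℝ → ℝ} (hf : Continuous f) (y : ℝ) :
    CX (fun z => χ (z.1 - y) * f z) := by
  have h1 : CX (fun z => χ (z.1 - y)) := by
    have := hχ.cx.shift (-y)
    simp only [sub_eq_add_neg]
    exact this
  exact h1.mul hf

/-- abstract statement: families of mollifications that are bounded in L2 are translation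
equicontinuous. -/
theorem trans_small (g : ℝ → ℝ × ℝ → ℝ)
    (hcont : ∀ ε, 0 < ε → ε ≤ 1 → Continuous (g ε))
    (hper : ∀ ε, 0 < ε → ε ≤ 1 → Per (g ε))
    (hbd : ∀ χ, IsCut χ → ∃ M : ℝ, 0 ≤ M ∧ ∀ ε, 0 < ε → ε ≤ 1 → J (fun z => χ z.1 * g ε z ^ 2) ≤ M)
    (hcomm : ∀ ε η, 0 < ε → ε ≤ 1 → 0 < η → η ≤ 1 → ∀ z, moll η (g ε) z = moll ε (g η) z)
    (hlip : ∀ η, 0 < η → η ≤ 1 → ∃ K : ℝ, 0 ≤ K ∧ ∀ z w : ℝ × ℝ,
      |g η z - g η w| ≤ K * (|z.1 - w.1| + |z.2 - w.2|))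
    (hsup : ∀ η, 0 < η → η ≤ 1 → ∃ B : ℝ, 0 ≤ B ∧ ∀ z, |g η z| ≤ B)
    {χ : ℝ → ℝ} (hχ : IsCut χ) {δ : ℝ} (hδ : 0 < δ) :
    ∃ ε₀ : ℝ, 0 < ε₀ ∧ ε₀ ≤ 1 ∧ ∀ ε, 0 < ε → ε ≤ ε₀ → ∀ y, |y| ≤ ε₀ →
      J (fun z => χ z.1 * (shift y (g ε) z - g ε z) ^ 2) ≤ δ := by
  obtain ⟨χ₁, hχ₁, hl⟩ := exists_lip hχ.smooth hχ.cpt
  obtain ⟨χ₂, hχ₂, hd⟩ := exists_dom_le hχ₁
  obtain ⟨M, hM0, hM⟩ := hbd χ hχ
  obtain ⟨M₁, hM₁0, hM₁⟩ := hbd χ₁ hχ₁
  obtain ⟨M₂, hM₂0, hM₂⟩ := hbd χ₂ hχ₂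
  set Q : ℝ := J (fun z => χ z.1) with hQ
  have hQ0 : 0 ≤ Q := J_nonneg fun z => hχ.nonneg _
  set N : ℝ := M₁ + M₂ with hN
  have hN0 : 0 ≤ N := by positivity
  -- the small parameter
  set δ₁ : ℝ := min 1 (δ / (16 * (1 + N))) with hδ₁
  have hδ₁0 : 0 < δ₁ := by positivity
  have hδ₁1 : δ₁ ≤ 1 := min_le_left _ _
  have hδ₁2 : 16 * (1 + N) * δ₁ ≤ δ := by
    have h1 : δ₁ ≤ δ / (16 * (1 + N)) := min_le_right _ _
    rw [le_div_iff₀ (by positivity)] at h1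
    linarith
  -- choose η
  set T : Set ℝ := {a | ∃ ε, 0 < ε ∧ ε ≤ δ₁ ∧ a = J (fun z => χ z.1 * g ε z ^ 2)} with hT
  have hTne : T.Nonempty := ⟨_, δ₁, hδ₁0, le_rfl, rfl⟩
  have hTb : BddAbove T := ⟨M, by
    rintro a ⟨ε, h1, h2, rfl⟩
    exact hM ε h1 (h2.trans hδ₁1)⟩
  obtain ⟨a, ⟨η, hη0, hηδ, rfl⟩, ha⟩ := exists_lt_of_lt_csSup hTne
    (show sSup T - δ₁ < sSup T by linarith)
  have hη1 : η ≤ 1 := hηδ.trans hδ₁1
  have hsupη : ∀ ε, 0 < ε → ε ≤ δ₁ → J (fun z => χ z.1 * g ε z ^ 2)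
      ≤ J (fun z => χ z.1 * g η z ^ 2) + δ₁ := by
    intro ε h1 h2
    have := le_csSup hTb (show J (fun z => χ z.1 * g ε z ^ 2) ∈ T from ⟨ε, h1, h2, rfl⟩)
    linarith
  obtain ⟨K, hK0, hK⟩ := hlip η hη0 hη1
  obtain ⟨B, hB0, hB⟩ := hsup η hη0 hη1
  have cη := hcont η hη0 hη1
  set ε₀ : ℝ := min δ₁ (δ₁ / (24 * B * K * Q + 1)) with hε₀
  have hε₀0 : 0 < ε₀ := by positivity
  have hε₀δ : ε₀ ≤ δ₁ := min_le_left _ _
  have hε₀2 : 24 * B * K * Q * ε₀ ≤ δ₁ := by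
    have h1 : ε₀ ≤ δ₁ / (24 * B * K * Q + 1) := min_le_right _ _
    rw [le_div_iff₀ (by positivity)] at h1
    nlinarith
  refine ⟨ε₀, hε₀0, hε₀δ.trans hδ₁1, fun ε hε hε' y hy => ?_⟩
  have hεδ : ε ≤ δ₁ := hε'.trans hε₀δ
  have hε1 : ε ≤ 1 := hεδ.trans hδ₁1
  have hy1 : |y| ≤ 1 := hy.trans (hε₀δ.trans hδ₁1)
  have cε := hcont ε hε hε1
  have cε' : Continuous (shift y (g ε)) :=
    cε.comp ((continuous_fst.add continuous_const).prodMk continuous_snd)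
  have pε := hper ε hε hε1
  -- the average
  set f : ℝ × ℝ → ℝ := fun z => (g ε z + shift y (g ε) z) / 2 with hf
  have cf : Continuous f := (cε.add cε').div_const 2
  have pf : Per f := fun x t => by
    simp only [hf, shift, pε x t, pε (x + y) t]
  have cε2 : Continuous fun z => g ε z ^ 2 := cε.pow 2
  have cε2' : Continuous fun z => shift y (g ε) z ^ 2 := cε'.pow 2
  have cf2 : Continuous fun z => f z ^ 2 := cf.pow 2
  -- parallelogram
  have e1 : J (fun z => χ z.1 * (shift y (g ε) z - g ε z) ^ 2)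
      = 2 * J (fun z => χ z.1 * g ε z ^ 2) + 2 * J (fun z => χ z.1 * shift y (g ε) z ^ 2)
        - 4 * J (fun z => χ z.1 * f z ^ 2) := by
    rw [← J_const_mul, ← J_const_mul, ← J_const_mul,
      ← J_add ((hχ.mul_cx cε2).const_mul _) ((hχ.mul_cx cε2').const_mul _),
      ← J_sub (((hχ.mul_cx cε2).const_mul _).add ((hχ.mul_cx cε2').const_mul _))
        ((hχ.mul_cx cf2).const_mul _)]
    congr 1; funext z
    simp only [hf]
    ring
  -- shifted norm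
  have e2 : J (fun z => χ z.1 * shift y (g ε) z ^ 2)
      ≤ J (fun z => χ z.1 * g ε z ^ 2) + ε₀ * M₁ := by
    have h1 := J_shift_weight hχ cε2 y
    have h2 : (fun z => χ z.1 * shift y (fun z => g ε z ^ 2) z)
        = fun z => χ z.1 * shift y (g ε) z ^ 2 := rfl
    rw [h2] at h1
    rw [h1]
    have h3 : J (fun z => χ (z.1 - y) * g ε z ^ 2)
        ≤ J (fun z => χ z.1 * g ε z ^ 2 + |y| * (χ₁ z.1 * g ε z ^ 2)) := by
      refine J_mono (cx_shift_weight hχ cε2 y)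
        ((hχ.mul_cx cε2).add ((hχ₁.mul_cx cε2).const_mul _)) fun z => ?_
      have h4 := hl z.1 (-y) (by rwa [abs_neg])
      rw [abs_neg, ← sub_eq_add_neg] at h4
      have h5 := (abs_le.1 h4).2
      have h6 : χ (z.1 - y) ≤ χ z.1 + |y| * χ₁ z.1 := by linarith
      have := mul_le_mul_of_nonneg_right h6 (sq_nonneg (g ε z))
      linarith
    rw [J_add (hχ.mul_cx cε2) ((hχ₁.mul_cx cε2).const_mul _), J_const_mul] at h3
    have h7 := hM₁ ε hε hε1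
    have h8 : 0 ≤ J (fun z => χ₁ z.1 * g ε z ^ 2) :=
      J_nonneg fun z => mul_nonneg (hχ₁.nonneg _) (sq_nonneg _)
    have h9 : |y| * J (fun z => χ₁ z.1 * g ε z ^ 2) ≤ ε₀ * M₁ :=
      mul_le_mul hy h7 h8 hε₀0.le
    linarith
  -- lower bound on f
  have e3 : J (fun z => χ z.1 * moll η f z ^ 2)
      ≤ J (fun z => χ z.1 * f z ^ 2) + η * N := by
    have h1 : IsCut (fun x => χ x + η * χ₁ x) := hχ.add (hχ₁.const_mul hη0.le)
    have h2 : ∀ x s, |s| ≤ η → χ (x + s) ≤ χ x + η * χ₁ x := by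
      intro x s hs
      have h3 := (abs_le.1 (hl x s (hs.trans hη1))).2
      have h4 : |s| * χ₁ x ≤ η * χ₁ x := mul_le_mul_of_nonneg_right hs (hχ₁.nonneg x)
      linarith
    have h3 := J_moll_sq hχ h1 hη0 h2 cf pf
    have h4 : (fun z : ℝ × ℝ => (χ z.1 + η * χ₁ z.1) * f z ^ 2)
        = fun z => χ z.1 * f z ^ 2 + η * (χ₁ z.1 * f z ^ 2) := by
      funext z; ring
    rw [h4, J_add (hχ.mul_cx cf2) ((hχ₁.mul_cx cf2).const_mul _), J_const_mul] at h3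
    have h5 : J (fun z => χ₁ z.1 * f z ^ 2) ≤ N := by
      have h6 : J (fun z => χ₁ z.1 * f z ^ 2)
          ≤ J (fun z => χ₁ z.1 * g ε z ^ 2 + χ₁ z.1 * shift y (g ε) z ^ 2) := by
        refine J_mono (hχ₁.mul_cx cf2)
          ((hχ₁.mul_cx cε2).add (hχ₁.mul_cx cε2')) fun z => ?_
        rw [← mul_add]
        refine mul_le_mul_of_nonneg_left ?_ (hχ₁.nonneg _)
        simp only [hf]
        nlinarith [sq_nonneg (g ε z - shift y (g ε) z), sq_nonneg (g ε z),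
          sq_nonneg (shift y (g ε) z)]
      rw [J_add (hχ₁.mul_cx cε2) (hχ₁.mul_cx cε2')] at h6
      have h7 := J_shift_weight hχ₁ cε2 y
      have h8 : (fun z => χ₁ z.1 * shift y (fun z => g ε z ^ 2) z)
          = fun z => χ₁ z.1 * shift y (g ε) z ^ 2 := rfl
      rw [h8] at h7
      have h9 : J (fun z => χ₁ (z.1 - y) * g ε z ^ 2) ≤ J (fun z => χ₂ z.1 * g ε z ^ 2) := by
        refine J_mono (cx_shift_weight hχ₁ cε2 y) (hχ₂.mul_cx cε2) fun z => ?_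
        refine mul_le_mul_of_nonneg_right ?_ (sq_nonneg _)
        have := hd z.1 (-y) (by rwa [abs_neg])
        rwa [← sub_eq_add_neg] at this
      have h10 := hM₁ ε hε hε1
      have h11 := hM₂ ε hε hε1
      linarith
    have h12 := mul_le_mul_of_nonneg_left h5 hη0.le
    linarith
  have e4 : ∀ z, |moll η f z - g η z| ≤ 3 * K * ε₀ := by
    intro z
    have h1 : moll η f z = (moll ε (g η) z + moll ε (g η) (z.1 + y, z.2)) / 2 := by
      have h2 : moll η f z = (1 / 2) * moll η (fun z => g ε z + shift y (g ε) z) z := by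
        have : f = fun z => (1 / 2) * (g ε z + shift y (g ε) z) := by
          funext z; simp only [hf]; ring
        rw [this]
        exact cv_const_left _ _ _ _
      have h3 : moll η (fun z => g ε z + shift y (g ε) z) z
          = moll η (g ε) z + moll η (shift y (g ε)) z :=
        cv_add_left cε.locallyIntegrable cε'.locallyIntegrable (ker_smooth η).cont (ker_cpt hη0) z
      rw [h2, h3, moll_shift]
      have h4 : shift y (moll η (g ε)) z = moll η (g ε) (z.1 + y, z.2) := rfl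
      rw [h4, hcomm ε η hε hε1 hη0 hη1, hcomm ε η hε hε1 hη0 hη1]
      ring
    have h5 : ∀ w, |moll ε (g η) w - g η w| ≤ 2 * K * ε := by
      intro w
      apply moll_sub_const_le hε cη.locallyIntegrable
      intro s h1 h2
      have := hK (w - s) w
      refine this.trans ?_
      have a1 : |(w - s).1 - w.1| = |s.1| := by simp [abs_neg]
      have a2 : |(w - s).2 - w.2| = |s.2| := by simp [abs_neg]
      rw [a1, a2]
      nlinarith
    have h6 := h5 z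
    have h7 := h5 (z.1 + y, z.2)
    have h8 : |g η (z.1 + y, z.2) - g η z| ≤ K * |y| := by
      have := hK (z.1 + y, z.2) z
      simpa using this
    have h9 : K * |y| ≤ K * ε₀ := mul_le_mul_of_nonneg_left hy hK0
    have h10 : K * ε ≤ K * ε₀ := mul_le_mul_of_nonneg_left hε' hK0
    rw [h1]
    have b6 := abs_le.1 h6
    have b7 := abs_le.1 h7
    have b8 := abs_le.1 h8
    rw [abs_le]
    constructor <;> linarith [b6.1, b6.2, b7.1, b7.2, b8.1, b8.2]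
  have e5 : J (fun z => χ z.1 * g η z ^ 2) - 2 * B * (3 * K * ε₀) * Q
      ≤ J (fun z => χ z.1 * moll η f z ^ 2) := by
    have cη2 : Continuous fun z => g η z ^ 2 := cη.pow 2
    have cm2 : Continuous fun z => moll η f z ^ 2 := ((moll_smooth hη0 cf.locallyIntegrable).cont).pow 2
    rw [hQ, ← J_const_mul, ← J_sub (hχ.mul_cx cη2) (hχ.cx.const_mul _)]
    refine J_mono ((hχ.mul_cx cη2).sub (hχ.cx.const_mul _)) (hχ.mul_cx cm2) fun z => ?_
    have h1 := e4 z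
    have h2 := hB z
    have h3 : g η z ^ 2 - 2 * B * (3 * K * ε₀) ≤ moll η f z ^ 2 := by
      have h4 : moll η f z ^ 2 = g η z ^ 2 + 2 * g η z * (moll η f z - g η z)
          + (moll η f z - g η z) ^ 2 := by ring
      have h5 : |g η z * (moll η f z - g η z)| ≤ B * (3 * K * ε₀) := by
        rw [abs_mul]
        exact mul_le_mul h2 h1 (abs_nonneg _) hB0
      have h6 := (abs_le.1 h5).1
      nlinarith [sq_nonneg (moll η f z - g η z)]
    have := mul_le_mul_of_nonneg_left h3 (hχ.nonneg z.1)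
    linarith
  -- conclusion
  have e6 := hsupη ε hε hεδ
  rw [e1]
  have e7 : ε₀ * M₁ ≤ δ₁ * N := by
    have : M₁ ≤ N := by linarith
    exact mul_le_mul hε₀δ this hM₁0 hδ₁0.le
  have e8 : η * N ≤ δ₁ * N := mul_le_mul_of_nonneg_right hηδ hN0
  nlinarith

/-! ### the two operators -/

/-- x-derivative of p = rho v + v_x. -/
noncomputable def DX (ρ : ℝ) (u : ℝ × ℝ → ℝ) (z : ℝ × ℝ) : ℝ := ρ * dX u z + dX (dX u) z

/-- t-derivative of p. -/
noncomputable def DT (ρ : ℝ) (u : ℝ × ℝ → ℝ) (z : ℝ × ℝ) : ℝ := ρ * dT u z + dX (dT u) z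

lemma DX_smooth (ρ : ℝ) {u : ℝ × ℝ → ℝ} (h : Sm u) : Sm (DX ρ u) :=
  (h.dX.const_mul ρ).add h.dX.dX

lemma DT_smooth (ρ : ℝ) {u : ℝ × ℝ → ℝ} (h : Sm u) : Sm (DT ρ u) :=
  (h.dT.const_mul ρ).add h.dT.dX

lemma DX_cpt (ρ : ℝ) {u : ℝ × ℝ → ℝ} (h : HasCompactSupport u) : HasCompactSupport (DX ρ u) :=
  ((cpt_dX h).mul_left (f := fun _ => ρ)).add (cpt_dX (cpt_dX h))

lemma DT_cpt (ρ : ℝ) {u : ℝ × ℝ → ℝ} (h : HasCompactSupport u) : HasCompactSupport (DT ρ u) :=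
  ((cpt_dT h).mul_left (f := fun _ => ρ)).add (cpt_dX (cpt_dT h))

lemma DX_per (ρ : ℝ) {u : ℝ × ℝ → ℝ} (h : Per u) : Per (DX ρ u) :=
  (h.dX.const_mul ρ).add h.dX.dX

lemma DT_per (ρ : ℝ) {u : ℝ × ℝ → ℝ} (h : Per u) : Per (DT ρ u) :=
  (h.dT.const_mul ρ).add h.dT.dX

lemma DX_cv (ρ : ℝ) {f g : ℝ × ℝ → ℝ} (hf : LocallyIntegrable f) (hg : Sm g)
    (hc : HasCompactSupport g) : DX ρ (cv f g) = cv f (DX ρ g) := by
  funext z
  have e := cv_add_right hf (g₁ := fun w => ρ * dX g w) (g₂ := dX (dX g))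
    (hg.dX.const_mul ρ).cont ((cpt_dX hc).mul_left (f := fun _ => ρ)) hg.dX.dX.cont
    (cpt_dX (cpt_dX hc)) z
  have e2 : cv f (DX ρ g) z = cv f (fun w => ρ * dX g w + dX (dX g) w) z := rfl
  rw [e2, e, cv_const_right]
  unfold DX
  rw [dX_cv hf hg hc, dX_cv hf hg.dX (cpt_dX hc)]

lemma DT_cv (ρ : ℝ) {f g : ℝ × ℝ → ℝ} (hf : LocallyIntegrable f) (hg : Sm g)
    (hc : HasCompactSupport g) : DT ρ (cv f g) = cv f (DT ρ g) := by
  funext z
  have e := cv_add_right hf (g₁ := fun w => ρ * dT g w) (g₂ := dX (dT g))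
    (hg.dT.const_mul ρ).cont ((cpt_dT hc).mul_left (f := fun _ => ρ)) hg.dT.dX.cont
    (cpt_dX (cpt_dT hc)) z
  have e2 : cv f (DT ρ g) z = cv f (fun w => ρ * dT g w + dX (dT g) w) z := rfl
  rw [e2, e, cv_const_right]
  unfold DT
  rw [dT_cv hf hg hc, dX_cv hf hg.dT (cpt_dT hc)]

/-- commuting mollification with such operators. -/
lemma comm_D (D : (ℝ × ℝ → ℝ) → ℝ × ℝ → ℝ)
    (hD : ∀ f g : ℝ × ℝ → ℝ, LocallyIntegrable f → Sm g → HasCompactSupport g →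
      D (cv f g) = cv f (D g))
    (hs : ∀ g, Sm g → Sm (D g)) (hc : ∀ g, HasCompactSupport g → HasCompactSupport (D g))
    {v : ℝ × ℝ → ℝ} {C : ℝ} (hv : Continuous v) (hb : ∀ z, |v z| ≤ C) {ε η : ℝ}
    (hε : 0 < ε) (hη : 0 < η) (z : ℝ × ℝ) :
    moll η (D (moll ε v)) z = moll ε (D (moll η v)) z := by
  have lv := hv.locallyIntegrable (μ := (volume : Measure (ℝ × ℝ)))
  have s := ker_smooth ε
  have s' := ker_smooth η
  have c := ker_cpt hε
  have c' := ker_cpt hη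
  have l1 : LocallyIntegrable (cv v (ker ε)) := (moll_smooth hε lv).cont.locallyIntegrable
  have l2 : LocallyIntegrable (cv v (ker η)) := (moll_smooth hη lv).cont.locallyIntegrable
  calc moll η (D (moll ε v)) z = cv (cv v (D (ker ε))) (ker η) z := by
        rw [moll_eq, moll_eq, hD v _ lv s c]
    _ = cv (cv v (ker η)) (D (ker ε)) z :=
        cv_comm hv hb (hs _ s).cont (hc _ c) s'.cont c' z
    _ = D (cv (cv v (ker η)) (ker ε)) z := by rw [hD _ _ l2 s c]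
    _ = D (cv (cv v (ker ε)) (ker η)) z := by
        congr 1; funext w
        exact cv_comm hv hb s'.cont c' s.cont c w
    _ = cv (cv v (ker ε)) (D (ker η)) z := by rw [hD _ _ l1 s' c']
    _ = cv (cv v (D (ker η))) (ker ε) z :=
        cv_comm hv hb s.cont c (hs _ s').cont (hc _ c') z
    _ = moll ε (D (moll η v)) z := by
        rw [moll_eq, moll_eq, hD v _ lv s' c']

lemma cv_lip_of {v g : ℝ × ℝ → ℝ} {C : ℝ} (hv : ∀ z, |v z| ≤ C) (lv : LocallyIntegrable v)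
    (hg : Sm g) (hc : HasCompactSupport g) : ∃ K, 0 ≤ K ∧ ∀ z w : ℝ × ℝ,
      |cv v g z - cv v g w| ≤ K * (|z.1 - w.1| + |z.2 - w.2|) := by
  have hC : 0 ≤ C := (abs_nonneg _).trans (hv 0)
  set Kx := C * ∫ w, |dX g w| with hKx
  set Kt := C * ∫ w, |dT g w| with hKt
  have hKx0 : 0 ≤ Kx := mul_nonneg hC (integral_nonneg fun _ => abs_nonneg _)
  have hKt0 : 0 ≤ Kt := mul_nonneg hC (integral_nonneg fun _ => abs_nonneg _)
  have s : Sm (cv v g) := cv_smooth lv hg hc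
  have bx : ∀ z, |dX (cv v g) z| ≤ Kx := by
    intro z
    rw [dX_cv lv hg hc]
    exact cv_bound hv (hg.dX.cont.integrable_of_hasCompactSupport (cpt_dX hc)) z
  have bt : ∀ z, |dT (cv v g) z| ≤ Kt := by
    intro z
    rw [dT_cv lv hg hc]
    exact cv_bound hv (hg.dT.cont.integrable_of_hasCompactSupport (cpt_dT hc)) z
  refine ⟨Kx + Kt, by positivity, fun z w => ?_⟩
  have h1 : |cv v g (z.1, z.2) - cv v g (w.1, z.2)| ≤ Kx * |z.1 - w.1| := by
    have := convex_univ.norm_image_sub_le_of_norm_hasDerivWithin_le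
      (f := fun y => cv v g (y, z.2)) (fun y _ => (s.hX y z.2).hasDerivWithinAt)
      (fun y _ => bx (y, z.2)) (x := w.1) (y := z.1) trivial trivial
    simpa [Real.norm_eq_abs] using this
  have h2 : |cv v g (w.1, z.2) - cv v g (w.1, w.2)| ≤ Kt * |z.2 - w.2| := by
    have := convex_univ.norm_image_sub_le_of_norm_hasDerivWithin_le
      (f := fun y => cv v g (w.1, y)) (fun y _ => (s.hT w.1 y).hasDerivWithinAt)
      (fun y _ => bt (w.1, y)) (x := w.2) (y := z.2) trivial trivial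
    simpa [Real.norm_eq_abs] using this
  have h3 : cv v g z - cv v g w = (cv v g (z.1, z.2) - cv v g (w.1, z.2))
      + (cv v g (w.1, z.2) - cv v g (w.1, w.2)) := by ring
  rw [h3]
  refine (abs_add_le _ _).trans ?_
  have h4 : 0 ≤ Kt * |z.1 - w.1| := by positivity
  have h5 : 0 ≤ Kx * |z.2 - w.2| := by positivity
  nlinarith

section cls

variable {ρ C : ℝ} {h : ℝ → ℝ}

/-- L2 bounds for DX and DT of mollifications. -/
theorem D_bound (hh : IndH ρ C h) {χ : ℝ → ℝ} (hχ : IsCut χ) :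
    ∃ M : ℝ, 0 ≤ M ∧ ∀ v, InC ρ C h v → ∀ ε : ℝ, 0 < ε → ε ≤ 1 →
      J (fun z => χ z.1 * DX ρ (moll ε v) z ^ 2) ≤ M ∧
      J (fun z => χ z.1 * DT ρ (moll ε v) z ^ 2) ≤ M := by
  obtain ⟨M, hM0, hM⟩ := sec_bound hh hχ
  have hC := hh.C_nonneg
  set Q : ℝ := J (fun z => χ z.1) with hQ
  have hQ0 : 0 ≤ Q := J_nonneg fun z => hχ.nonneg _
  refine ⟨2 * ρ ^ 2 * C ^ 2 * Q + 2 * M, by positivity, fun v hv ε hε hε1 => ?_⟩
  obtain ⟨h1, h2⟩ := hM v hv ε hε hε1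
  have sV : Sm (moll ε v) := moll_smooth hε hv.locInt
  have key : ∀ A B : ℝ × ℝ → ℝ, Continuous A → Continuous B → (∀ z, |A z| ≤ C) →
      J (fun z => χ z.1 * B z ^ 2) ≤ M →
      J (fun z => χ z.1 * (ρ * A z + B z) ^ 2) ≤ 2 * ρ ^ 2 * C ^ 2 * Q + 2 * M := by
    intro A B cA cB hA hB
    have h3 : J (fun z => χ z.1 * (ρ * A z + B z) ^ 2)
        ≤ J (fun z => 2 * ρ ^ 2 * C ^ 2 * χ z.1 + 2 * (χ z.1 * B z ^ 2)) := by
      refine J_mono (hχ.mul_cx (by fun_prop))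
        ((hχ.cx.const_mul _).add ((hχ.mul_cx (by fun_prop)).const_mul _)) fun z => ?_
      have a1 : (ρ * A z + B z) ^ 2 ≤ 2 * ρ ^ 2 * C ^ 2 + 2 * B z ^ 2 := by
        have a2 : A z ^ 2 ≤ C ^ 2 := sq_le_sq' (abs_le.1 (hA z)).1 (abs_le.1 (hA z)).2
        have a3 : ρ ^ 2 * A z ^ 2 ≤ ρ ^ 2 * C ^ 2 := mul_le_mul_of_nonneg_left a2 (sq_nonneg _)
        nlinarith [sq_nonneg (ρ * A z - B z)]
      have := mul_le_mul_of_nonneg_left a1 (hχ.nonneg z.1)
      linarith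
    rw [J_add (hχ.cx.const_mul _) ((hχ.mul_cx (by fun_prop)).const_mul _), J_const_mul,
      J_const_mul] at h3
    linarith
  exact ⟨key _ _ sV.dX.cont sV.dX.dX.cont (moll_dX_le hC hv hε) h1,
    key _ _ sV.dT.cont sV.dT.dX.cont (moll_dT_le hC hv hε) h2⟩

/-- translation equicontinuity of DX and DT, for fixed v. -/
theorem D_trans (hh : IndH ρ C h) {v : ℝ × ℝ → ℝ} (hv : InC ρ C h v) {χ : ℝ → ℝ} (hχ : IsCut χ)
    {δ : ℝ} (hδ : 0 < δ) :
    ∃ ε₀ : ℝ, 0 < ε₀ ∧ ε₀ ≤ 1 ∧ ∀ ε, 0 < ε → ε ≤ ε₀ → ∀ y, |y| ≤ ε₀ →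
      J (fun z => χ z.1 * (shift y (DX ρ (moll ε v)) z - DX ρ (moll ε v) z) ^ 2) ≤ δ ∧
      J (fun z => χ z.1 * (shift y (DT ρ (moll ε v)) z - DT ρ (moll ε v) z) ^ 2) ≤ δ := by
  have hx := trans_small (fun ε => DX ρ (moll ε v))
    (fun ε hε _ => (DX_smooth ρ (moll_smooth hε hv.locInt)).cont)
    (fun ε _ _ => DX_per ρ (moll_per ε hv.perV))
    (fun χ hχ => by
      obtain ⟨M, hM0, hM⟩ := D_bound hh hχ
      exact ⟨M, hM0, fun ε h1 h2 => (hM v hv ε h1 h2).1⟩)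
    (fun ε η hε _ hη _ z => comm_D (DX ρ) (fun f g hf hg hc => DX_cv ρ hf hg hc)
      (fun g hg => DX_smooth ρ hg) (fun g hg => DX_cpt ρ hg) hv.cont hv.bdd hε hη z)
    (fun η hη _ => by
      have := cv_lip_of hv.bdd hv.locInt (DX_smooth ρ (ker_smooth η)) (DX_cpt ρ (ker_cpt hη))
      rw [← DX_cv ρ hv.locInt (ker_smooth η) (ker_cpt hη)] at this
      exact this)
    (fun η hη _ => by
      obtain ⟨K, hK⟩ := cv_bdd_of hv.bdd (DX_smooth ρ (ker_smooth η)).cont (DX_cpt ρ (ker_cpt hη))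
      rw [← DX_cv ρ hv.locInt (ker_smooth η) (ker_cpt hη)] at hK
      exact ⟨K, (abs_nonneg _).trans (hK 0), hK⟩)
    hχ hδ
  have ht := trans_small (fun ε => DT ρ (moll ε v))
    (fun ε hε _ => (DT_smooth ρ (moll_smooth hε hv.locInt)).cont)
    (fun ε _ _ => DT_per ρ (moll_per ε hv.perV))
    (fun χ hχ => by
      obtain ⟨M, hM0, hM⟩ := D_bound hh hχ
      exact ⟨M, hM0, fun ε h1 h2 => (hM v hv ε h1 h2).2⟩)
    (fun ε η hε _ hη _ z => comm_D (DT ρ) (fun f g hf hg hc => DT_cv ρ hf hg hc)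
      (fun g hg => DT_smooth ρ hg) (fun g hg => DT_cpt ρ hg) hv.cont hv.bdd hε hη z)
    (fun η hη _ => by
      have := cv_lip_of hv.bdd hv.locInt (DT_smooth ρ (ker_smooth η)) (DT_cpt ρ (ker_cpt hη))
      rw [← DT_cv ρ hv.locInt (ker_smooth η) (ker_cpt hη)] at this
      exact this)
    (fun η hη _ => by
      obtain ⟨K, hK⟩ := cv_bdd_of hv.bdd (DT_smooth ρ (ker_smooth η)).cont (DT_cpt ρ (ker_cpt hη))
      rw [← DT_cv ρ hv.locInt (ker_smooth η) (ker_cpt hη)] at hK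
      exact ⟨K, (abs_nonneg _).trans (hK 0), hK⟩)
    hχ hδ
  obtain ⟨a, ha0, ha1, ha⟩ := hx
  obtain ⟨b, hb0, hb1, hb⟩ := ht
  refine ⟨min a b, lt_min ha0 hb0, (min_le_left _ _).trans ha1, fun ε hε hε' y hy => ⟨?_, ?_⟩⟩
  · exact ha ε hε (hε'.trans (min_le_left _ _)) y (hy.trans (min_le_left _ _))
  · exact hb ε hε (hε'.trans (min_le_right _ _)) y (hy.trans (min_le_right _ _))

end cls

end Pool.Agent.Helper42.Fr
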